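import Pool.Agent.SCS.Enc

/-!
# Module TSize: sizes of lists

`szL`: all from `ListLaw`: `encL (l ++ l') = encL l ++ encL l'`, `a :: l = [a] ++ l`, `head_le`, `le_head`, `one_pos`.
-/

set_option autoImplicit false

namespace Pool.Agent.SCS

open Pool.Agent.PolyTime Pool.Agent.NegLim

variable {α β : Type} [Enc α] [Enc β]

theorem encL_nil : encL ([] : List α) = [] := by
  have h := (Enc.law (α := α)).app [] []
  have h2 := congrArg List.length h
  rw [List.length_append, List.append_nil] at h2
  exact List.length_eq_zero_iff.mp (by omega)

theorem sz_nil : sz ([] : List α) = 0 := by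
  show (encL ([] : List α)).length = 0
  rw [encL_nil]
  rfl

theorem sz_append (l l' : List α) : sz (l ++ l') = sz l + sz l' := by
  show (encL (l ++ l')).length = (encL l).length + (encL l').length
  rw [(Enc.law (α := α)).app, List.length_append]

theorem sz_cons_le (a : α) (l : List α) : sz (a :: l) ≤ 2 * sz a + 1 + sz l := by
  have h := sz_append [a] l
  have h2 : sz [a] ≤ 2 * sz a + 1 := (Enc.law (α := α)).le_head a
  rw [List.singleton_append] at h
  omega

theorem sz_cons_ge (a : α) (l : List α) : sz a + sz l ≤ sz (a :: l) := by
  have h := sz_append [a] l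
  have h2 : sz a ≤ sz [a] := (Enc.law (α := α)).head_le a
  rw [List.singleton_append] at h
  omega

theorem sz_tail_lt (a : α) (l : List α) : sz l < sz (a :: l) := by
  have h := sz_append [a] l
  have h2 : 0 < sz [a] := (Enc.law (α := α)).one_pos a
  rw [List.singleton_append] at h
  omega

theorem length_le_sz (l : List α) : l.length ≤ sz l := by
  induction l with
  | nil => exact Nat.zero_le _
  | cons a l ih =>
    have := sz_tail_lt a l
    rw [List.length_cons]
    omega

theorem sz_le_of_mem {a : α} {l : List α} (h : a ∈ l) : sz a ≤ sz l := by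
  induction l with
  | nil => exact absurd h List.not_mem_nil
  | cons b l ih =>
    have h1 := sz_cons_ge b l
    rcases List.mem_cons.mp h with h2 | h2
    · rw [h2]; omega
    · have := ih h2
      omega

theorem sz_sublist {l l' : List α} (h : l.Sublist l') : sz l ≤ sz l' := by
  induction h with
  | slnil => exact le_rfl
  | @cons l₁ l₂ a _ ih =>
    have := sz_tail_lt a l₂
    omega
  | @cons_cons l₁ l₂ a _ ih =>
    have h1 := sz_append [a] l₁
    have h2 := sz_append [a] l₂
    rw [List.singleton_append] at h1 h2
    omega

theorem sz_le_sum (l : List α) : sz l ≤ (l.map (fun a => 2 * sz a + 1)).sum := by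
  induction l with
  | nil => rw [sz_nil]; exact Nat.zero_le _
  | cons a l ih =>
    have := sz_cons_le a l
    rw [List.map_cons, List.sum_cons]
    omega

theorem sz_le_mul (l : List α) (b : ℕ) (h : ∀ a ∈ l, sz a ≤ b) :
    sz l ≤ l.length * (2 * b + 1) := by
  induction l with
  | nil => rw [sz_nil]; exact Nat.zero_le _
  | cons a l ih =>
    have h1 := sz_cons_le a l
    have h2 := h a List.mem_cons_self
    have h3 := ih (fun x hx => h x (List.mem_cons_of_mem a hx))
    rw [List.length_cons, Nat.succ_mul]
    omega

theorem sz_flatten (l : List (List α)) : sz l.flatten ≤ sz l := by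
  induction l with
  | nil => rw [List.flatten_nil, sz_nil]; exact Nat.zero_le _
  | cons a l ih =>
    rw [List.flatten_cons, sz_append]
    have := sz_cons_ge a l
    omega

theorem sz_reverse (l : List α) : sz l.reverse = sz l := by
  induction l with
  | nil => rfl
  | cons a l ih =>
    have h := sz_append [a] l
    rw [List.singleton_append] at h
    rw [List.reverse_cons, sz_append, ih]
    omega

theorem sz_singleton_le (a : α) : sz [a] ≤ 2 * sz a + 1 := by
  exact (Enc.law (α := α)).le_head a

end Pool.Agent.SCS
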