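import Mathlib
import Pool.Agent.NegLim.NPDefs

/-!
# P, UP, sparse sets, threshold reductions: definitions

`pairWord` and `InNP` are in `Pool/Agent/NegLim/NPDefs.lean`.
-/

set_option autoImplicit false

namespace Pool.Agent.SCS

open Pool.Agent.NegLim Turing

/-- the language with characteristic function `L` is in P -/
def InP (L : List Bool → Bool) : Prop :=
  Nonempty (TM2ComputableInPolyTime (id : List Bool → List Bool) (id : List Bool → List Bool)
    (fun x => [L x]))

/-- the language with characteristic function `L` is in UP: as NP, and no word has two
certificates -/
def InUP (L : List Bool → Bool) : Prop :=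
  ∃ (V : List Bool → Bool) (k : ℕ),
    Nonempty (TM2ComputableInPolyTime (id : List Bool → List Bool)
      (id : List Bool → List Bool) (fun y => [V y])) ∧
    (∀ x, L x = true ↔ ∃ w : List Bool, w.length ≤ x.length ^ k + k ∧ V (pairWord x w) = true) ∧
    ∀ x w w' : List Bool, w.length ≤ x.length ^ k + k → w'.length ≤ x.length ^ k + k →
      V (pairWord x w) = true → V (pairWord x w') = true → w = w'

/-- polynomially many words of each length -/
def Sparse (B : List Bool → Bool) : Prop :=
  ∃ k : ℕ, ∀ n, {x : List Bool | x.length = n ∧ B x = true}.ncard ≤ n ^ k + k

/-- the code of a list of words: all words one after the other, every bit preceded by `true`, a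
`false` after every word -/
def codeWords : List (List Bool) → List Bool
  | [] => []
  | x :: l => pairWord x (codeWords l)

/-- the code of a list of signed lists of words -/
def codeTerms (X : List (Bool × List (List Bool))) : List Bool :=
  codeWords (X.map fun t => pairWord [t.1] (codeWords t.2))

/-- `A` reduces to `B` by a polynomial-time map to polynomial threshold conditions of bounded
degree with polynomially bounded weights: `R x` is a list of signed terms, each a list of at most
`d` words; `x` is in `A` iff among the terms all of whose words are in `B` there are more positive
than negative ones. -/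
def ThrReduces (A B : List Bool → Bool) : Prop :=
  ∃ (d : ℕ) (R : List Bool → List (Bool × List (List Bool))),
    Nonempty (TM2ComputableInPolyTime (id : List Bool → List Bool) codeTerms R) ∧
    (∀ x, ∀ t ∈ R x, t.2.length ≤ d) ∧
    ∀ x, A x = true ↔
      (R x).countP (fun t => !t.1 && t.2.all B) < (R x).countP (fun t => t.1 && t.2.all B)

end Pool.Agent.SCS
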