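import Pool.Agent.SCS.TMSim
import Pool.Agent.SCS.Defs

/-!
# Module Classes: P and NP in terms of `PolyF`

`polyF_of_tm`: from `h : TM2ComputableInPolyTime id enc f` make `TM2ComputableInPolyTime id id (enc ∘ f)` (same machine, `outputsFun` unchanged by `rfl`), then `pc_of_tm`.
`exists_V`: `V (x, w) = V₀ (pairWord x w)`, `enc (x, w) = pairWord x w`, `enc b = [b]`.
`exists_inNP`: let `G` be `PC` with `G (enc (a, w)) = [V (a, w)]`, `P` a polynomial bound for `B` and `k` with `P.eval n ≤ n ^ k + k` for all `n`.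
`V₀ y = decide (G y = [true])` (`pc_isTrue`, `PC.polyTime`), `L x = decide (∃ w, w.length ≤ x.length ^ k + k ∧ V₀ (pairWord x w) = true)`; `enc (a, w) = pairWord (enc a) w`.
`exists_inUP`: `V₀ y = true` iff, with `p = fstW y`, `w = sndW y`, `x = fstW p` : `y = pairWord p w` is not needed; `V₀ y = VL (x, w) && |w| ≤ |x| ^ k + k && decide (G y = [true])` where
`G` is the word function of `V`; for `y = pairWord p w` this gives at most one `w` for every `p`.  Choose `k' ≥ k` with `|w| ≤ |x| ^ k + k ≤ |p| ^ k' + k'` (`|x| ≤ |p|`).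
-/

set_option autoImplicit false

namespace Pool.Agent.SCS

open Pool.Agent.PolyTime Pool.Agent.NegLim Turing

variable {α β : Type} [Enc α] [Enc β]



namespace ClassesAux

theorem bound1 (P : Polynomial ℕ) : ∃ A D : ℕ, ∀ n, P.eval n ≤ A * (n ^ D + 1) := by
  refine ⟨P.eval 1, P.natDegree, fun n => ?_⟩
  rw [Polynomial.eval_eq_sum_range, Polynomial.eval_eq_sum_range, Finset.sum_mul]
  refine Finset.sum_le_sum fun i hi => ?_
  rw [one_pow, mul_one]
  refine Nat.mul_le_mul_left _ ?_
  have hi' : i ≤ P.natDegree := by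
    rw [Finset.mem_range] at hi
    omega
  rcases Nat.eq_zero_or_pos n with h | h
  · subst h
    have : (0 : ℕ) ^ i ≤ 1 := pow_le_one' (by omega) i
    exact this.trans (Nat.le_add_left _ _)
  · have := Nat.pow_le_pow_right h hi'
    omega

theorem pc_bool_of_tm {V : List Bool → Bool}
    (h : Nonempty (TM2ComputableInPolyTime (id : List Bool → List Bool)
      (id : List Bool → List Bool) (fun y => [V y]))) : PC (fun y => [V y]) :=
  pc_of_tm h

theorem polyF_pairV {V : List Bool → Bool} (h : PC (fun y => [V y])) :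
    PolyF (fun p : List Bool × List Bool => V (pairWord p.1 p.2)) :=
  ⟨_, h, fun _ => rfl⟩

end ClassesAux

/-- every polynomial is bounded by some `n ^ k + k` -/
theorem exists_pow_bound (P : Polynomial ℕ) : ∃ k : ℕ, ∀ n, P.eval n ≤ n ^ k + k := by
  obtain ⟨A, D, h⟩ := ClassesAux.bound1 P
  refine ⟨D + 1 + 2 * A, fun n => (h n).trans ?_⟩
  rcases Nat.lt_or_ge n 2 with h2 | h2
  · have h3 : n ^ D ≤ 1 := pow_le_one' (by omega) D
    have h4 : A * (n ^ D + 1) ≤ A * 2 := Nat.mul_le_mul_left _ (by omega)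
    omega
  · have h3 : A < 2 ^ (2 * A) := by
      have h5 : 2 * A < 2 ^ (2 * A) := Nat.lt_two_pow_self
      omega
    have h4 : 2 ^ (1 + 2 * A) ≤ n ^ (1 + 2 * A) := Nat.pow_le_pow_left h2 _
    have h5 : 1 ≤ n ^ D := Nat.one_le_pow _ _ (by omega)
    have h6 : 2 * A ≤ 2 ^ (1 + 2 * A) := by
      rw [pow_add, pow_one]
      omega
    calc A * (n ^ D + 1) ≤ A * (n ^ D + n ^ D) := Nat.mul_le_mul_left _ (by omega)
      _ = n ^ D * (2 * A) := by ring
      _ ≤ n ^ D * n ^ (1 + 2 * A) := Nat.mul_le_mul_left _ (h6.trans h4)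
      _ = n ^ (D + 1 + 2 * A) := by rw [← pow_add]; congr 1; ring
      _ ≤ n ^ (D + 1 + 2 * A) + (D + 1 + 2 * A) := Nat.le_add_right _ _

theorem polyF_iff_tm {f : List Bool → List Bool} :
    PolyF f ↔ Nonempty (TM2ComputableInPolyTime (id : List Bool → List Bool)
      (id : List Bool → List Bool) f) :=
  ⟨fun h => (polyF_word.mp h).polyTime, fun h => polyF_word.mpr (pc_of_tm h)⟩

theorem polyF_of_tm {f : List Bool → β}
    (h : Nonempty (TM2ComputableInPolyTime (id : List Bool → List Bool)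
      (enc : β → List Bool) f)) : PolyF f := by
  obtain ⟨h⟩ := h
  have h2 : TM2ComputableInPolyTime (id : List Bool → List Bool)
      (id : List Bool → List Bool) (fun x => enc (f x)) :=
    ⟨h.toTM2ComputableAux, h.time, h.outputsFun⟩
  exact ⟨_, pc_of_tm ⟨h2⟩, fun _ => rfl⟩

theorem inP_iff {L : List Bool → Bool} : InP L ↔ PolyF L := by
  constructor
  · intro h
    exact ⟨_, pc_of_tm h, fun _ => rfl⟩
  · rintro ⟨g, hg, h⟩
    have h2 : PC (fun x => [L x]) := hg.congr (fun x => h x)
    exact h2.polyTime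

theorem InNP.exists_V {L : List Bool → Bool} (h : InNP L) :
    ∃ (V : List Bool × List Bool → Bool) (k : ℕ), PolyF V ∧
      ∀ x, L x = true ↔ ∃ w : List Bool, w.length ≤ x.length ^ k + k ∧ V (x, w) = true := by
  obtain ⟨V, k, h1, h2⟩ := h
  exact ⟨_, k, ClassesAux.polyF_pairV (ClassesAux.pc_bool_of_tm h1), h2⟩

theorem InUP.exists_V {L : List Bool → Bool} (h : InUP L) :
    ∃ (V : List Bool × List Bool → Bool) (k : ℕ), PolyF V ∧
      (∀ x, L x = true ↔ ∃ w : List Bool, w.length ≤ x.length ^ k + k ∧ V (x, w) = true) ∧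
      ∀ x w w' : List Bool, w.length ≤ x.length ^ k + k → w'.length ≤ x.length ^ k + k →
        V (x, w) = true → V (x, w') = true → w = w' := by
  obtain ⟨V, k, h1, h2, h3⟩ := h
  exact ⟨_, k, ClassesAux.polyF_pairV (ClassesAux.pc_bool_of_tm h1), h2, h3⟩

theorem exists_inNP {V : α × List Bool → Bool} (hV : PolyF V) {B : α → ℕ} (hB : PolyBd B)
    (hle : ∀ a w, V (a, w) = true → w.length ≤ B a) :
    ∃ L : List Bool → Bool, InNP L ∧ ∀ a, L (enc a) = true ↔ ∃ w, V (a, w) = true := by
  classical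
  obtain ⟨G, hG, hGV⟩ := hV
  obtain ⟨P, hP⟩ := hB
  obtain ⟨k, hk⟩ := exists_pow_bound P
  have hpc : PC (fun y => [decide (G y = [true])]) := PC.comp pc_isTrue hG
  refine ⟨fun x => decide (∃ w : List Bool, w.length ≤ x.length ^ k + k ∧
    decide (G (pairWord x w) = [true]) = true), ⟨fun y => decide (G y = [true]), k,
      hpc.polyTime, fun x => ?_⟩, fun a => ?_⟩
  · exact decide_eq_true_iff
  · have hv : ∀ w : List Bool, decide (G (pairWord (enc a) w) = [true]) = true ↔
        V (a, w) = true := by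
      intro w
      have h1 : G (pairWord (enc a) w) = [V (a, w)] := hGV (a, w)
      rw [decide_eq_true_iff, h1]
      simp
    rw [decide_eq_true_iff]
    constructor
    · rintro ⟨w, _, hw⟩
      exact ⟨w, (hv w).mp hw⟩
    · rintro ⟨w, hw⟩
      exact ⟨w, ((hle a w hw).trans (hP a)).trans (hk _), (hv w).mpr hw⟩

theorem exists_inUP {VL : List Bool × List Bool → Bool} (hVL : PolyF VL) (k : ℕ)
    (huniq : ∀ x w w' : List Bool, w.length ≤ x.length ^ k + k → w'.length ≤ x.length ^ k + k →
      VL (x, w) = true → VL (x, w') = true → w = w')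
    {V : (List Bool × β) × List Bool → Bool} (hV : PolyF V) :
    ∃ L : List Bool → Bool, InUP L ∧ ∀ x b, L (enc (x, b)) = true ↔
      ∃ w : List Bool, w.length ≤ x.length ^ k + k ∧ VL (x, w) = true ∧ V ((x, b), w) = true := by
  classical
  obtain ⟨G, hG, hGV⟩ := hV
  -- the verifier
  let V₀ : List Bool → Bool := fun y => VL (fstW (fstW y), sndW y) &&
    (decide (sz (sndW y) ≤ sz (fstW (fstW y)) ^ k + k) && decide (G y = [true]))
  have hf1 : PolyF (fun y : List Bool => fstW y) := polyF_word.mpr pc_fstW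
  have hs1 : PolyF (fun y : List Bool => sndW y) := polyF_word.mpr pc_sndW
  have hff : PolyF (fun y : List Bool => fstW (fstW y)) := hf1.comp hf1
  have hV1 : PolyF (fun y : List Bool => VL (fstW (fstW y), sndW y)) := hVL.comp (hff.pair hs1)
  have hV2 : PolyF (fun y : List Bool =>
      decide (sz (sndW y) ≤ sz (fstW (fstW y)) ^ k + k)) :=
    PolyF.le hs1.size (PolyF.add (hff.size.pow k) (PolyF.const k))
  have hV3 : PolyF (fun y : List Bool => decide (G y = [true])) :=
    ⟨_, PC.comp pc_isTrue hG, fun _ => rfl⟩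
  have hV0 : PolyF V₀ := hV1.and (hV2.and hV3)
  have hpc : PC (fun y => [V₀ y]) := by
    obtain ⟨g, hg, h⟩ := hV0
    exact hg.congr (fun x => h x)
  have hspec : ∀ p w : List Bool, V₀ (pairWord p w) = true ↔
      VL (fstW p, w) = true ∧ w.length ≤ (fstW p).length ^ k + k ∧
        G (pairWord p w) = [true] := by
    intro p w
    show (VL (fstW (fstW (pairWord p w)), sndW (pairWord p w)) &&
      (decide (sz (sndW (pairWord p w)) ≤ sz (fstW (fstW (pairWord p w))) ^ k + k) &&
        decide (G (pairWord p w) = [true]))) = true ↔ _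
    rw [fstW_pairWord, sndW_pairWord, sz_word, sz_word, Bool.and_eq_true, Bool.and_eq_true,
      decide_eq_true_iff, decide_eq_true_iff]
  refine ⟨fun x => decide (∃ w : List Bool, w.length ≤ x.length ^ k + k ∧
    V₀ (pairWord x w) = true), ⟨V₀, k, hpc.polyTime, fun x => decide_eq_true_iff, ?_⟩,
      fun x b => ?_⟩
  · intro p w w' _ _ h1 h2
    obtain ⟨a1, a2, _⟩ := (hspec p w).mp h1
    obtain ⟨b1, b2, _⟩ := (hspec p w').mp h2
    exact huniq (fstW p) w w' a2 b2 a1 b1
  · have hfp : fstW (enc (x, b)) = x := by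
      rw [enc_pair, fstW_pairWord]
      rfl
    have hGw : ∀ w : List Bool, G (pairWord (enc (x, b)) w) = [true] ↔
        V ((x, b), w) = true := by
      intro w
      have h1 : G (pairWord (enc (x, b)) w) = [V ((x, b), w)] := hGV ((x, b), w)
      rw [h1]
      simp
    have hlen : x.length ≤ (enc (x, b)).length := by
      have h1 : (enc (x, b)).length = 2 * (enc x).length + 1 + (enc b).length := by
        rw [enc_pair, length_pairWord]
      have h2 : (enc x).length = x.length := rfl
      omega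
    rw [decide_eq_true_iff]
    constructor
    · rintro ⟨w, _, hw⟩
      obtain ⟨a1, a2, a3⟩ := (hspec _ w).mp hw
      rw [hfp] at a1 a2
      exact ⟨w, a2, a1, (hGw w).mp a3⟩
    · rintro ⟨w, h1, h2, h3⟩
      refine ⟨w, h1.trans (Nat.add_le_add_right (Nat.pow_le_pow_left hlen k) k), ?_⟩
      rw [hspec, hfp]
      exact ⟨h2, h1, (hGw w).mpr h3⟩

theorem inNP_of_inUP {L : List Bool → Bool} (h : InUP L) : InNP L := by
  obtain ⟨V, k, h1, h2, _⟩ := h
  exact ⟨V, k, h1, h2⟩

end Pool.Agent.SCS
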