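import Pool.Agent.SCS.Enc

/-!
# The algorithm: definitions

A term is a signed list of words.  `lin τ X` is the value of the formal sum `X` of terms under `τ`.
-/

set_option autoImplicit false

namespace Pool.Agent.SCS

open Pool.Agent.PolyTime Pool.Agent.NegLim

/-- a signed list of words -/
abbrev Term := Bool × List (List Bool)

/-- the sign -/
def sgn (b : Bool) : ℤ := if b then 1 else -1

/-- the value of a formal sum of terms under a function of the lists of words -/
def lin (τ : List (List Bool) → ℤ) (X : List Term) : ℤ := (X.map fun t => sgn t.1 * τ t.2).sum

/-- the indicator function of the lists all of whose words are in `B` -/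
def ind (B : List Bool → Bool) (l : List (List Bool)) : ℤ := if l.all B then 1 else 0

/-- the formal sum `X` is accepted by `B`: more positive than negative terms hold -/
def acc (B : List Bool → Bool) (X : List Term) : Bool :=
  decide (X.countP (fun t => !t.1 && t.2.all B) < X.countP (fun t => t.1 && t.2.all B))

/-- all signs changed -/
def flipT (X : List Term) : List Term := X.map fun t => (!t.1, t.2)

/-- `X` or `-X` -/
def signed (s : Bool) (X : List Term) : List Term := if s = true then X else flipT X

/-- the formal sum `2 X - []`; its value under `ind B` is odd -/
def dblT (X : List Term) : List Term := X ++ X ++ [(false, [])]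

/-- the scalar product of two formal sums -/
def ip (S X : List Term) : ℤ := lin (fun l => lin (fun l' => if l = l' then 1 else 0) X) S

/-- the scalar product is positive -/
def ipPos (S X : List Term) : Bool := decide (0 < ip S X)

/-- one step of the perceptron for the examples `E` -/
def pstep (E : List (List Term)) (S : List Term) : List Term :=
  S ++ (E.find? fun X => !ipPos S X).getD []

/-- the perceptron has converged after `K` steps -/
def pgood (E : List (List Term)) (K : ℕ) : Bool :=
  E.all fun X => ipPos ((pstep E)^[K] []) X

/-- the scalar product over `GF(2)` of two words -/
def parity (v r : List Bool) : Bool :=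
  (v.foldl (fun (p : Bool × List Bool) b => (Bool.xor p.1 (b && p.2.headD false), p.2.tail))
    (false, r)).1

/-- addition over `GF(2)` of words of equal length -/
def xorW (v w : List Bool) : List Bool := (v.zip w).map fun p => Bool.xor p.1 p.2

/-- one step of the reduction modulo `x ^ |f| + f`: `r ↦ x r + b` -/
def resStep (f r : List Bool) (b : Bool) : List Bool :=
  if r.headD false = true then xorW (r.tail ++ [b]) f else r.tail ++ [b]

/-- the residue of the word `w` (highest coefficient first) modulo `x ^ |f| + f` -/
def res (f w : List Bool) : List Bool := w.foldl (resStep f) (List.replicate f.length false)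

/-- the first `Z` words of length `i` -/
def lev (Z : ℕ) : ℕ → List (List Bool)
  | 0 => [[]]
  | i + 1 => ((lev Z i).flatMap fun w => [false :: w, true :: w]).take Z

/-- a word `z` padded to the length `L` (if `|z| < L`) -/
def padW (L : ℕ) (z : List Bool) : List Bool :=
  List.replicate (L - 1 - z.length) false ++ true :: z

/-- removing the padding -/
def unpadW (u : List Bool) : List Bool := (u.dropWhile fun b => !b).tail

/-- the lexicographic order of words -/
def ltB : List Bool → List Bool → Bool
  | [], [] => false
  | [], _ :: _ => true
  | _ :: _, [] => false
  | a :: s, b :: t => if a = b then ltB s t else b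

section Cand

variable {α : Type} (R : α × ℕ × List Bool × List Bool → List Term) (K M Z y : ℕ) (a : α)

/-- the examples for the residue `j` modulo `f` -/
def examples (k : ℕ) (f j : List Bool) : List (List Term) :=
  (lev Z f.length).map fun v => signed (parity v j) (dblT (R (a, k, f, v)))

/-- the word `w` (of length `k`) passes all tests -/
def goodW (k : ℕ) (w : List Bool) : Bool :=
  ((List.range (y + 1)).flatMap (lev Z)).all fun f => pgood (examples R Z a k f (res f w)) K

/-- one step of the construction of the list of candidates -/
def candStep (p : ℕ × List (List Bool)) : ℕ × List (List Bool) :=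
  (p.1 + 1, ((p.2.flatMap fun w => [w ++ [false], w ++ [true]]).filter
    fun w => goodW R K Z y a (p.1 + 1) w).take M)

/-- the candidates of length `k` -/
def cand (k : ℕ) : List (List Bool) := ((candStep R K M Z y a)^[k] (0, [[]])).2

end Cand

end Pool.Agent.SCS
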