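import Pool.Agent.SCS.SLaw

/-!
# Polynomial-time functions between coded types

`Enc α`: objects of type `α` are coded by words (`enc`), lists of them by `encL` (for bits: a list of bits is its own code; for all other types: `codeL enc`).
`PolyF f`: some polynomial-time function on words maps `enc a` to `enc (f a)`.
-/

set_option autoImplicit false

namespace Pool.Agent.SCS

open Pool.Agent.PolyTime Pool.Agent.NegLim

class Enc (α : Type) where
  enc : α → List Bool
  encL : List α → List Bool
  law : ListLaw enc encL

export Enc (enc encL)

/-- codes of lists by `codeL` -/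
@[reducible] def Enc.mk' {α : Type} (e : α → List Bool) (he : Function.Injective e) : Enc α :=
  ⟨e, codeL e, codeL_law e he⟩

instance : Enc Bool := ⟨fun b => [b], fun l => l, bool_law⟩

instance : Enc ℕ := Enc.mk' (fun n => List.replicate n true) un_injective

instance : Enc Unit := Enc.mk' (fun _ => []) (fun _ _ _ => rfl)

instance {α : Type} [Enc α] : Enc (List α) := Enc.mk' encL Enc.law.injL

instance {α β : Type} [Enc α] [Enc β] : Enc (α × β) :=
  Enc.mk' (fun p => pairWord (enc p.1) (enc p.2)) (fun p q h => by
    obtain ⟨h1, h2⟩ := pairWord_inj h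
    exact Prod.ext (Enc.law.inj h1) (Enc.law.inj h2))

/-- the size -/
def sz {α : Type} [Enc α] (a : α) : ℕ := (enc a).length

/-- polynomial-time functions -/
def PolyF {α β : Type} [Enc α] [Enc β] (f : α → β) : Prop :=
  ∃ g, PC g ∧ ∀ a, g (enc a) = enc (f a)

/-- polynomially bounded functions -/
def PolyBd {α : Type} [Enc α] (h : α → ℕ) : Prop :=
  ∃ P : Polynomial ℕ, ∀ a, h a ≤ P.eval (sz a)

theorem enc_injective {α : Type} [Enc α] : Function.Injective (enc : α → List Bool) := Enc.law.inj

theorem enc_bool (b : Bool) : enc b = [b] := rfl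
theorem enc_word (x : List Bool) : enc x = x := rfl
theorem enc_nat (n : ℕ) : enc n = List.replicate n true := rfl
theorem enc_pair {α β : Type} [Enc α] [Enc β] (a : α) (b : β) :
    enc (a, b) = pairWord (enc a) (enc b) := rfl
theorem enc_list {α : Type} [Enc α] (l : List α) : enc l = encL l := rfl
theorem enc_nested {α : Type} [Enc α] (l : List (List α)) : enc l = codeL encL l := rfl
theorem enc_pairs {α β : Type} [Enc α] [Enc β] (l : List (α × β)) : enc l = codeL enc l := rfl

theorem sz_bool (b : Bool) : sz b = 1 := rfl
theorem sz_word (x : List Bool) : sz x = x.length := rfl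
theorem sz_nat (n : ℕ) : sz n = n := List.length_replicate
theorem sz_pair {α β : Type} [Enc α] [Enc β] (a : α) (b : β) : sz (a, b) = 2 * sz a + 1 + sz b :=
  length_pairWord _ _

end Pool.Agent.SCS
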