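import Pool.Agent.SCS.Alg

/-!
# Module MLin: formal sums of terms

For a formal sum `X` let `cf X l = lin (fun l' => if l = l' then 1 else 0) X` be the coefficient of the list `l`; it is `0` unless `l` occurs in `X`.
`lin τ X = ∑_{l ∈ F} cf X l * τ l` for every finite `F` containing all lists of `X`; `ip S X = ∑_{l ∈ F} cf S l * cf X l` for every finite `F` containing the lists of `S` (or of `X`).
`sq_lin_le`, `sq_ip_le`: Cauchy-Schwarz.  `ip_self_le`: `∑ (cf X l)^2 ≤ (∑ |cf X l|)^2 ≤ |X|^2`.
-/

set_option autoImplicit false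

namespace Pool.Agent.SCS

/-- the coefficient of the list `l` in `X` -/
def cf (X : List Term) (l : List (List Bool)) : ℤ := lin (fun l' => if l = l' then 1 else 0) X

/-- the lists of words which occur in `X` -/
def lists (X : List Term) : Finset (List (List Bool)) := (X.map Prod.snd).toFinset

theorem mem_lists {X : List Term} {l : List (List Bool)} : l ∈ lists X ↔ ∃ t ∈ X, t.2 = l := by
  simp [lists]

theorem cf_eq_zero {X : List Term} {l : List (List Bool)} (h : l ∉ lists X) : cf X l = 0 := by
  induction X with
  | nil => rfl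
  | cons t X ih =>
    have h1 : l ≠ t.2 := fun h2 => h (mem_lists.mpr ⟨t, by simp, h2.symm⟩)
    have h2 : l ∉ lists X := by
      intro h3
      obtain ⟨u, hu, hu2⟩ := mem_lists.mp h3
      exact h (mem_lists.mpr ⟨u, by simp [hu], hu2⟩)
    have h3 : cf (t :: X) l = sgn t.1 * (if l = t.2 then 1 else 0) + cf X l := by
      simp [cf, lin]
    rw [h3, ih h2, if_neg h1]
    simp

theorem lin_nil (τ : List (List Bool) → ℤ) : lin τ [] = 0 := by
  rfl

theorem lin_append (τ : List (List Bool) → ℤ) (X Y : List Term) :
    lin τ (X ++ Y) = lin τ X + lin τ Y := by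
  simp [lin]

theorem lin_flipT (τ : List (List Bool) → ℤ) (X : List Term) : lin τ (flipT X) = - lin τ X := by
  induction X with
  | nil => rfl
  | cons t X ih =>
    have h1 : lin τ (flipT (t :: X)) = sgn (!t.1) * τ t.2 + lin τ (flipT X) := by
      simp [lin, flipT]
    have h2 : lin τ (t :: X) = sgn t.1 * τ t.2 + lin τ X := by
      simp [lin]
    have h3 : sgn (!t.1) = - sgn t.1 := by
      cases t.1 <;> rfl
    rw [h1, h2, h3, ih]
    ring

theorem lin_signed (τ : List (List Bool) → ℤ) (s : Bool) (X : List Term) :
    lin τ (signed s X) = sgn s * lin τ X := by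
  cases s
  · have h : signed false X = flipT X := rfl
    have h' : sgn false = -1 := rfl
    rw [h, lin_flipT, h']
    ring
  · have h : signed true X = X := rfl
    have h' : sgn true = 1 := rfl
    rw [h, h']
    ring

theorem lin_dblT (τ : List (List Bool) → ℤ) (X : List Term) :
    lin τ (dblT X) = 2 * lin τ X - τ [] := by
  have h : lin τ [(false, [])] = - τ [] := by
    simp [lin, sgn]
  rw [dblT, lin_append, lin_append, h]
  ring

theorem length_signed (s : Bool) (X : List Term) : (signed s X).length = X.length := by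
  cases s
  · have h : signed false X = flipT X := rfl
    rw [h, flipT, List.length_map]
  · rfl

theorem length_dblT (X : List Term) : (dblT X).length = 2 * X.length + 1 := by
  rw [dblT, List.length_append, List.length_append, List.length_singleton]
  ring

theorem lists_signed (s : Bool) (X : List Term) : lists (signed s X) = lists X := by
  cases s
  · have h : signed false X = flipT X := rfl
    rw [h]
    ext l
    simp [mem_lists, flipT, or_comm]
  · rfl

theorem lists_dblT (X : List Term) : lists (dblT X) = insert [] (lists X) := by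
  ext l
  simp only [mem_lists, dblT, Finset.mem_insert, List.mem_append, List.mem_singleton]
  constructor
  · rintro ⟨t, (h | h) | h, rfl⟩
    · exact Or.inr ⟨t, h, rfl⟩
    · exact Or.inr ⟨t, h, rfl⟩
    · subst h
      exact Or.inl rfl
  · rintro (rfl | ⟨t, h, rfl⟩)
    · exact ⟨_, Or.inr rfl, rfl⟩
    · exact ⟨t, Or.inl (Or.inl h), rfl⟩

theorem acc_iff (B : List Bool → Bool) (X : List Term) :
    acc B X = true ↔ 0 < lin (ind B) X := by
  have key : lin (ind B) X = (X.countP (fun t => t.1 && t.2.all B) : ℤ) -
      (X.countP (fun t => !t.1 && t.2.all B) : ℤ) := by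
    induction X with
    | nil => rfl
    | cons t X ih =>
      have h2 : lin (ind B) (t :: X) = sgn t.1 * ind B t.2 + lin (ind B) X := by
        simp [lin]
      rw [h2, ih, List.countP_cons, List.countP_cons]
      obtain ⟨b, l⟩ := t
      cases b <;> cases h : l.all B <;> simp [sgn, ind, h] <;> ring
  rw [acc, decide_eq_true_iff, key]
  omega

theorem lin_eq_sum (τ : List (List Bool) → ℤ) (X : List Term) (F : Finset (List (List Bool)))
    (hF : lists X ⊆ F) : lin τ X = ∑ l ∈ F, cf X l * τ l := by
  induction X with
  | nil =>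
    rw [lin_nil]
    symm
    apply Finset.sum_eq_zero
    intro l _
    have : cf [] l = 0 := rfl
    rw [this, zero_mul]
  | cons t X ih =>
    have h1 : lists X ⊆ F := by
      intro l hl
      obtain ⟨u, hu, hu2⟩ := mem_lists.mp hl
      exact hF (mem_lists.mpr ⟨u, by simp [hu], hu2⟩)
    have h2 : t.2 ∈ F := hF (mem_lists.mpr ⟨t, by simp, rfl⟩)
    have h3 : lin τ (t :: X) = sgn t.1 * τ t.2 + lin τ X := by
      simp [lin]
    have h4 : ∀ l, cf (t :: X) l = sgn t.1 * (if l = t.2 then 1 else 0) + cf X l := by
      intro l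
      simp [cf, lin]
    rw [h3, ih h1]
    simp only [h4, add_mul, Finset.sum_add_distrib]
    congr 1
    rw [Finset.sum_eq_single t.2]
    · simp
    · intro l _ hl
      rw [if_neg hl]
      ring
    · intro h
      exact absurd h2 h

theorem ip_eq_sum (S X : List Term) (F : Finset (List (List Bool))) (hF : lists S ⊆ F) :
    ip S X = ∑ l ∈ F, cf S l * cf X l := by
  exact lin_eq_sum (fun l => cf X l) S F hF

theorem ip_comm (S X : List Term) : ip S X = ip X S := by
  rw [ip_eq_sum S X (lists S ∪ lists X) Finset.subset_union_left,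
    ip_eq_sum X S (lists S ∪ lists X) Finset.subset_union_right]
  exact Finset.sum_congr rfl fun l _ => mul_comm _ _

theorem ip_nil (X : List Term) : ip [] X = 0 := by
  rfl

theorem ip_append_left (S T X : List Term) : ip (S ++ T) X = ip S X + ip T X := by
  exact lin_append _ S T

theorem ip_append_right (S X Y : List Term) : ip S (X ++ Y) = ip S X + ip S Y := by
  rw [ip_comm, ip_append_left, ip_comm X, ip_comm Y]

theorem ip_signed (S : List Term) (s : Bool) (X : List Term) :
    ip S (signed s X) = sgn s * ip S X := by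
  rw [ip_comm, ip_comm S X]
  exact lin_signed _ s X

theorem ip_self_nonneg (X : List Term) : 0 ≤ ip X X := by
  rw [ip_eq_sum X X _ (Finset.Subset.refl _)]
  exact Finset.sum_nonneg fun l _ => mul_self_nonneg _

theorem ip_self_le (X : List Term) : ip X X ≤ (X.length : ℤ) ^ 2 := by
  have key : ∀ (τ : List (List Bool) → ℤ) (c : ℤ), (∀ l, |τ l| ≤ c) → ∀ Y : List Term,
      |lin τ Y| ≤ (Y.length : ℤ) * c := by
    intro τ c h Y
    induction Y with
    | nil => simp [lin_nil]
    | cons t Y ih =>
      have h2 : lin τ (t :: Y) = sgn t.1 * τ t.2 + lin τ Y := by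
        simp [lin]
      have h3 : |sgn t.1 * τ t.2| = |τ t.2| := by
        cases t.1 <;> simp [sgn]
      rw [h2]
      calc |sgn t.1 * τ t.2 + lin τ Y| ≤ |sgn t.1 * τ t.2| + |lin τ Y| := abs_add_le _ _
        _ ≤ c + (Y.length : ℤ) * c := add_le_add (h3 ▸ h _) ih
        _ = ((t :: Y).length : ℤ) * c := by
          rw [List.length_cons]
          push_cast
          ring
  have h1 : ∀ l, |cf X l| ≤ (X.length : ℤ) := by
    intro l
    have := key (fun l' => if l = l' then 1 else 0) 1 (by
      intro l'
      split_ifs <;> simp) X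
    rwa [mul_one] at this
  have h2 := key (fun l => cf X l) X.length h1 X
  calc ip X X ≤ |ip X X| := le_abs_self _
    _ ≤ (X.length : ℤ) * X.length := h2
    _ = (X.length : ℤ) ^ 2 := by ring

theorem sq_lin_le (τ : List (List Bool) → ℤ) (S : List Term) :
    lin τ S ^ 2 ≤ (∑ l ∈ lists S, τ l ^ 2) * ip S S := by
  rw [lin_eq_sum τ S _ (Finset.Subset.refl _), ip_eq_sum S S _ (Finset.Subset.refl _)]
  have h := Finset.sum_mul_sq_le_sq_mul_sq (lists S) (fun l => cf S l) τ
  have h2 : ∑ l ∈ lists S, cf S l * cf S l = ∑ l ∈ lists S, cf S l ^ 2 :=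
    Finset.sum_congr rfl fun l _ => by ring
  rw [h2, mul_comm]
  exact h

end Pool.Agent.SCS
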