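import Pool.Agent.SCS.TIter

/-!
# Module TNat: arithmetic of numbers (in unary)

`add`: iterate `succ` (`iter_add`, `sz n = n`); `mul`: iterate adding; `sub`: iterate `pred`; `le`: `m - n = 0` (`natCase`); `pow` with constant exponent and `eval` of a constant polynomial:
by induction on the exponent, `Polynomial.induction_on'`.
-/

set_option autoImplicit false

namespace Pool.Agent.SCS

open Pool.Agent.PolyTime Pool.Agent.NegLim

variable {α : Type} [Enc α]

namespace TNatAux

theorem iter_succ (k x : ℕ) : (fun x : ℕ => x + 1)^[k] x = x + k := by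
  induction k generalizing x with
  | zero => rfl
  | succ k ih =>
    rw [Function.iterate_succ_apply, ih]
    omega

theorem iter_add (c k x : ℕ) : (fun x : ℕ => x + c)^[k] x = x + k * c := by
  induction k generalizing x with
  | zero => simp
  | succ k ih =>
    rw [Function.iterate_succ_apply, ih]
    ring

theorem iter_pred (k x : ℕ) : (fun x : ℕ => x - 1)^[k] x = x - k := by
  induction k generalizing x with
  | zero => rfl
  | succ k ih =>
    rw [Function.iterate_succ_apply, ih]
    omega

end TNatAux

/-- a number is its size, so values of `PolyF` functions are polynomially bounded -/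
theorem PolyF.natBd {m : α → ℕ} (hm : PolyF m) : PolyBd m :=
  PolyBd.mono (PolyF.szBd hm) (fun a => by rw [sz_nat])

theorem PolyF.add {m n : α → ℕ} (hm : PolyF m) (hn : PolyF n) : PolyF (fun a => m a + n a) := by
  have h := PolyF.iter_add (α := α) (σ := ℕ) (n := n) (s := m) (f := fun p => p.2 + 1) hn hm
    (PolyF.succ (PolyF.snd PolyF.id)) (h := fun _ => 1) (PolyBd.const 1)
    (fun a x => by simp only [sz_nat]; exact le_rfl)
  exact PolyF.congr h (fun a => TNatAux.iter_succ (n a) (m a))

theorem PolyF.mul {m n : α → ℕ} (hm : PolyF m) (hn : PolyF n) : PolyF (fun a => m a * n a) := by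
  have hf : PolyF (fun p : α × ℕ => p.2 + n p.1) :=
    PolyF.add (PolyF.snd PolyF.id) (PolyF.comp hn (PolyF.fst PolyF.id))
  have h := PolyF.iter_add (α := α) (σ := ℕ) (n := m) (s := fun _ => 0)
    (f := fun p => p.2 + n p.1) hm (PolyF.const 0) hf (h := n) (PolyF.natBd hn)
    (fun a x => by simp only [sz_nat]; exact le_rfl)
  exact PolyF.congr h (fun a => (TNatAux.iter_add (n a) (m a) 0).trans (by simp))

theorem PolyF.sub {m n : α → ℕ} (hm : PolyF m) (hn : PolyF n) : PolyF (fun a => m a - n a) := by
  have h := PolyF.iter_add (α := α) (σ := ℕ) (n := n) (s := m) (f := fun p => p.2 - 1) hn hm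
    (PolyF.pred (PolyF.snd PolyF.id)) (h := fun _ => 0) (PolyBd.const 0)
    (fun a x => by simp only [sz_nat]; omega)
  exact PolyF.congr h (fun a => TNatAux.iter_pred (n a) (m a))

theorem PolyF.pow {m : α → ℕ} (hm : PolyF m) (k : ℕ) : PolyF (fun a => m a ^ k) := by
  induction k with
  | zero => exact PolyF.congr (PolyF.const 1) (fun a => (pow_zero (m a)).symm)
  | succ k ih => exact PolyF.congr (PolyF.mul ih hm) (fun a => (pow_succ (m a) k).symm)

theorem PolyF.evalPoly {m : α → ℕ} (hm : PolyF m) (P : Polynomial ℕ) :
    PolyF (fun a => P.eval (m a)) := by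
  induction P using Polynomial.induction_on' with
  | add p q hp hq => exact PolyF.congr (PolyF.add hp hq) (fun a => Polynomial.eval_add.symm)
  | monomial k c =>
    exact PolyF.congr (PolyF.mul (PolyF.const c) (PolyF.pow hm k))
      (fun a => Polynomial.eval_monomial.symm)

theorem PolyF.le {m n : α → ℕ} (hm : PolyF m) (hn : PolyF n) :
    PolyF (fun a => decide (m a ≤ n a)) := by
  have h := PolyF.natCase (α := α) (γ := Bool) (n := fun a => m a - n a) (f := fun _ => true)
    (g := fun _ => false) (PolyF.sub hm hn) (PolyF.const true) (PolyF.const false)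
  refine PolyF.congr h (fun a => ?_)
  rcases Nat.lt_or_ge (n a) (m a) with h1 | h1
  · obtain ⟨k, hk⟩ : ∃ k, m a - n a = k + 1 := ⟨m a - n a - 1, by omega⟩
    rw [hk]
    exact (decide_eq_false (by omega)).symm
  · have hk : m a - n a = 0 := by omega
    rw [hk]
    exact (decide_eq_true h1).symm

theorem PolyF.lt {m n : α → ℕ} (hm : PolyF m) (hn : PolyF n) :
    PolyF (fun a => decide (m a < n a)) :=
  PolyF.le (PolyF.succ hm) hn

theorem PolyF.eqNat {m n : α → ℕ} (hm : PolyF m) (hn : PolyF n) :
    PolyF (fun a => decide (m a = n a)) :=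
  PolyF.beq hm hn

end Pool.Agent.SCS
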