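import Pool.Agent.SCS.TOps2
import Pool.Agent.SCS.TNat

/-!
# Module TTab: finite tables and finite case distinctions

`finCases`: induction on `C` with `PolyF.ite` and the test `decide (n a = i)` (`PolyF.eqNat`).  `table`: `finCases` with constant functions.  `set`: `take i l ++ [x] ++ drop (i + 1) l` if
`i < length`.
-/

set_option autoImplicit false

namespace Pool.Agent.SCS

open Pool.Agent.PolyTime Pool.Agent.NegLim

variable {α β γ : Type} [Enc α] [Enc β] [Enc γ]

theorem PolyF.finCases {n : α → ℕ} (C : ℕ) {F : ℕ → α → γ} {d : α → γ} (hn : PolyF n)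
    (hF : ∀ i < C, PolyF (F i)) (hd : PolyF d) :
    PolyF (fun a => if n a < C then F (n a) a else d a) := by
  induction C with
  | zero => exact hd.congr (fun a => by simp)
  | succ C ih =>
    have h1 := ih (fun i hi => hF i (Nat.lt_succ_of_lt hi))
    have h2 := PolyF.ite (PolyF.eqNat hn (PolyF.const C)) (hF C (Nat.lt_succ_self C)) h1
    refine h2.congr (fun a => ?_)
    by_cases h : n a = C
    · simp [h]
    · by_cases h' : n a < C
      · have h'' : n a < C + 1 := Nat.lt_succ_of_lt h'
        simp [h, h', h'']
      · have h'' : ¬ n a < C + 1 := by omega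
        simp [h, h', h'']

theorem PolyF.table {n : α → ℕ} (C : ℕ) (F : ℕ → γ) (d : γ) (hn : PolyF n) :
    PolyF (fun a => if n a < C then F (n a) else d) :=
  PolyF.finCases C (F := fun i _ => F i) (d := fun _ => d) hn (fun i _ => PolyF.const (F i))
    (PolyF.const d)

theorem PolyF.table2 {m n : α → ℕ} (C D : ℕ) (F : ℕ → ℕ → γ) (d : γ) (hm : PolyF m)
    (hn : PolyF n) : PolyF (fun a => if m a < C ∧ n a < D then F (m a) (n a) else d) := by
  have h := PolyF.finCases C (F := fun i a => if n a < D then F i (n a) else d)
    (d := fun _ => d) hm (fun i _ => PolyF.table D (F i) d hn) (PolyF.const d)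
  refine h.congr (fun a => ?_)
  by_cases h1 : m a < C
  · by_cases h2 : n a < D
    · simp [h1, h2]
    · simp [h1, h2]
  · simp [h1]

theorem PolyF.set (i : ℕ) {l : α → List β} {f : α → β} (hl : PolyF l) (hf : PolyF f) :
    PolyF (fun a => (l a).set i (f a)) := by
  induction i generalizing l with
  | zero =>
    have h := PolyF.listCase (l := l) (f := fun _ : α => ([] : List β))
      (g := fun x : α × β × List β => f x.1 :: x.2.2) hl (PolyF.const [])
      (PolyF.cons (PolyF.comp hf (PolyF.fst PolyF.id)) (PolyF.snd (PolyF.snd PolyF.id)))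
    refine h.congr (fun a => ?_)
    cases l a <;> simp
  | succ i ih =>
    have h1 : PolyF (fun a => (l a).tail.set i (f a)) := ih hl.tail
    have h2 : PolyF (fun a => (l a).take 1) := by
      have h := PolyF.listCase (l := l) (f := fun _ : α => ([] : List β))
        (g := fun x : α × β × List β => [x.2.1]) hl (PolyF.const [])
        (PolyF.singleton (PolyF.fst (PolyF.snd PolyF.id)))
      refine h.congr (fun a => ?_)
      cases l a <;> simp
    refine (PolyF.append h2 h1).congr (fun a => ?_)
    cases l a <;> simp

/-- functions of a bit -/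
theorem PolyF.ofBool (F : Bool → γ) {c : α → Bool} (hc : PolyF c) : PolyF (fun a => F (c a)) := by
  refine (PolyF.ite hc (PolyF.const (F true)) (PolyF.const (F false))).congr (fun a => ?_)
  cases c a <;> simp

end Pool.Agent.SCS
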