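import Pool.Agent.SCS.Alg
import Pool.Agent.SCS.TTab

/-!
# Module PAlg1: formal sums in polynomial time

`acc` and `ipPos` by counting (`countP = length of filter`, `PolyF.filter`, `PolyF.length`, `PolyF.lt`).
`0 < ip S X` iff the number of pairs `(t, t')`, `t` in `S`, `t'` in `X`, with equal lists and different signs is smaller than the number of those with equal signs;
the pairs are counted by the length of `S.flatMap fun t => X.filter fun t' => ...` (`PolyF.flatMap`, `PolyF.beq`).  Membership in a list: `PolyF.mem`; `List.all`: `PolyF.all`.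
-/

set_option autoImplicit false

namespace Pool.Agent.SCS

open Pool.Agent.PolyTime Pool.Agent.NegLim

variable {α : Type} [Enc α]

theorem polyF_flipT {X : α → List Term} (hX : PolyF X) : PolyF (fun a => flipT (X a)) := by
  exact hX.map (f := fun p : α × Term => ((!p.2.1, p.2.2) : Term))
    (PolyF.pair (PolyF.not PolyF.id.snd.fst) PolyF.id.snd.snd)

theorem polyF_signed {s : α → Bool} {X : α → List Term} (hs : PolyF s) (hX : PolyF X) :
    PolyF (fun a => signed (s a) (X a)) := by
  exact PolyF.ite hs hX (polyF_flipT hX)

theorem polyF_dblT {X : α → List Term} (hX : PolyF X) : PolyF (fun a => dblT (X a)) := by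
  exact (hX.append hX).append (PolyF.const [((false, []) : Term)])

private theorem PAlg1_lin_eq (t : Term) (X : List Term) :
    sgn t.1 * lin (fun l' => if t.2 = l' then 1 else 0) X =
      (((X.filter fun t' => decide (t.2 = t'.2) && !Bool.xor t.1 t'.1).length : ℕ) : ℤ) -
      (((X.filter fun t' => decide (t.2 = t'.2) && Bool.xor t.1 t'.1).length : ℕ) : ℤ) := by
  induction X with
  | nil => simp [lin]
  | cons x X ih =>
    have h1 : lin (fun l' => if t.2 = l' then (1 : ℤ) else 0) (x :: X) =
        sgn x.1 * (if t.2 = x.2 then 1 else 0) + lin (fun l' => if t.2 = l' then 1 else 0) X := by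
      simp [lin]
    rw [h1, mul_add, ih, List.filter_cons, List.filter_cons]
    by_cases h : t.2 = x.2
    · rcases ht : t.1 <;> rcases hx : x.1 <;> simp [h, sgn] <;> ring
    · simp [h]

private theorem PAlg1_ip_eq (S X : List Term) :
    ip S X = (((S.flatMap fun t => X.filter fun t' =>
        decide (t.2 = t'.2) && !Bool.xor t.1 t'.1).length : ℕ) : ℤ) -
      (((S.flatMap fun t => X.filter fun t' =>
        decide (t.2 = t'.2) && Bool.xor t.1 t'.1).length : ℕ) : ℤ) := by
  induction S with
  | nil => simp [ip, lin]
  | cons s S ih =>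
    have h1 : ip (s :: S) X = sgn s.1 * lin (fun l' => if s.2 = l' then 1 else 0) X + ip S X := by
      simp [ip, lin]
    rw [h1, PAlg1_lin_eq, ih, List.flatMap_cons, List.flatMap_cons, List.length_append,
      List.length_append]
    push_cast
    ring

theorem polyF_ipPos {S X : α → List Term} (hS : PolyF S) (hX : PolyF X) :
    PolyF (fun a => ipPos (S a) (X a)) := by
  have key : ∀ c : Bool → Bool → Bool, PolyF (fun p : Bool × Bool => c p.1 p.2) →
      PolyF (fun a => ((S a).flatMap fun t => (X a).filter fun t' =>
        decide (t.2 = t'.2) && c t.1 t'.1).length) := by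
    intro c hc
    refine PolyF.length (PolyF.flatMap (f := fun p : α × Term => (X p.1).filter fun t' =>
        decide (p.2.2 = t'.2) && c p.2.1 t'.1) hS ?_)
    refine PolyF.filter (l := fun p : α × Term => X p.1)
      (p := fun q : (α × Term) × Term => decide (q.1.2.2 = q.2.2) && c q.1.2.1 q.2.1)
      (hX.comp PolyF.id.fst) ?_
    refine PolyF.and (PolyF.beq PolyF.id.fst.snd.snd PolyF.id.snd.snd) ?_
    exact hc.comp (PolyF.pair PolyF.id.fst.snd.fst PolyF.id.snd.fst)
  have h1 := key (fun b b' => Bool.xor b b') (PolyF.xor PolyF.id.fst PolyF.id.snd)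
  have h2 := key (fun b b' => !Bool.xor b b') (PolyF.xor PolyF.id.fst PolyF.id.snd).not
  refine (h1.lt h2).congr fun a => ?_
  unfold ipPos
  rw [PAlg1_ip_eq]
  congr 1
  apply propext
  omega

/-- acceptance when the oracle is given as a list -/
theorem polyF_acc {Y : α → List (List Bool)} {X : α → List Term} (hY : PolyF Y) (hX : PolyF X) :
    PolyF (fun a => acc (fun y => decide (y ∈ Y a)) (X a)) := by
  have key : ∀ c : Bool → Bool, PolyF (fun b : Bool => c b) →
      PolyF (fun a => (X a).countP (fun t => c t.1 && t.2.all (fun y => decide (y ∈ Y a)))) := by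
    intro c hc
    have h : PolyF (fun a => ((X a).filter
        (fun t => c t.1 && t.2.all (fun y => decide (y ∈ Y a)))).length) := by
      refine PolyF.length (PolyF.filter
        (p := fun q : α × Term => c q.2.1 && q.2.2.all (fun y => decide (y ∈ Y q.1))) hX ?_)
      refine PolyF.and (hc.comp (PolyF.id (α := α × Term)).snd.fst) ?_
      refine PolyF.all (l := fun q : α × Term => q.2.2)
        (p := fun r : (α × Term) × List Bool => decide (r.2 ∈ Y r.1.1))
        (PolyF.id (α := α × Term)).snd.snd ?_
      exact (PolyF.mem (PolyF.id (α := (α × Term) × List Bool)).snd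
        (hY.comp (PolyF.id (α := (α × Term) × List Bool)).fst.fst)).congr
          fun r => decide_eq_decide.2 Iff.rfl
    exact h.congr fun a => List.countP_eq_length_filter.symm
  exact (key (fun b => !b) PolyF.id.not).lt (key (fun b => b) PolyF.id)

end Pool.Agent.SCS
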