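import Pool.Agent.SCS.Stmt
import Pool.Agent.SCS.PAlg1
import Pool.Agent.SCS.MLin

/-!
# Module FCompl: reductions to the complement

`∏_{y ∈ l} [y ∈ B] = ∏ (1 - [y ∉ B]) = ∑_{l' sublist of l} (-1)^{|l'|} [all y ∈ l' are not in B]`.
`expand d t` is the `d`-fold iteration of `stepE`, which moves one word `y` from the list to the formal sum:
`X, y ↦ X ++ X.map (fun t => (!t.1, y :: t.2))`.
-/

set_option autoImplicit false

namespace Pool.Agent.SCS

open Pool.Agent.PolyTime Pool.Agent.NegLim

namespace FComplAux

/-- the complement -/
def cpl (B : List Bool → Bool) : List Bool → Bool := fun x => !B x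

/-- one word is moved from the list to the formal sum -/
def stepE (p : List Term × List (List Bool)) : List Term × List (List Bool) :=
  match p.2 with
  | [] => p
  | y :: l => (p.1 ++ p.1.map (fun t => (!t.1, y :: t.2)), l)

/-- the expansion of a term -/
def expand (d : ℕ) (t : Term) : List Term := (stepE^[d] ([(t.1, [])], t.2)).1

theorem polyF_stepE : PolyF stepE := by
  have h1 : PolyF (fun p : List Term × List (List Bool) => p.2) := PolyF.id.snd
  have hg : PolyF (fun q : (List Term × List (List Bool)) × List Bool × List (List Bool) =>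
      ((q.1.1 ++ q.1.1.map (fun t : Term => ((!t.1, q.2.1 :: t.2) : Term)), q.2.2) :
        List Term × List (List Bool))) := by
    refine PolyF.pair ?_ PolyF.id.snd.snd
    refine PolyF.append PolyF.id.fst.fst ?_
    have hf : PolyF (fun r : ((List Term × List (List Bool)) × List Bool × List (List Bool)) ×
        Term => ((!r.2.1, r.1.2.1 :: r.2.2) : Term)) :=
      PolyF.pair (PolyF.not PolyF.id.snd.fst) (PolyF.cons PolyF.id.fst.snd.fst PolyF.id.snd.snd)
    exact PolyF.map PolyF.id.fst.fst hf
  have h2 := PolyF.listCase h1 (PolyF.id (α := List Term × List (List Bool))) hg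
  refine h2.congr ?_
  intro p
  unfold stepE
  rcases p with ⟨X, _ | ⟨y, l⟩⟩ <;> rfl

theorem polyF_iter (d : ℕ) : PolyF (fun p => stepE^[d] p) := by
  induction d with
  | zero => exact PolyF.id
  | succ d ih =>
    have h := PolyF.comp ih polyF_stepE
    refine h.congr ?_
    intro p
    rfl

theorem polyF_expand (d : ℕ) : PolyF (fun t : Term => expand d t) := by
  have h0 : PolyF (fun t : Term => (([(t.1, [])], t.2) : List Term × List (List Bool))) :=
    PolyF.pair (PolyF.singleton (PolyF.pair PolyF.id.fst (PolyF.const []))) PolyF.id.snd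
  exact (PolyF.comp (polyF_iter d) h0).fst

theorem lin_cons (τ : List (List Bool) → ℤ) (t : Term) (X : List Term) :
    lin τ (t :: X) = sgn t.1 * τ t.2 + lin τ X := by
  simp [lin]

theorem sgn_not (b : Bool) : sgn (!b) = - sgn b := by
  cases b <;> simp [sgn]

theorem ind_cons (B : List Bool → Bool) (y : List Bool) (l : List (List Bool)) :
    ind B (y :: l) = (if B y = true then 1 else 0) * ind B l := by
  unfold ind
  by_cases h : B y = true <;> simp [h]

theorem lin_step (B : List Bool → Bool) (y : List Bool) (X : List Term) :
    lin (ind (cpl B)) (X ++ X.map (fun t => (!t.1, y :: t.2)))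
      = lin (ind (cpl B)) X * (if B y = true then 1 else 0) := by
  rw [lin_append]
  have h : lin (ind (cpl B)) (X.map (fun t => ((!t.1, y :: t.2) : Term)))
      = - ((if cpl B y = true then 1 else 0) * lin (ind (cpl B)) X) := by
    induction X with
    | nil => simp [lin]
    | cons t X ih =>
      rw [List.map_cons, lin_cons, lin_cons, ih, sgn_not, ind_cons]
      ring
  rw [h]
  by_cases hB : B y = true
  · simp [cpl, hB]
  · simp [cpl, hB]

theorem lin_iter (B : List Bool → Bool) (d : ℕ) :
    ∀ p : List Term × List (List Bool), p.2.length ≤ d →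
      lin (ind (cpl B)) (stepE^[d] p).1 = lin (ind (cpl B)) p.1 * ind B p.2 := by
  induction d with
  | zero =>
    rintro ⟨X, l⟩ h
    have hl : l = [] := List.length_eq_zero_iff.mp (Nat.le_zero.mp h)
    subst hl
    simp [ind]
  | succ d ih =>
    rintro ⟨X, l⟩ h
    rw [Function.iterate_succ_apply]
    rcases l with _ | ⟨y, l⟩
    · have := ih (X, []) (Nat.zero_le _)
      exact this
    · have h2 : l.length ≤ d := by simpa using h
      have := ih (X ++ X.map (fun t => (!t.1, y :: t.2)), l) h2
      refine this.trans ?_
      dsimp only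
      rw [lin_step, ind_cons]
      ring

theorem lin_expand (B : List Bool → Bool) {d : ℕ} {t : Term} (h : t.2.length ≤ d) :
    lin (ind (cpl B)) (expand d t) = sgn t.1 * ind B t.2 := by
  unfold expand
  rw [lin_iter B d _ h]
  simp [lin, ind]

theorem length_iter (d : ℕ) :
    ∀ (p : List Term × List (List Bool)) (D : ℕ), (∀ t ∈ p.1, t.2.length ≤ D) →
      ∀ t ∈ (stepE^[d] p).1, t.2.length ≤ D + d := by
  induction d with
  | zero => intro p D h; simpa using h
  | succ d ih =>
    rintro ⟨X, l⟩ D h
    rw [Function.iterate_succ_apply]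
    have key : ∀ t ∈ (stepE (X, l)).1, t.2.length ≤ D + 1 := by
      rcases l with _ | ⟨y, l⟩
      · intro t ht
        have : t ∈ X := ht
        exact (h t this).trans (Nat.le_succ _)
      · intro t ht
        have ht' : t ∈ X ++ X.map (fun t => ((!t.1, y :: t.2) : Term)) := ht
        rw [List.mem_append, List.mem_map] at ht'
        rcases ht' with ht' | ⟨t', ht', rfl⟩
        · exact (h t ht').trans (Nat.le_succ _)
        · have := h t' ht'
          simpa using this
    have := ih (stepE (X, l)) (D + 1) key
    intro t ht
    have := this t ht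
    omega

theorem length_expand {d : ℕ} {t s : Term} (h : s ∈ expand d t) : s.2.length ≤ d := by
  have := length_iter d ([(t.1, [])], t.2) 0 (by
    intro t' ht'
    have : t' = (t.1, []) := by simpa using ht'
    subst this
    simp) s h
  simpa using this

theorem lin_flatMap (τ : List (List Bool) → ℤ) (e : Term → List Term) (X : List Term) :
    lin τ (X.flatMap e) = (X.map (fun t => lin τ (e t))).sum := by
  induction X with
  | nil => simp [lin]
  | cons t X ih => rw [List.flatMap_cons, lin_append, ih, List.map_cons, List.sum_cons]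

end FComplAux

open FComplAux in
theorem ThrReduces.compl {A B : List Bool → Bool} (h : ThrReduces A B) :
    ThrReduces A (fun x => !B x) := by
  obtain ⟨d, R, hR, hd, hA⟩ := h.typed
  have hR' : PolyF (fun x => (R x).flatMap (fun t => expand d t)) :=
    PolyF.flatMap hR (PolyF.comp (polyF_expand d) PolyF.id.snd)
  refine thrReduces_of_polyF d hR' ?_ ?_
  · intro x t ht
    obtain ⟨s, _, hs⟩ := List.mem_flatMap.mp ht
    exact length_expand hs
  · intro x
    rw [hA x]
    have hlin : lin (ind (cpl B)) ((R x).flatMap (fun t => expand d t)) = lin (ind B) (R x) := by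
      rw [lin_flatMap]
      unfold lin
      congr 1
      refine List.map_congr_left ?_
      intro t ht
      exact lin_expand B (hd x t ht)
    have e1 := acc_iff B (R x)
    have e2 := acc_iff (cpl B) ((R x).flatMap (fun t => expand d t))
    rw [hlin, ← e1] at e2
    exact (Bool.eq_iff_iff.mpr e2).symm

end Pool.Agent.SCS
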