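import Pool.Agent.SCS.Stmt

/-!
# Module FEasy: the easy direction

If P = NP then the set `{0}` (the word `[false]`) is complete: it is in NP (certificates are ignored: `exists_inNP` or directly), sparse, and a language `A` in P reduces to it by
`R x = if A x then [(true, [[false]])] else []` (`PolyF.ite`, `thrReduces_of_polyF`, `d = 1`).
-/

set_option autoImplicit false

namespace Pool.Agent.SCS

open Pool.Agent.PolyTime Pool.Agent.NegLim

/-- P is contained in NP -/
theorem inNP_of_inP {L : List Bool → Bool} (h : InP L) : InNP L := by
  have hL : PolyF L := inP_iff.1 h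
  have hV : PolyF (fun p : List Bool × List Bool => L p.1 && decide (p.2 = [])) :=
    PolyF.and (hL.comp (PolyF.fst PolyF.id)) (PolyF.beq (PolyF.snd PolyF.id) (PolyF.const []))
  obtain ⟨L', hL', hiff⟩ := exists_inNP hV (B := fun _ => 0) (PolyBd.const 0) (by
    intro a w hw
    simp only [Bool.and_eq_true, decide_eq_true_eq] at hw
    rw [hw.2]; simp)
  have e : L' = L := by
    funext x
    have := hiff x
    rw [enc_word] at this
    rw [Bool.eq_iff_iff, this]
    constructor
    · rintro ⟨w, hw⟩
      simp only [Bool.and_eq_true] at hw
      exact hw.1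
    · intro hx
      exact ⟨[], by simp [hx]⟩
  rw [← e]
  exact hL'

theorem easy (h : ∀ L, InNP L → InP L) :
    ∃ B : List Bool → Bool, InNP B ∧ Sparse B ∧ ∀ A, InNP A → ThrReduces A B := by
  refine ⟨fun x => decide (x = [false]), inNP_of_inP (inP_iff.2
    (PolyF.beq PolyF.id (PolyF.const [false]))), ⟨1, fun n => ?_⟩, fun A hA => ?_⟩
  · have hsub : {x : List Bool | x.length = n ∧ decide (x = [false]) = true} ⊆ {[false]} := by
      rintro x ⟨_, hx⟩
      simpa using hx
    have := Set.ncard_le_ncard hsub (Set.finite_singleton _)
    rw [Set.ncard_singleton] at this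
    exact this.trans (Nat.le_add_left 1 _)
  · have hP : PolyF A := inP_iff.1 (h A hA)
    have hR : PolyF (fun x => if A x = true then ([(true, [[false]])] : List Term) else []) :=
      PolyF.ite hP (PolyF.const _) (PolyF.const _)
    refine thrReduces_of_polyF 1 hR ?_ ?_
    · intro x t ht
      by_cases hx : A x = true
      · rw [if_pos hx, List.mem_singleton] at ht
        subst ht
        simp
      · rw [if_neg hx] at ht
        simp at ht
    · intro x
      by_cases hx : A x = true
      · rw [if_pos hx, hx]
        simp [acc]
      · rw [if_neg hx]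
        rw [Bool.not_eq_true] at hx
        rw [hx]
        simp [acc]

end Pool.Agent.SCS
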