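import Pool.Agent.SCS.Alg
import Pool.Agent.SCS.TTab

/-!
# Module PAlg2: operations on words in polynomial time

`parity`: `PolyF.foldl` (state `Bool × List Bool`, size bounded by `3 + |r|`...; `foldl_add` with `h = 2`).  `res`: `foldl`, the words `r` have length at most
`|f| + |w| + 1`.  `lev`: `PolyF.iter` on pairs `(i, l)` or on `l` only; all words in `lev Z i` have length `i` and there are at most `Z + 1` of them.
`ltB`: iterate the step removing the common first bit of both words `|x|` times on pairs of words, then compare the heads (`isEmpty`, `headD`); prove by induction that `ltB` is the result.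
`padW`, `unpadW`: `replicate`, `dropWhile`.
-/

set_option autoImplicit false

namespace Pool.Agent.SCS

open Pool.Agent.PolyTime Pool.Agent.NegLim

variable {α : Type} [Enc α]

namespace PAlg2Aux

theorem polyF_xorW {v w : α → List Bool} (hv : PolyF v) (hw : PolyF w) :
    PolyF (fun a => xorW (v a) (w a)) :=
  PolyF.map (l := fun a => (v a).zip (w a))
    (f := fun q : α × Bool × Bool => Bool.xor q.2.1 q.2.2) (PolyF.zip hv hw)
    (PolyF.xor (PolyF.fst (PolyF.snd PolyF.id)) (PolyF.snd (PolyF.snd PolyF.id)))

theorem polyF_resStep {f r : α → List Bool} {b : α → Bool} (hf : PolyF f) (hr : PolyF r)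
    (hb : PolyF b) : PolyF (fun a => resStep (f a) (r a) (b a)) := by
  have h1 : PolyF (fun a => (r a).tail ++ [b a]) :=
    PolyF.append (PolyF.tail hr) (PolyF.singleton hb)
  exact PolyF.ite (PolyF.headD hr false) (polyF_xorW h1 hf) h1

theorem length_resStep (f r : List Bool) (b : Bool) : (resStep f r b).length ≤ r.length + 1 := by
  unfold resStep xorW
  split_ifs
  · rw [List.length_map, List.length_zip, List.length_append, List.length_tail,
      List.length_singleton]
    omega
  · rw [List.length_append, List.length_tail, List.length_singleton]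
    omega

/-- one level from the previous one -/
def levStep (Z : ℕ) (l : List (List Bool)) : List (List Bool) :=
  (l.flatMap fun w => [false :: w, true :: w]).take Z

theorem lev_eq (Z : ℕ) : ∀ i, lev Z i = (levStep Z)^[i] [[]]
  | 0 => rfl
  | i + 1 => by
    rw [Function.iterate_succ_apply', ← lev_eq Z i]
    rfl

theorem mem_lev (Z : ℕ) : ∀ i, ∀ w ∈ lev Z i, w.length = i
  | 0, w, h => by
    rw [lev, List.mem_singleton] at h
    rw [h]
    rfl
  | i + 1, w, h => by
    rw [lev] at h
    have h1 := List.mem_of_mem_take h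
    rw [List.mem_flatMap] at h1
    obtain ⟨u, hu, hw⟩ := h1
    have h2 := mem_lev Z i u hu
    rw [List.mem_cons, List.mem_singleton] at hw
    rcases hw with rfl | rfl
    · rw [List.length_cons, h2]
    · rw [List.length_cons, h2]

theorem length_lev (Z : ℕ) : ∀ i, (lev Z i).length ≤ Z + 1
  | 0 => by
    rw [lev, List.length_singleton]
    omega
  | i + 1 => by
    rw [lev, List.length_take]
    omega

theorem sz_lev (Z i : ℕ) : sz (lev Z i) ≤ (Z + 1) * (2 * i + 1) :=
  (sz_le_mul (lev Z i) i (fun w hw => by rw [sz_word, mem_lev Z i w hw])).trans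
    (Nat.mul_le_mul_right _ (length_lev Z i))

/-- removing the common first bit -/
def cut (p : List Bool × List Bool) : List Bool × List Bool :=
  if (!p.1.isEmpty && !p.2.isEmpty && decide (p.1.headD false = p.2.headD false)) = true then
    (p.1.tail, p.2.tail) else p

/-- comparison of words without common first bit -/
def fin (p : List Bool × List Bool) : Bool :=
  if p.1.isEmpty = true then !p.2.isEmpty else
    (!p.2.isEmpty && p.2.headD false)

theorem cut_nil (t : List Bool) : cut ([], t) = ([], t) := by
  unfold cut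
  simp

theorem cut_nil' (s : List Bool) : cut (s, []) = (s, []) := by
  unfold cut
  simp

theorem cut_cons (a : Bool) (s t : List Bool) : cut (a :: s, a :: t) = (s, t) := by
  unfold cut
  simp

theorem cut_ne {a b : Bool} (h : a ≠ b) (s t : List Bool) :
    cut (a :: s, b :: t) = (a :: s, b :: t) := by
  unfold cut
  simp [h]

theorem ltB_eq : ∀ (s t : List Bool) (n : ℕ), s.length ≤ n → ltB s t = fin (cut^[n] (s, t))
  | [], t, n, _ => by
    rw [Function.iterate_fixed (cut_nil t)]
    cases t <;> rfl
  | a :: s, [], n, _ => by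
    rw [Function.iterate_fixed (cut_nil' (a :: s))]
    rfl
  | a :: s, b :: t, 0, h => by
    simp at h
  | a :: s, b :: t, n + 1, h => by
    by_cases hab : a = b
    · subst hab
      rw [Function.iterate_succ_apply, cut_cons, ← ltB_eq s t n (by
        rw [List.length_cons] at h
        omega)]
      simp [ltB]
    · rw [Function.iterate_fixed (cut_ne hab s t)]
      simp [ltB, hab, fin]

theorem sz_cut (p : List Bool × List Bool) : sz (cut p) ≤ sz p := by
  obtain ⟨s, t⟩ := p
  unfold cut
  split_ifs
  · rw [sz_pair, sz_pair, sz_word, sz_word, sz_word, sz_word, List.length_tail, List.length_tail]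
    dsimp only
    omega
  · exact le_rfl

theorem polyF_cut {p : α → List Bool × List Bool} (hp : PolyF p) : PolyF (fun a => cut (p a)) :=
  PolyF.ite
    (PolyF.and (PolyF.and (PolyF.not (PolyF.isEmpty (PolyF.fst hp)))
      (PolyF.not (PolyF.isEmpty (PolyF.snd hp))))
      (PolyF.beq (PolyF.headD (PolyF.fst hp) false) (PolyF.headD (PolyF.snd hp) false)))
    (PolyF.pair (PolyF.tail (PolyF.fst hp)) (PolyF.tail (PolyF.snd hp))) hp

theorem polyF_fin {p : α → List Bool × List Bool} (hp : PolyF p) : PolyF (fun a => fin (p a)) :=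
  PolyF.ite (PolyF.isEmpty (PolyF.fst hp)) (PolyF.not (PolyF.isEmpty (PolyF.snd hp)))
    (PolyF.and (PolyF.not (PolyF.isEmpty (PolyF.snd hp))) (PolyF.headD (PolyF.snd hp) false))

end PAlg2Aux

open PAlg2Aux

theorem polyF_parity {v r : α → List Bool} (hv : PolyF v) (hr : PolyF r) :
    PolyF (fun a => parity (v a) (r a)) := by
  refine PolyF.fst (f := fun a => (v a).foldl (fun (p : Bool × List Bool) b =>
    (Bool.xor p.1 (b && p.2.headD false), p.2.tail)) (false, r a)) ?_
  refine PolyF.foldl_add (l := v) (s := fun a => (false, r a))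
    (f := fun q : α × (Bool × List Bool) × Bool =>
      (Bool.xor q.2.1.1 (q.2.2 && q.2.1.2.headD false), q.2.1.2.tail))
    (h := fun _ => 0) hv (PolyF.pair (PolyF.const false) hr) ?_ (PolyBd.const 0) ?_
  · have h1 : PolyF (fun q : α × (Bool × List Bool) × Bool => q.2.1) :=
      PolyF.fst (PolyF.snd PolyF.id)
    exact PolyF.pair (PolyF.xor (PolyF.fst h1) (PolyF.and (PolyF.snd (PolyF.snd PolyF.id))
      (PolyF.headD (PolyF.snd h1) false))) (PolyF.tail (PolyF.snd h1))
  · rintro a ⟨c, x⟩ b _
    rw [sz_pair, sz_pair, sz_bool, sz_bool, sz_word, sz_word, List.length_tail]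
    dsimp only
    omega

theorem polyF_res {f w : α → List Bool} (hf : PolyF f) (hw : PolyF w) :
    PolyF (fun a => res (f a) (w a)) := by
  refine PolyF.foldl_add (l := w) (s := fun a => List.replicate (f a).length false)
    (f := fun q : α × List Bool × Bool => resStep (f q.1) q.2.1 q.2.2)
    (h := fun _ => 1) hw (PolyF.replicate (PolyF.length hf) (PolyF.const false)) ?_
    (PolyBd.const 1) ?_
  · exact polyF_resStep (PolyF.comp hf (PolyF.fst PolyF.id)) (PolyF.fst (PolyF.snd PolyF.id))
      (PolyF.snd (PolyF.snd PolyF.id))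
  · intro a x b _
    rw [sz_word, sz_word]
    exact length_resStep _ _ _

theorem polyF_lev {Z i : α → ℕ} (hZ : PolyF Z) (hi : PolyF i) :
    PolyF (fun a => lev (Z a) (i a)) := by
  refine PolyF.congr (f := fun a => (fun l => levStep (Z a) l)^[i a] [[]]) ?_
    (fun a => (lev_eq (Z a) (i a)).symm)
  refine PolyF.iter (n := i) (s := fun _ => [[]])
    (f := fun q : α × List (List Bool) => levStep (Z q.1) q.2)
    (B := fun a => (Z a + 1) * (2 * i a + 1)) hi (PolyF.const [[]]) ?_ ?_ ?_
  · refine PolyF.take (PolyF.comp hZ (PolyF.fst PolyF.id)) ?_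
    refine PolyF.flatMap (l := fun q : α × List (List Bool) => q.2)
      (f := fun r : (α × List (List Bool)) × List Bool => [false :: r.2, true :: r.2])
      (PolyF.snd PolyF.id) ?_
    have h1 : PolyF (fun r : (α × List (List Bool)) × List Bool => r.2) := PolyF.snd PolyF.id
    exact PolyF.cons (PolyF.cons (PolyF.const false) h1)
      (PolyF.singleton (PolyF.cons (PolyF.const true) h1))
  · exact PolyBd.mul (PolyBd.add (PolyF.natBd hZ) (PolyBd.const 1))
      (PolyBd.add (PolyBd.mul (PolyBd.const 2) (PolyF.natBd hi)) (PolyBd.const 1))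
  · intro a k hk
    have h1 := sz_lev (Z a) k
    rw [lev_eq] at h1
    refine h1.trans (Nat.mul_le_mul_left _ ?_)
    omega

theorem polyF_padW {L : α → ℕ} {z : α → List Bool} (hL : PolyF L) (hz : PolyF z) :
    PolyF (fun a => padW (L a) (z a)) :=
  PolyF.append (PolyF.replicate (PolyF.sub (PolyF.pred hL) (PolyF.length hz)) (PolyF.const false))
    (PolyF.cons (PolyF.const true) hz)

theorem polyF_unpadW {u : α → List Bool} (hu : PolyF u) : PolyF (fun a => unpadW (u a)) :=
  PolyF.tail (PolyF.dropWhile hu (PolyF.not PolyF.id))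

theorem polyF_ltB {x y : α → List Bool} (hx : PolyF x) (hy : PolyF y) :
    PolyF (fun a => ltB (x a) (y a)) := by
  refine PolyF.congr (f := fun a => fin ((fun p => cut p)^[(x a).length] (x a, y a))) ?_
    (fun a => (ltB_eq (x a) (y a) _ le_rfl).symm)
  refine polyF_fin ?_
  exact PolyF.iter_add (n := fun a => (x a).length) (s := fun a => (x a, y a))
    (f := fun q : α × List Bool × List Bool => cut q.2) (h := fun _ => 0) (PolyF.length hx)
    (PolyF.pair hx hy) (polyF_cut (PolyF.snd PolyF.id)) (PolyBd.const 0)
    (fun a p => sz_cut p)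

end Pool.Agent.SCS
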