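import Pool.Agent.SCS.PAlg1
import Pool.Agent.SCS.PAlg2

/-!
# Module PAlg3: the perceptron and the list of candidates in polynomial time

`pgood`: `PolyF.iter_add` (`pstep` appends at most one element of `E`, `sz_append`, `sz_le_of_mem`), `PolyF.findD`, `PolyF.all`.
`cand`: `PolyF.iter` for `candStep` on `ℕ × List (List Bool)`: after `k` steps the first component is `k`, the list has at most `M + 1` elements, all of length `k`
(`sz_le_mul`).  The functions `K M Z y : α → ℕ` are `PolyF`.
-/

set_option autoImplicit false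

namespace Pool.Agent.SCS

open Pool.Agent.PolyTime Pool.Agent.NegLim

variable {α : Type} [Enc α]

namespace PAlg3Aux

theorem polyF_pstep {E : α → List (List Term)} (hE : PolyF E) :
    PolyF (fun p : α × List Term => pstep (E p.1) p.2) := by
  unfold pstep
  refine PolyF.append PolyF.id.snd ?_
  exact PolyF.findD (l := fun p : α × List Term => E p.1)
    (p := fun q : (α × List Term) × List Term => !ipPos q.1.2 q.2)
    (d := fun _ => ([] : List Term)) (hE.comp PolyF.id.fst)
    (PolyF.not (polyF_ipPos PolyF.id.fst.snd PolyF.id.snd)) (PolyF.const [])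

theorem sz_pstep (E : List (List Term)) (S : List Term) : sz (pstep E S) ≤ sz S + sz E := by
  unfold pstep
  rw [sz_append]
  apply Nat.add_le_add_left
  cases h : E.find? fun X => !ipPos S X with
  | none =>
    rw [Option.getD_none, sz_nil]
    exact Nat.zero_le _
  | some X =>
    rw [Option.getD_some]
    exact sz_le_of_mem (List.mem_of_find?_eq_some h)

theorem candStep_inv {R : α × ℕ × List Bool × List Bool → List Term} (K M Z y : ℕ) (a : α)
    (k : ℕ) : ((candStep R K M Z y a)^[k] (0, [[]])).1 = k ∧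
      ((candStep R K M Z y a)^[k] (0, [[]])).2.length ≤ M + 1 ∧
      ∀ w ∈ ((candStep R K M Z y a)^[k] (0, [[]])).2, w.length = k := by
  induction k with
  | zero => simp
  | succ k ih =>
    obtain ⟨h1, _, h3⟩ := ih
    rw [Function.iterate_succ_apply']
    refine ⟨?_, ?_, ?_⟩
    · change ((candStep R K M Z y a)^[k] (0, [[]])).1 + 1 = k + 1
      rw [h1]
    · refine le_trans (List.length_take_le _ _) ?_
      exact Nat.le_succ M
    · intro w hw
      have hw1 := List.mem_of_mem_take hw
      have hw2 := (List.mem_filter.1 hw1).1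
      obtain ⟨u, hu, hw3⟩ := List.mem_flatMap.1 hw2
      have hu' := h3 u hu
      simp only [List.mem_cons, List.not_mem_nil, or_false] at hw3
      rcases hw3 with rfl | rfl <;> simp [hu']

end PAlg3Aux

open PAlg3Aux

theorem polyF_pgood {E : α → List (List Term)} {K : α → ℕ} (hE : PolyF E) (hK : PolyF K) :
    PolyF (fun a => pgood (E a) (K a)) := by
  have hit : PolyF (fun a => (pstep (E a))^[K a] []) :=
    PolyF.iter_add (n := K) (s := fun _ => ([] : List Term))
      (f := fun p : α × List Term => pstep (E p.1) p.2) hK (PolyF.const [])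
      (polyF_pstep hE) (h := fun a => sz (E a)) hE.szBd (fun a x => sz_pstep (E a) x)
  exact PolyF.all (l := E) (p := fun q : α × List Term =>
    ipPos ((pstep (E q.1))^[K q.1] []) q.2) hE
    (polyF_ipPos (hit.comp PolyF.id.fst) PolyF.id.snd)

theorem polyF_goodW {R : α × ℕ × List Bool × List Bool → List Term} (hR : PolyF R)
    {K Z y : α → ℕ} (hK : PolyF K) (hZ : PolyF Z) (hy : PolyF y) :
    PolyF (fun p : α × ℕ × List Bool => goodW R (K p.1) (Z p.1) (y p.1) p.1 p.2.1 p.2.2) := by
  have hl : PolyF (fun p : α × ℕ × List Bool =>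
      (List.range (y p.1 + 1)).flatMap (lev (Z p.1))) :=
    PolyF.flatMap (l := fun p : α × ℕ × List Bool => List.range (y p.1 + 1))
      (f := fun q : (α × ℕ × List Bool) × ℕ => lev (Z q.1.1) q.2)
      (PolyF.range (hy.comp PolyF.id.fst).succ)
      (polyF_lev (hZ.comp PolyF.id.fst.fst) PolyF.id.snd)
  have hex : PolyF (fun q : (α × ℕ × List Bool) × List Bool =>
      examples R (Z q.1.1) q.1.1 q.1.2.1 q.2 (res q.2 q.1.2.2)) := by
    refine PolyF.map (l := fun q : (α × ℕ × List Bool) × List Bool => lev (Z q.1.1) q.2.length)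
      (f := fun r : ((α × ℕ × List Bool) × List Bool) × List Bool =>
        signed (parity r.2 (res r.1.2 r.1.1.2.2)) (dblT (R (r.1.1.1, r.1.1.2.1, r.1.2, r.2))))
      (polyF_lev (hZ.comp PolyF.id.fst.fst) PolyF.id.snd.length) ?_
    refine polyF_signed (polyF_parity PolyF.id.snd
      (polyF_res PolyF.id.fst.snd PolyF.id.fst.fst.snd.snd)) (polyF_dblT ?_)
    exact hR.comp (f := fun r : ((α × ℕ × List Bool) × List Bool) × List Bool =>
      (r.1.1.1, r.1.1.2.1, r.1.2, r.2)) (PolyF.pair PolyF.id.fst.fst.fst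
      (PolyF.pair PolyF.id.fst.fst.snd.fst (PolyF.pair PolyF.id.fst.snd PolyF.id.snd)))
  exact PolyF.all (l := fun p : α × ℕ × List Bool =>
      (List.range (y p.1 + 1)).flatMap (lev (Z p.1)))
    (p := fun q : (α × ℕ × List Bool) × List Bool =>
      pgood (examples R (Z q.1.1) q.1.1 q.1.2.1 q.2 (res q.2 q.1.2.2)) (K q.1.1)) hl
    (polyF_pgood hex (hK.comp PolyF.id.fst.fst))

theorem polyF_cand {R : α × ℕ × List Bool × List Bool → List Term} (hR : PolyF R)
    {K M Z y ℓ : α → ℕ} (hK : PolyF K) (hM : PolyF M) (hZ : PolyF Z) (hy : PolyF y)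
    (hℓ : PolyF ℓ) :
    PolyF (fun a => cand R (K a) (M a) (Z a) (y a) a (ℓ a)) := by
  have hfl : PolyF (fun p : α × ℕ × List (List Bool) =>
      p.2.2.flatMap fun w => [w ++ [false], w ++ [true]]) :=
    PolyF.flatMap (l := fun p : α × ℕ × List (List Bool) => p.2.2)
      (f := fun q : (α × ℕ × List (List Bool)) × List Bool => [q.2 ++ [false], q.2 ++ [true]])
      PolyF.id.snd.snd
      (PolyF.cons (PolyF.append PolyF.id.snd (PolyF.const [false]))
        (PolyF.singleton (PolyF.append PolyF.id.snd (PolyF.const [true]))))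
  have hgood : PolyF (fun q : (α × ℕ × List (List Bool)) × List Bool =>
      goodW R (K q.1.1) (Z q.1.1) (y q.1.1) q.1.1 (q.1.2.1 + 1) q.2) :=
    (polyF_goodW hR hK hZ hy).comp
      (f := fun q : (α × ℕ × List (List Bool)) × List Bool => (q.1.1, q.1.2.1 + 1, q.2))
      (PolyF.pair PolyF.id.fst.fst (PolyF.pair PolyF.id.fst.snd.fst.succ PolyF.id.snd))
  have hstep : PolyF (fun p : α × ℕ × List (List Bool) =>
      candStep R (K p.1) (M p.1) (Z p.1) (y p.1) p.1 p.2) := by
    unfold candStep
    refine PolyF.pair PolyF.id.snd.fst.succ (PolyF.take (hM.comp PolyF.id.fst) ?_)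
    exact PolyF.filter (l := fun p : α × ℕ × List (List Bool) =>
      p.2.2.flatMap fun w => [w ++ [false], w ++ [true]])
      (p := fun q : (α × ℕ × List (List Bool)) × List Bool =>
      goodW R (K q.1.1) (Z q.1.1) (y q.1.1) q.1.1 (q.1.2.1 + 1) q.2) hfl hgood
  have hit := PolyF.iter (n := ℓ) (s := fun _ : α => ((0, [[]]) : ℕ × List (List Bool)))
    (f := fun p : α × ℕ × List (List Bool) =>
      candStep R (K p.1) (M p.1) (Z p.1) (y p.1) p.1 p.2) hℓ (PolyF.const _) hstep
    (B := fun a => (ℓ a + ℓ a + 1) + (M a + 1) * (ℓ a + ℓ a + 1))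
    (((hℓ.natBd.add hℓ.natBd).add (PolyBd.const 1)).add
      ((hM.natBd.add (PolyBd.const 1)).mul ((hℓ.natBd.add hℓ.natBd).add (PolyBd.const 1)))) (by
      intro a k hk
      obtain ⟨h1, h2, h3⟩ := candStep_inv (R := R) (K a) (M a) (Z a) (y a) a k
      have hs := sz_pair ((candStep R (K a) (M a) (Z a) (y a) a)^[k] (0, [[]])).1
        ((candStep R (K a) (M a) (Z a) (y a) a)^[k] (0, [[]])).2
      rw [h1, sz_nat] at hs
      have hb := sz_le_mul ((candStep R (K a) (M a) (Z a) (y a) a)^[k] (0, [[]])).2 k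
        (fun w hw => by rw [sz_word, h3 w hw])
      have hb2 : sz ((candStep R (K a) (M a) (Z a) (y a) a)^[k] (0, [[]])).2 ≤
          (M a + 1) * (ℓ a + ℓ a + 1) :=
        hb.trans (Nat.mul_le_mul h2 (by omega))
      have he : ((candStep R (K a) (M a) (Z a) (y a) a)^[k] (0, [[]])) =
          (k, ((candStep R (K a) (M a) (Z a) (y a) a)^[k] (0, [[]])).2) :=
        Prod.ext h1 rfl
      change sz ((candStep R (K a) (M a) (Z a) (y a) a)^[k] (0, [[]])) ≤ _
      rw [he, hs]
      omega)
  exact hit.snd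

end Pool.Agent.SCS
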