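import Pool.Agent.SCS.Classes
import Pool.Agent.SCS.Alg

/-!
# Module Stmt: sparse sets and threshold reductions

`codeTerms_eq`: both codes are the same (`codeWords = codeL enc` on lists of words, `enc t = pairWord [t.1] (codeWords t.2)`).
`ThrReduces.typed`: `polyF_of_tm`, `codeTerms_eq`; the condition is `acc B (R x)` by definition.  `thrReduces_of_polyF`: the converse (`PC.polyTime` for the word function; from
`TM2ComputableInPolyTime id id (enc ∘ R)` make `TM2ComputableInPolyTime id codeTerms R`).
`Sparse.bound`: sum over `n ≤ q`.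
-/

set_option autoImplicit false

namespace Pool.Agent.SCS

open Pool.Agent.PolyTime Pool.Agent.NegLim Turing



namespace StmtAux

theorem codeWords_map {α : Type} (f : α → List Bool) (X : List α) :
    codeWords (X.map f) = codeL f X := by
  induction X with
  | nil => rfl
  | cons a X ih =>
    show pairWord (f a) (codeWords (X.map f)) = pairWord (f a) (codeL f X)
    rw [ih]

theorem codeWords_eq (l : List (List Bool)) : codeWords l = enc l := by
  have h := codeWords_map (fun x : List Bool => x) l
  rw [List.map_id'] at h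
  rw [h]
  rfl

theorem ncard_le {B : List Bool → Bool} {k : ℕ}
    (h : ∀ n, {x : List Bool | x.length = n ∧ B x = true}.ncard ≤ n ^ k + k) (q : ℕ) :
    {x : List Bool | x.length ≤ q ∧ B x = true}.ncard ≤ (q + 1) * (q ^ k + k) := by
  induction q with
  | zero =>
    have h1 : {x : List Bool | x.length ≤ 0 ∧ B x = true} =
        {x : List Bool | x.length = 0 ∧ B x = true} := by
      ext x
      simp only [Set.mem_setOf_eq, Nat.le_zero]
    rw [h1, zero_add, one_mul]
    exact h 0
  | succ q ih =>
    have h1 : {x : List Bool | x.length ≤ q + 1 ∧ B x = true} =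
        {x : List Bool | x.length ≤ q ∧ B x = true} ∪
          {x : List Bool | x.length = q + 1 ∧ B x = true} := by
      ext x
      simp only [Set.mem_setOf_eq, Set.mem_union]
      constructor
      · rintro ⟨h2, h3⟩
        rcases Nat.lt_or_ge q x.length with h4 | h4
        · exact Or.inr ⟨by omega, h3⟩
        · exact Or.inl ⟨h4, h3⟩
      · rintro (⟨h2, h3⟩ | ⟨h2, h3⟩)
        · exact ⟨by omega, h3⟩
        · exact ⟨by omega, h3⟩
    rw [h1]
    refine (Set.ncard_union_le _ _).trans ?_
    have h5 := h (q + 1)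
    have h6 : (q + 1) * (q ^ k + k) ≤ (q + 1) * ((q + 1) ^ k + k) :=
      Nat.mul_le_mul_left _ (Nat.add_le_add_right (Nat.pow_le_pow_left (Nat.le_succ q) k) k)
    calc _ ≤ (q + 1) * (q ^ k + k) + ((q + 1) ^ k + k) := Nat.add_le_add ih h5
      _ ≤ (q + 1) * ((q + 1) ^ k + k) + ((q + 1) ^ k + k) := Nat.add_le_add_right h6 _
      _ = (q + 1 + 1) * ((q + 1) ^ k + k) := by ring

end StmtAux

theorem codeTerms_eq (X : List Term) : codeTerms X = enc X := by
  unfold codeTerms
  rw [StmtAux.codeWords_map]
  have h : (fun t : Term => pairWord [t.1] (codeWords t.2)) = enc := by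
    funext t
    rw [StmtAux.codeWords_eq]
    rfl
  show codeL (fun t : Term => pairWord [t.1] (codeWords t.2)) X = _
  rw [h]
  rfl

theorem ThrReduces.typed {A B : List Bool → Bool} (h : ThrReduces A B) :
    ∃ (d : ℕ) (R : List Bool → List Term), PolyF R ∧ (∀ x, ∀ t ∈ R x, t.2.length ≤ d) ∧
      ∀ x, A x = acc B (R x) := by
  obtain ⟨d, R, htm, hd, hA⟩ := h
  refine ⟨d, R, ?_, hd, ?_⟩
  · have he : (codeTerms : List Term → List Bool) = enc := funext codeTerms_eq
    rw [he] at htm
    exact polyF_of_tm htm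
  · intro x
    have h1 := hA x
    unfold acc
    rw [← Bool.coe_iff_coe, h1, decide_eq_true_iff]

theorem thrReduces_of_polyF {A B : List Bool → Bool} (d : ℕ) {R : List Bool → List Term}
    (hR : PolyF R) (hd : ∀ x, ∀ t ∈ R x, t.2.length ≤ d) (h : ∀ x, A x = acc B (R x)) :
    ThrReduces A B := by
  obtain ⟨g, hg, hgR⟩ := hR
  obtain ⟨M⟩ := hg.polyTime
  have hgR' : ∀ a : List Bool, g a = codeTerms (R a) := fun a => by
    rw [codeTerms_eq]
    exact hgR a
  refine ⟨d, R, ⟨⟨M.toTM2ComputableAux, M.time, fun a => ?_⟩⟩, hd, ?_⟩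
  · have h1 := M.outputsFun a
    rw [show (id (g a) : List Bool) = codeTerms (R a) from hgR' a] at h1
    exact h1
  · intro x
    rw [h x]
    unfold acc
    rw [decide_eq_true_iff]

theorem Sparse.bound {B : List Bool → Bool} (hB : Sparse B) :
    ∃ P : Polynomial ℕ, ∀ q, {x : List Bool | x.length ≤ q ∧ B x = true}.ncard ≤ P.eval q := by
  obtain ⟨k, hk⟩ := hB
  refine ⟨(Polynomial.X + 1) * (Polynomial.X ^ k + Polynomial.C k), fun q => ?_⟩
  have h1 := StmtAux.ncard_le hk q
  simpa using h1

end Pool.Agent.SCS
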