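import Pool.Agent.SCS.MAsm
import Pool.Agent.SCS.PAlg3
import Pool.Agent.SCS.Stmt

/-!
# Module LemA: candidates for a word known by its parities

Choice of the parameters.  `P₀`: `(R p)` has size `≤ P₀.eval (sz p)` (`PolyF.szBd`), so at most that many terms, all words of it have at most this length (`length_le_sz`, `sz_le_of_mem`
three times; `sz x = x.length`).  `Pℓ`: `ℓ a ≤ Pℓ.eval (sz a)`.  For a constant `c` put `y = sz a + c`.  If `k ≤ ℓ a`, `|f|, |v| ≤ y` then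
`sz (a, k, f, v) = 2 sz a + 1 + (2 k + 1 + (2 |f| + 1 + |v|)) ≤ Q₁.eval y` for a polynomial `Q₁` not depending on `c` (monotonicity of the evaluation of polynomials over `ℕ`).
`t = P₀.eval (Q₁.eval y)`, `r = 2 t + 1`, `s = ` the bound of `Sparse.bound` at `t`, `D = (s + 1) ^ d` (`sum_ind_le` with `q = t`), `K = r^2 D`, `M = r^4 K`, `Z = 2 (Pℓ.eval y) (M+1)^2`: all are
values at `y` of fixed polynomials (`Polynomial.comp`); `Z = Q.eval y`.  Choose `c` with `Q.eval y ≤ 2 ^ y` for all `y ≥ c`.  `Cand a = cand R K M Z y a (ℓ a)`: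
`polyF_cand`, `PolyF.evalPoly`, `PolyF.size`, `PolyF.add`.  `mem_cand`.
-/

set_option autoImplicit false

namespace Pool.Agent.SCS

variable {α : Type} [Enc α]

namespace LemAAux

theorem exists_mul_le (Q : Polynomial ℕ) :
    ∀ C : ℕ, ∃ c : ℕ, ∀ y ≥ c, C * Q.eval y ≤ 2 ^ y := by
  induction Q using Polynomial.induction_on' with
  | add p q hp hq =>
    intro C
    obtain ⟨c₁, h₁⟩ := hp (2 * C)
    obtain ⟨c₂, h₂⟩ := hq (2 * C)
    refine ⟨max c₁ c₂, fun y hy => ?_⟩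
    have a := h₁ y (le_trans (le_max_left _ _) hy)
    have b := h₂ y (le_trans (le_max_right _ _) hy)
    rw [Polynomial.eval_add]
    nlinarith
  | monomial n a =>
    intro C
    have h := tendsto_pow_const_div_const_pow_of_one_lt n (one_lt_two : (1 : ℝ) < 2)
    have hpos : (0 : ℝ) < 1 / (((C * a : ℕ) : ℝ) + 1) := by positivity
    have h2 : ∀ᶠ y : ℕ in Filter.atTop, (y : ℝ) ^ n / 2 ^ y < 1 / (((C * a : ℕ) : ℝ) + 1) :=
      h.eventually_lt_const hpos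
    obtain ⟨c, hc⟩ := Filter.eventually_atTop.1 h2
    refine ⟨c, fun y hy => ?_⟩
    have h3 := hc y hy
    rw [div_lt_div_iff₀ (by positivity) (by positivity), one_mul] at h3
    rw [Polynomial.eval_monomial]
    have h4 : (((C * a : ℕ) : ℝ)) * (y : ℝ) ^ n ≤ 2 ^ y := by
      have h5 : (0 : ℝ) ≤ (y : ℝ) ^ n := by positivity
      nlinarith
    have h6 : C * a * y ^ n ≤ 2 ^ y := by exact_mod_cast h4
    calc C * (a * y ^ n) = C * a * y ^ n := by ring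
      _ ≤ 2 ^ y := h6

theorem eval_mono (P : Polynomial ℕ) {m n : ℕ} (h : m ≤ n) : P.eval m ≤ P.eval n := by
  rw [Polynomial.eval_eq_sum_range, Polynomial.eval_eq_sum_range]
  exact Finset.sum_le_sum fun i _ => Nat.mul_le_mul_left _ (Nat.pow_le_pow_left h i)

end LemAAux

/-- a polynomial is eventually smaller than `2 ^ y` -/
theorem exists_le_two_pow (Q : Polynomial ℕ) : ∃ c : ℕ, ∀ y ≥ c, Q.eval y ≤ 2 ^ y := by
  obtain ⟨c, hc⟩ := LemAAux.exists_mul_le Q 1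
  exact ⟨c, fun y hy => by simpa using hc y hy⟩

theorem lemmaA (B : List Bool → Bool) (hB : Sparse B) (d : ℕ)
    (R : α × ℕ × List Bool × List Bool → List Term) (hR : PolyF R)
    (hd : ∀ p, ∀ t ∈ R p, t.2.length ≤ d) (ℓ : α → ℕ) (hℓ : PolyF ℓ) :
    ∃ Cand : α → List (List Bool), PolyF Cand ∧ ∀ (a : α) (W : List Bool), W.length = ℓ a →
      (∀ k ≤ ℓ a, ∀ f v : List Bool, v.length = f.length →
        (acc B (R (a, k, f, v)) = true ↔ parity v (res f (W.take k)) = true)) →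
      W ∈ Cand a := by
  obtain ⟨Ps, hPs⟩ := hB.bound
  obtain ⟨P₀, hP₀⟩ := hR.szBd
  obtain ⟨Pℓ, hPℓ⟩ := hℓ.natBd
  obtain ⟨Q₁, hQ₁⟩ : ∃ Q₁ : Polynomial ℕ, ∀ y, Q₁.eval y =
      2 * y + 1 + (2 * Pℓ.eval y + 1 + (2 * y + 1 + y)) :=
    ⟨2 * Polynomial.X + 1 + (2 * Pℓ + 1 + (2 * Polynomial.X + 1 + Polynomial.X)), fun y => by
      simp⟩
  obtain ⟨T, hT⟩ : ∃ T : Polynomial ℕ, ∀ y, T.eval y = P₀.eval (Q₁.eval y) :=
    ⟨P₀.comp Q₁, fun y => Polynomial.eval_comp⟩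
  obtain ⟨r, hr⟩ : ∃ r : Polynomial ℕ, ∀ y, r.eval y = 2 * T.eval y + 1 :=
    ⟨2 * T + 1, fun y => by simp⟩
  obtain ⟨D, hD⟩ : ∃ D : Polynomial ℕ, ∀ y, D.eval y = (Ps.eval (T.eval y) + 1) ^ d :=
    ⟨(Ps.comp T + 1) ^ d, fun y => by simp [Polynomial.eval_comp]⟩
  obtain ⟨K, hK⟩ : ∃ K : Polynomial ℕ, ∀ y, K.eval y = (r.eval y) ^ 2 * D.eval y :=
    ⟨r ^ 2 * D, fun y => by simp⟩
  obtain ⟨M, hM⟩ : ∃ M : Polynomial ℕ, ∀ y, M.eval y = (r.eval y) ^ 4 * K.eval y :=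
    ⟨r ^ 4 * K, fun y => by simp⟩
  obtain ⟨Z, hZ⟩ : ∃ Z : Polynomial ℕ, ∀ y, Z.eval y = 2 * Pℓ.eval y * (M.eval y + 1) ^ 2 :=
    ⟨2 * Pℓ * (M + 1) ^ 2, fun y => by simp⟩
  obtain ⟨c, hc⟩ := exists_le_two_pow Z
  have hy : PolyF (fun a : α => sz a + c) := PolyF.add (PolyF.size PolyF.id) (PolyF.const c)
  refine ⟨fun a => cand R (K.eval (sz a + c)) (M.eval (sz a + c)) (Z.eval (sz a + c)) (sz a + c)
    a (ℓ a), polyF_cand hR (hy.evalPoly K) (hy.evalPoly M) (hy.evalPoly Z) hy hℓ, ?_⟩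
  intro a W hW hacc
  beta_reduce
  have hsy : sz a ≤ sz a + c := Nat.le_add_right _ _
  have hcy : c ≤ sz a + c := Nat.le_add_left _ _
  generalize sz a + c = y at hsy hcy ⊢
  have hℓy : ℓ a ≤ Pℓ.eval y := (hPℓ a).trans (LemAAux.eval_mono Pℓ hsy)
  have hsz : ∀ k ≤ ℓ a, ∀ f v : List Bool, f.length ≤ y → v.length ≤ y →
      sz (R (a, k, f, v)) ≤ T.eval y := by
    intro k hk f v hf hv
    refine (hP₀ _).trans ?_
    rw [hT]
    apply LemAAux.eval_mono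
    rw [hQ₁, sz_pair, sz_pair, sz_pair, sz_nat, sz_word, sz_word]
    omega
  refine mem_cand (r := r.eval y) (D := D.eval y) (B := B) ?_ ?_ ?_ ?_ ?_ (hc y hcy) ?_ hW
  · intro k hk f v hf hv
    have h1 := hsz k hk f v hf hv
    have h2 := length_le_sz (R (a, k, f, v))
    rw [hr]
    omega
  · intro F hF
    rw [hD]
    refine sum_ind_le B (Ps.eval (T.eval y)) (T.eval y) d (hPs _) F ?_
    intro l hl
    rcases hF l hl with rfl | ⟨k, hk, f, v, hf, hv, hl⟩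
    · simp
    · obtain ⟨t, ht, rfl⟩ := mem_lists.1 hl
      refine ⟨hd _ t ht, fun x hx => ?_⟩
      have h1 := hsz k hk f v hf hv
      have h2 : sz t ≤ sz (R (a, k, f, v)) := sz_le_of_mem ht
      have h3 : sz t.2 ≤ sz t := by
        obtain ⟨t1, t2⟩ := t
        rw [sz_pair]
        exact Nat.le_add_left _ _
      have h4 : sz x ≤ sz t.2 := sz_le_of_mem hx
      rw [sz_word] at h4
      exact h4.trans (h3.trans (h2.trans h1))
  · exact (hK y).ge
  · exact (hM y).ge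
  · rw [hZ]
    exact Nat.mul_le_mul_right _ (Nat.mul_le_mul_left _ hℓy)
  · intro k hk f v hfv _
    exact hacc k hk f v hfv

end Pool.Agent.SCS
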