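import Pool.Agent.SCS.FTest
import Pool.Agent.SCS.LemA

/-!
# Module FList: a polynomial list of candidates for the set of the short words of `B`

`PB` from `Sparse.bound`; `S n = PB.eval n`; a list `l` of at most `S n` words of length `≤ n` has `sz l ≤ S n * (2 n + 1)` (`sz_le_mul`), `ℓ n = S n * (2 n + 1) + 1`
(`PolyF.evalPoly`, ...).  `T` from `exists_test`, `R` from `ThrReduces.typed` for `T`; `lemmaA` for `α = ℕ × ℕ`, the function `p ↦ R (enc p)` (`PolyF` since `enc : α → List Bool` is `PolyF`:
by definition, `polyF_word`, the word function is the identity) and `ℓ (n, c) = ℓ n`.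
`Y n = (List.range (S n + 1)).flatMap fun c => (Cand (n, c)).map unpadW`.
For `l` = the increasing list of the words of `B` of length `≤ n` (`exists_sorted`, the set is finite), `c = l.length ≤ S n`, `W = padW (ℓ n) (enc l)`: the hypothesis of `lemmaA`:
`acc B (R (enc ((n, c), k, f, v))) = T (...)` and by `exists_test` and uniqueness (a strictly increasing list of `c` words of `B` of length `≤ n` is `l`: same number of elements;
`sorted_unique`) this is `parity v (res f (W.take k))`.  `unpadW W = enc l`.
-/

set_option autoImplicit false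

namespace Pool.Agent.SCS

open Pool.Agent.PolyTime Pool.Agent.NegLim

namespace FListAux

theorem nodup_of_inc {l : List (List Bool)} (h : l.Pairwise (fun x y => ltB x y = true)) :
    l.Nodup := by
  refine List.Pairwise.imp ?_ h
  intro x y hxy hxy'
  subst hxy'
  rw [ltB_irrefl] at hxy
  exact absurd hxy (by decide)

theorem finite_short (n : ℕ) (B : List Bool → Bool) :
    {x : List Bool | x.length ≤ n ∧ B x = true}.Finite :=
  (List.finite_length_le Bool n).subset fun _ hx => hx.1

end FListAux

open FListAux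

theorem exists_oracles {B : List Bool → Bool} (hB : InNP B) (hS : Sparse B)
    (hred : ∀ A, InNP A → ThrReduces A B) :
    ∃ Y : ℕ → List (List Bool), PolyF Y ∧ ∀ n, ∃ l : List (List Bool),
      (∀ x, x ∈ l ↔ x.length ≤ n ∧ B x = true) ∧ enc l ∈ Y n := by
  obtain ⟨PB, hPB⟩ := hS.bound
  have hSn : PolyF (fun n : ℕ => PB.eval n) := PolyF.id.evalPoly PB
  have hℓ : PolyF (fun n : ℕ => PB.eval n * (2 * n + 1) + 1) :=
    (hSn.mul (((PolyF.const 2).mul PolyF.id).succ)).succ
  obtain ⟨T, hT, hTs⟩ := exists_test hB hℓ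
  obtain ⟨d, R, hR, hRd, hRs⟩ := (hred T hT).typed
  obtain ⟨Cand, hCand, hC⟩ := lemmaA (α := ℕ × ℕ) B hS d (fun p => R (enc p))
    (hR.comp PolyF.id.encF) (fun p => hRd (enc p))
    (fun a => PB.eval a.1 * (2 * a.1 + 1) + 1) (hℓ.comp PolyF.id.fst)
  refine ⟨fun n => (List.range (PB.eval n + 1)).flatMap fun c => (Cand (n, c)).map unpadW, ?_, ?_⟩
  · refine PolyF.flatMap (f := fun p : ℕ × ℕ => (Cand p).map unpadW) hSn.succ.range ?_
    exact PolyF.map (f := fun q : (ℕ × ℕ) × List Bool => unpadW q.2) hCand
      (polyF_unpadW PolyF.id.snd)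
  intro n
  obtain ⟨l, hl1, hl2, hl3⟩ := exists_sorted (finite_short n B).toFinset
  have hmem : ∀ x, x ∈ l ↔ x.length ≤ n ∧ B x = true := by
    intro x
    rw [← List.mem_toFinset, hl2, Set.Finite.mem_toFinset]
    rfl
  refine ⟨l, hmem, ?_⟩
  have hc : l.length ≤ PB.eval n := by
    have h1 := hPB n
    rw [Set.ncard_eq_toFinset_card _ (finite_short n B), ← hl3] at h1
    exact h1
  have hsz : (enc l).length < PB.eval n * (2 * n + 1) + 1 := by
    have h1 : sz l ≤ l.length * (2 * n + 1) := by
      refine sz_le_mul l n fun a ha => ?_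
      rw [sz_word]
      exact ((hmem a).1 ha).1
    have h2 : l.length * (2 * n + 1) ≤ PB.eval n * (2 * n + 1) := Nat.mul_le_mul_right _ hc
    exact Nat.lt_succ_of_le (h1.trans h2)
  have hW : padW (PB.eval n * (2 * n + 1) + 1) (enc l) ∈ Cand (n, l.length) := by
    refine hC (n, l.length) _ (length_padW hsz) ?_
    intro k _ f v _
    rw [← hRs, hTs]
    constructor
    · rintro ⟨l', h1, h2, h3, h4⟩
      have he : l' = l := by
        refine sorted_unique h1 hl1 fun x => ?_
        have hsub : l' ⊆ l := fun y hy => (hmem y).2 (h3 y hy)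
        have hsp : l'.Subperm l := List.subperm_of_subset (nodup_of_inc h1) hsub
        exact (hsp.perm_of_length_le h2.ge).mem_iff
      rwa [he] at h4
    · intro h4
      exact ⟨l, hl1, rfl, fun y hy => (hmem y).1 hy, h4⟩
  rw [List.mem_flatMap]
  refine ⟨l.length, List.mem_range.2 (by omega), ?_⟩
  rw [List.mem_map]
  exact ⟨_, hW, unpadW_padW _ _⟩

end Pool.Agent.SCS
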