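import Pool.Agent.SCS.Alg

/-!
# Module MLev: words of a given length, padding, order

All elementary inductions.  `ltB` is the lexicographic order: irreflexive, transitive, total.  `ltB_unique`: two strictly increasing lists with the same elements are equal
(`List.Perm` of lists without repetitions with the same elements, `List.Perm.eq_of_pairwise` / `List.eq_of_perm_of_sorted` or direct induction).
-/

set_option autoImplicit false

namespace Pool.Agent.SCS

theorem length_of_mem_lev {Z i : ℕ} {w : List Bool} (h : w ∈ lev Z i) : w.length = i := by
  induction i generalizing w with
  | zero =>
    rw [lev, List.mem_singleton] at h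
    rw [h]
    rfl
  | succ i ih =>
    rw [lev] at h
    have h1 := List.mem_of_mem_take h
    rw [List.mem_flatMap] at h1
    obtain ⟨u, hu, hw⟩ := h1
    simp only [List.mem_cons, List.not_mem_nil, or_false] at hw
    rcases hw with rfl | rfl
    · rw [List.length_cons, ih hu]
    · rw [List.length_cons, ih hu]

namespace MLevAux

theorem length_flat (l : List (List Bool)) :
    (l.flatMap fun w => [false :: w, true :: w]).length = 2 * l.length := by
  induction l with
  | nil => rfl
  | cons a l ih =>
    rw [List.flatMap_cons, List.length_append, ih, List.length_cons]
    simp only [List.length_cons, List.length_nil]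
    omega

theorem length_lev_le (Z i : ℕ) : (lev Z i).length ≤ 2 ^ i := by
  induction i with
  | zero => simp [lev]
  | succ i ih =>
    rw [lev, List.length_take, length_flat, pow_succ]
    omega

end MLevAux

open MLevAux

theorem mem_lev {Z i : ℕ} (h : 2 ^ i ≤ Z) {w : List Bool} : w ∈ lev Z i ↔ w.length = i := by
  refine ⟨length_of_mem_lev, ?_⟩
  induction i generalizing w with
  | zero =>
    intro hw
    rw [lev, List.mem_singleton]
    exact List.length_eq_zero_iff.1 hw
  | succ i ih =>
    intro hw
    have h1 : 2 ^ i ≤ Z := by
      rw [pow_succ] at h
      omega
    have h2 := length_lev_le Z i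
    rw [lev, List.take_of_length_le, List.mem_flatMap]
    · cases w with
      | nil => simp at hw
      | cons b t =>
        rw [List.length_cons] at hw
        refine ⟨t, ih h1 (by omega), ?_⟩
        cases b <;> simp
    · rw [length_flat]
      rw [pow_succ] at h
      omega

theorem length_padW {L : ℕ} {z : List Bool} (h : z.length < L) : (padW L z).length = L := by
  rw [padW, List.length_append, List.length_replicate, List.length_cons]
  omega

theorem unpadW_padW (L : ℕ) (z : List Bool) : unpadW (padW L z) = z := by
  rw [padW, unpadW]
  induction (L - 1 - z.length) with
  | zero => simp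
  | succ n ih =>
    rw [List.replicate_succ, List.cons_append, List.dropWhile_cons]
    simpa using ih

theorem length_unpadW_lt {u : List Bool} (h : u ≠ []) : (unpadW u).length < u.length := by
  have h1 := (List.dropWhile_sublist (fun b => !b) (l := u)).length_le
  have h2 : 0 < u.length := List.length_pos_iff.2 h
  rw [unpadW, List.length_tail]
  omega

theorem padW_unpadW {u : List Bool} (h : true ∈ u) : padW u.length (unpadW u) = u := by
  induction u with
  | nil => simp at h
  | cons b t ih =>
    cases b with
    | true =>
      have h1 : unpadW (true :: t) = t := by simp [unpadW]
      rw [h1, padW, List.length_cons]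
      have h2 : t.length + 1 - 1 - t.length = 0 := by omega
      rw [h2]
      rfl
    | false =>
      have ht : true ∈ t := by simpa using h
      have h1 : unpadW (false :: t) = unpadW t := by simp [unpadW]
      have h2 := length_unpadW_lt (List.ne_nil_of_mem ht)
      have h3 := ih ht
      rw [padW] at h3
      rw [h1, padW, List.length_cons]
      have h4 : t.length + 1 - 1 - (unpadW t).length = (t.length - 1 - (unpadW t).length) + 1 := by
        omega
      rw [h4, List.replicate_succ, List.cons_append, h3]

theorem ltB_irrefl (x : List Bool) : ltB x x = false := by
  induction x with
  | nil => rfl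
  | cons a x ih => rw [ltB, if_pos rfl, ih]

theorem ltB_trans {x y z : List Bool} (h : ltB x y = true) (h' : ltB y z = true) :
    ltB x z = true := by
  induction x generalizing y z with
  | nil =>
    cases z with
    | nil =>
      cases y with
      | nil => exact h'
      | cons b y => simp [ltB] at h'
    | cons c z => rfl
  | cons a x ih =>
    cases y with
    | nil => simp [ltB] at h
    | cons b y =>
      cases z with
      | nil => simp [ltB] at h'
      | cons c z =>
        rw [ltB] at h h' ⊢
        by_cases hab : a = b
        · subst hab
          rw [if_pos rfl] at h
          by_cases hac : a = c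
          · subst hac
            rw [if_pos rfl] at h' ⊢
            exact ih h h'
          · rw [if_neg hac] at h' ⊢
            exact h'
        · rw [if_neg hab] at h
          by_cases hbc : b = c
          · subst hbc
            rw [if_neg hab]
            exact h
          · rw [if_neg hbc] at h'
            exfalso
            rw [h, h'] at hbc
            exact hbc rfl

theorem ltB_total {x y : List Bool} (h : x ≠ y) : ltB x y = true ∨ ltB y x = true := by
  induction x generalizing y with
  | nil =>
    cases y with
    | nil => exact absurd rfl h
    | cons b y => exact Or.inl rfl
  | cons a x ih =>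
    cases y with
    | nil => exact Or.inr rfl
    | cons b y =>
      rw [ltB, ltB]
      by_cases hab : a = b
      · subst hab
        rw [if_pos rfl, if_pos rfl]
        exact ih fun h' => h (by rw [h'])
      · rw [if_neg hab, if_neg (Ne.symm hab)]
        cases a <;> cases b <;> simp_all

/-- every finite set of words is the set of elements of a unique strictly increasing list -/
theorem exists_sorted (S : Finset (List Bool)) :
    ∃ l : List (List Bool), l.Pairwise (fun x y => ltB x y = true) ∧ l.toFinset = S ∧
      l.length = S.card := by
  classical
  have key : ∀ (l : List (List Bool)) (x : List Bool), x ∉ l →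
      l.Pairwise (fun x y => ltB x y = true) →
      ∃ l' : List (List Bool), l'.Pairwise (fun x y => ltB x y = true) ∧
        (∀ y, y ∈ l' ↔ y = x ∨ y ∈ l) ∧ l'.length = l.length + 1 := by
    intro l
    induction l with
    | nil =>
      intro x _ _
      exact ⟨[x], List.pairwise_singleton _ _, by simp, rfl⟩
    | cons a l ih =>
      intro x hx hp
      rw [List.pairwise_cons] at hp
      have hxa : x ≠ a := fun h => hx (by rw [h]; exact List.mem_cons_self)
      have hxl : x ∉ l := fun h => hx (List.mem_cons_of_mem _ h)
      rcases ltB_total hxa with h | h
      · refine ⟨x :: a :: l, ?_, by simp, rfl⟩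
        rw [List.pairwise_cons, List.pairwise_cons]
        refine ⟨?_, hp⟩
        intro y hy
        rcases List.mem_cons.1 hy with rfl | hy
        · exact h
        · exact ltB_trans h (hp.1 y hy)
      · obtain ⟨l', h1, h2, h3⟩ := ih x hxl hp.2
        refine ⟨a :: l', ?_, ?_, by rw [List.length_cons, h3, List.length_cons]⟩
        · rw [List.pairwise_cons]
          refine ⟨?_, h1⟩
          intro y hy
          rcases (h2 y).1 hy with rfl | hy
          · exact h
          · exact hp.1 y hy
        · intro y
          rw [List.mem_cons, h2, List.mem_cons]
          tauto
  induction S using Finset.induction_on with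
  | empty => exact ⟨[], List.Pairwise.nil, rfl, rfl⟩
  | insert x S hx ih =>
    obtain ⟨l, h1, h2, h3⟩ := ih
    have hxl : x ∉ l := by
      rw [← List.mem_toFinset, h2]
      exact hx
    obtain ⟨l', h1', h2', h3'⟩ := key l x hxl h1
    refine ⟨l', h1', ?_, ?_⟩
    · ext y
      rw [List.mem_toFinset, h2', Finset.mem_insert, ← h2, List.mem_toFinset]
    · rw [h3', h3, Finset.card_insert_of_notMem hx]

theorem sorted_unique {l l' : List (List Bool)} (h : l.Pairwise (fun x y => ltB x y = true))
    (h' : l'.Pairwise (fun x y => ltB x y = true)) (he : ∀ x, x ∈ l ↔ x ∈ l') : l = l' := by
  induction l generalizing l' with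
  | nil =>
    cases l' with
    | nil => rfl
    | cons b l' =>
      have := (he b).2 List.mem_cons_self
      simp at this
  | cons a l ih =>
    cases l' with
    | nil =>
      have := (he a).1 List.mem_cons_self
      simp at this
    | cons b l' =>
      rw [List.pairwise_cons] at h h'
      have hab : a = b := by
        have h1 := (he a).1 List.mem_cons_self
        have h2 := (he b).2 List.mem_cons_self
        rcases List.mem_cons.1 h1 with h1 | h1
        · exact h1
        · rcases List.mem_cons.1 h2 with h2 | h2
          · exact h2.symm
          · have h3 := ltB_trans (h.1 b h2) (h'.1 a h1)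
            rw [ltB_irrefl] at h3
            exact absurd h3 (by simp)
      subst hab
      congr 1
      refine ih h.2 h'.2 ?_
      intro x
      constructor
      · intro hx
        rcases List.mem_cons.1 ((he x).1 (List.mem_cons_of_mem _ hx)) with h1 | h1
        · rw [h1] at hx
          have h3 := h.1 a hx
          rw [ltB_irrefl] at h3
          exact absurd h3 (by simp)
        · exact h1
      · intro hx
        rcases List.mem_cons.1 ((he x).2 (List.mem_cons_of_mem _ hx)) with h1 | h1
        · rw [h1] at hx
          have h3 := h'.1 a hx
          rw [ltB_irrefl] at h3
          exact absurd h3 (by simp)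
        · exact h1

end Pool.Agent.SCS
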