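import Pool.Agent.SCS.Stmt
import Pool.Agent.SCS.PAlg1
import Pool.Agent.SCS.PAlg2
import Pool.Agent.SCS.MLev

/-!
# Module FSearch: witness search with a list of oracles

Let `V, e` be from `InNP.exists_V` for `L`, `m x = |x| ^ e + e + 1`.  For every word `u` of length `m x` (so `u ≠ []`): `|unpadW u| ≤ |x| ^ e + e` (`length_unpadW_lt`).
The prefix language `S (x, v)`: some `w` with `|v ++ w| = m x` and `V (x, unpadW (v ++ w))` is in NP (`exists_inNP`, `|w| ≤ m x`), so there is a reduction `R` (`ThrReduces.typed`),
`acc B (R (enc (x, v))) = S (x, v)`.  Search with the oracle list `l`: iterate `m x` times `v ↦ v ++ [acc (fun y => decide (y ∈ l)) (R (enc (x, v ++ [true])))]` from `[]`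
(`PolyF.iter_add`, `h = 1`; `polyF_acc`, `PolyF.encF`): `find : List Bool × List (List Bool) → List Bool` is `PolyF`.  By `PolyF.exists_word` there is `g : List Bool → List Bool`, `PolyF`, with
`g (enc (x, l)) = find (x, l)`; `enc (x, l) = pairWord x (enc l)`.
Decision: `A x = (Y (q x)).any fun z => |g (pairWord x z)| = m x && V (x, unpadW (g (pairWord x z)))` (`pairWord x z = enc (x, z)`), where `q x` bounds the lengths of all words in `R (enc (x, v))`,
`|v| ≤ m x` (a polynomial of `|x|`).  If `A x` then `x ∈ L`.  If `x ∈ L`: take the list `l` of the hypothesis `h (q x)`; `acc` with the oracle `l` is `acc B` on the queries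
(all words have length `≤ q x`), and by induction `S (x, v)` holds for all the `v` of the search (`S (x, [])`: a certificate `w` gives `u = padW (m x) w`, `length_padW`, `unpadW_padW`;
if `S (x, v)`, `|v| < m x` and not `S (x, v ++ [true])` then `S (x, v ++ [false])`).  At the end `|v| = m x` and `V (x, unpadW v)`.
-/

set_option autoImplicit false

namespace Pool.Agent.SCS

open Pool.Agent.PolyTime Pool.Agent.NegLim

namespace FSearchAux

theorem evalMono (P : Polynomial ℕ) {m n : ℕ} (h : m ≤ n) : P.eval m ≤ P.eval n := by
  rw [Polynomial.eval_eq_sum, Polynomial.eval_eq_sum, Polynomial.sum, Polynomial.sum]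
  exact Finset.sum_le_sum fun i _ => Nat.mul_le_mul_left _ (Nat.pow_le_pow_left h i)

theorem acc_congr {B C : List Bool → Bool} {X : List Term}
    (h : ∀ t ∈ X, ∀ y ∈ t.2, B y = C y) : acc B X = acc C X := by
  have key : ∀ t ∈ X, t.2.all B = t.2.all C := by
    intro t ht
    have h1 := h t ht
    generalize t.2 = l at h1
    induction l with
    | nil => rfl
    | cons a l ih =>
      rw [List.all_cons, List.all_cons, h1 a List.mem_cons_self,
        ih fun y hy => h1 y (List.mem_cons_of_mem a hy)]
  unfold acc
  have e1 : X.countP (fun t => !t.1 && t.2.all B) = X.countP (fun t => !t.1 && t.2.all C) :=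
    List.countP_congr fun t ht => by rw [key t ht]
  have e2 : X.countP (fun t => t.1 && t.2.all B) = X.countP (fun t => t.1 && t.2.all C) :=
    List.countP_congr fun t ht => by rw [key t ht]
  rw [e1, e2]

/-- the step of the search -/
def stp (R : List Bool → List Term) (p : (List Bool × List (List Bool)) × List Bool) :
    List Bool :=
  p.2 ++ [acc (fun y => decide (y ∈ p.1.2)) (R (enc (p.1.1, p.2 ++ [true])))]

theorem polyF_stp {R : List Bool → List Term} (hR : PolyF R) : PolyF (stp R) := by
  have h11 : PolyF (fun p : (List Bool × List (List Bool)) × List Bool => p.1.1) :=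
    (PolyF.id.fst).fst
  have h12 : PolyF (fun p : (List Bool × List (List Bool)) × List Bool => p.1.2) :=
    (PolyF.id.fst).snd
  have h2 : PolyF (fun p : (List Bool × List (List Bool)) × List Bool => p.2) := PolyF.id.snd
  have h3 : PolyF (fun p : (List Bool × List (List Bool)) × List Bool => p.2 ++ [true]) :=
    h2.append (PolyF.const [true])
  have h4 : PolyF (fun p : (List Bool × List (List Bool)) × List Bool =>
      R (enc (p.1.1, p.2 ++ [true]))) := hR.comp (h11.pair h3).encF
  have h5 := polyF_acc h12 h4
  exact h2.append h5.singleton

/-- the length of the padded certificates -/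
def mm (e : ℕ) (x : List Bool) : ℕ := x.length ^ e + e + 1

theorem polyF_mm (e : ℕ) : PolyF (mm e) := by
  have h1 : PolyF (fun x : List Bool => x.length) := PolyF.id.length
  exact (((h1.pow e).add (PolyF.const e)).add (PolyF.const 1))

/-- the search -/
def fnd (R : List Bool → List Term) (e : ℕ) (a : List Bool × List (List Bool)) : List Bool :=
  (fun v => stp R (a, v))^[mm e a.1] []

theorem polyF_fnd {R : List Bool → List Term} (hR : PolyF R) (e : ℕ) : PolyF (fnd R e) := by
  have hn : PolyF (fun a : List Bool × List (List Bool) => mm e a.1) :=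
    (polyF_mm e).comp PolyF.id.fst
  refine PolyF.iter_add hn (PolyF.const []) (polyF_stp hR) (PolyBd.const 1) ?_
  intro a x
  rw [sz_word, sz_word]
  unfold stp
  rw [List.length_append, List.length_singleton]

end FSearchAux

open FSearchAux in
/-- if the short words of `B` can be listed among polynomially many candidates and NP reduces to
`B`, then P = NP -/
theorem inP_of_oracles {B : List Bool → Bool} (hred : ∀ A, InNP A → ThrReduces A B)
    {Y : ℕ → List (List Bool)} (hY : PolyF Y)
    (h : ∀ n, ∃ l : List (List Bool), (∀ x, x ∈ l ↔ x.length ≤ n ∧ B x = true) ∧ enc l ∈ Y n)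
    {L : List Bool → Bool} (hL : InNP L) : InP L := by
  obtain ⟨V, e, hV, hLV⟩ := InNP.exists_V hL
  -- the prefix language
  set V' : (List Bool × List Bool) × List Bool → Bool := fun p =>
    decide (p.1.2.length + p.2.length = mm e p.1.1) && V (p.1.1, unpadW (p.1.2 ++ p.2)) with hV'
  have h11 : PolyF (fun p : (List Bool × List Bool) × List Bool => p.1.1) := PolyF.id.fst.fst
  have h12 : PolyF (fun p : (List Bool × List Bool) × List Bool => p.1.2) := PolyF.id.fst.snd
  have h2 : PolyF (fun p : (List Bool × List Bool) × List Bool => p.2) := PolyF.id.snd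
  have hpV' : PolyF V' :=
    ((h12.length.add h2.length).eqNat ((polyF_mm e).comp h11)).and
      (hV.comp (h11.pair (polyF_unpadW (h12.append h2))))
  have hB : PolyBd (fun a : List Bool × List Bool => mm e a.1) :=
    ((polyF_mm e).comp PolyF.id.fst).natBd
  obtain ⟨S, hS, hSe⟩ := exists_inNP hpV' hB (by
    intro a w hw
    simp only [hV', Bool.and_eq_true, decide_eq_true_eq] at hw
    omega)
  obtain ⟨d, R, hR, -, hacc⟩ := (hred S hS).typed
  obtain ⟨g, hg, hgf⟩ := (polyF_fnd hR e).exists_word
  -- the bound for the queries
  obtain ⟨P, hP⟩ := hR.szBd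
  set q : List Bool → ℕ := fun x => P.eval (2 * x.length + 1 + mm e x) with hq
  have hlen : PolyF (fun x : List Bool => x.length) := PolyF.id.length
  have hpq : PolyF q :=
    (((((PolyF.const 2).mul hlen).add (PolyF.const 1)).add (polyF_mm e))).evalPoly P
  have hqb : ∀ x v : List Bool, v.length ≤ mm e x → ∀ t ∈ R (enc (x, v)), ∀ y ∈ t.2,
      y.length ≤ q x := by
    intro x v hv t ht y hy
    have a1 : y.length ≤ sz t.2 := by
      have := sz_le_of_mem hy
      rwa [sz_word] at this
    have a2 : sz t.2 ≤ sz t := by
      have : sz t = 2 * sz t.1 + 1 + sz t.2 := sz_pair t.1 t.2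
      omega
    have a3 : sz t ≤ sz (R (enc (x, v))) := sz_le_of_mem ht
    have a4 : sz (R (enc (x, v))) ≤ P.eval (sz (enc (x, v) : List Bool)) := hP _
    have a5 : sz (enc (x, v) : List Bool) = 2 * x.length + 1 + v.length := by
      rw [sz_word]
      exact sz_pair x v
    have a6 : P.eval (sz (enc (x, v) : List Bool)) ≤ q x := by
      rw [a5]
      exact evalMono P (by omega)
    omega
  -- the algorithm
  have hga : PolyF (fun a : List Bool × List Bool => g (enc a)) := hg.comp PolyF.id.encF
  have hp : PolyF (fun a : List Bool × List Bool =>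
      decide ((g (enc a)).length = mm e a.1) && V (a.1, unpadW (g (enc a)))) :=
    (hga.length.eqNat ((polyF_mm e).comp PolyF.id.fst)).and
      (hV.comp (PolyF.id.fst.pair (polyF_unpadW hga)))
  have hA := PolyF.any (hY.comp hpq) hp
  rw [inP_iff]
  refine hA.congr fun x => ?_
  rw [Bool.eq_iff_iff, List.any_eq_true, hLV x]
  constructor
  · rintro ⟨z, -, hz⟩
    simp only [Bool.and_eq_true, decide_eq_true_eq] at hz
    refine ⟨_, ?_, hz.2⟩
    have h3 : g (enc (x, z)) ≠ [] := by
      intro h0
      rw [h0] at hz
      have := hz.1
      simp [mm] at this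
    have h4 := length_unpadW_lt h3
    rw [hz.1] at h4
    unfold mm at h4
    omega
  · rintro ⟨w, hw, hVw⟩
    obtain ⟨l, hl1, hl2⟩ := h (q x)
    refine ⟨enc l, hl2, ?_⟩
    have hfl : g (enc (x, (enc l : List Bool))) = fnd R e (x, l) := hgf (x, l)
    have inv : ∀ k ≤ mm e x, ((fun v => stp R ((x, l), v))^[k] []).length = k ∧
        ∃ w : List Bool, V' ((x, (fun v => stp R ((x, l), v))^[k] []), w) = true := by
      intro k
      induction k with
      | zero =>
        intro _
        refine ⟨rfl, padW (mm e x) w, ?_⟩
        have h3 : w.length < mm e x := by unfold mm; omega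
        simp only [hV', Function.iterate_zero, id_eq, List.length_nil, zero_add, List.nil_append,
          Bool.and_eq_true, decide_eq_true_eq, length_padW h3, unpadW_padW, hVw, and_self]
      | succ k ih =>
        intro hk
        obtain ⟨ih1, w, ih2⟩ := ih (by omega)
        rw [Function.iterate_succ_apply']
        set v := (fun v => stp R ((x, l), v))^[k] [] with hv
        have e1 : stp R ((x, l), v) = v ++ [S (enc (x, v ++ [true]))] := by
          unfold stp
          rw [hacc]
          congr 2
          refine acc_congr fun t ht y hy => ?_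
          have h5 := hqb x (v ++ [true]) (by
            rw [List.length_append, ih1, List.length_singleton]; exact hk) t ht y hy
          rw [Bool.eq_iff_iff, decide_eq_true_eq, hl1 y]
          exact ⟨fun h => h.2, fun h => ⟨h5, h⟩⟩
        rw [e1]
        refine ⟨by rw [List.length_append, ih1, List.length_singleton], ?_⟩
        cases hb : S (enc (x, v ++ [true])) with
        | true => exact (hSe (x, v ++ [true])).1 hb
        | false =>
          simp only [hV', Bool.and_eq_true, decide_eq_true_eq] at ih2
          rcases w with _ | ⟨c, w⟩
          · exfalso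
            have := ih2.1
            rw [List.length_nil] at this
            omega
          · have h6 : V' ((x, v ++ [c]), w) = true := by
              simp only [hV', Bool.and_eq_true, decide_eq_true_eq]
              refine ⟨?_, ?_⟩
              · rw [List.length_append, List.length_singleton]
                have := ih2.1
                rw [List.length_cons] at this
                omega
              · rw [List.append_assoc]
                exact ih2.2
            cases c with
            | false => exact ⟨w, h6⟩
            | true =>
              exfalso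
              have := (hSe (x, v ++ [true])).2 ⟨w, h6⟩
              rw [hb] at this
              exact Bool.noConfusion this
    obtain ⟨f1, w', f2⟩ := inv (mm e x) le_rfl
    have hfd : fnd R e (x, l) = (fun v => stp R ((x, l), v))^[mm e x] [] := rfl
    rw [← hfd] at f1 f2
    simp only [hV', Bool.and_eq_true, decide_eq_true_eq] at f2
    have h7 : w' = [] := by
      have := f2.1
      rw [f1] at this
      exact List.length_eq_zero_iff.mp (by omega)
    rw [h7, List.append_nil] at f2
    have hfl' : g (enc ((x, (enc l : List Bool)) : List Bool × List Bool)) = fnd R e (x, l) := hfl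
    simp only [Bool.and_eq_true, decide_eq_true_eq]
    rw [hfl']
    exact ⟨f1, f2.2⟩

end Pool.Agent.SCS
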