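import Pool.Agent.SCS.Stmt
import Pool.Agent.SCS.PAlg2
import Pool.Agent.SCS.MLev

/-!
# Module FTest: the test language

For `B` in NP with verifier `V`, exponent `e`.  Input `((n, c), k, f, v)`, certificate `w`: `w` is read as `pairWord y₁ (pairWord u₁ (pairWord y₂ ...))` (`c` times; `fstW`, `sndW`).
State of the reading: `(ok, ρ, ys)`, `ρ` the rest of the certificate, `ys` the words read so far, in decreasing order.  One step: `y = fstW ρ`, `u = fstW (sndW ρ)`, the new rest is
`sndW (sndW ρ)`, `ok` is multiplied by: `|y| ≤ n`, `|u| ≤ |y| ^ e + e`, `V (y, u)`, `ltB y' y` for the head `y'` of `ys` (if `ys ≠ []`).  The new list is `y :: ys`.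
Accept if at the end `ok`, `|w| ≤ bound` and `parity v (res f ((padW (ℓ n) (enc ys.reverse)).take k))`.
-/

set_option autoImplicit false

namespace Pool.Agent.SCS

open Pool.Agent.PolyTime Pool.Agent.NegLim

namespace FTestAux

/-- the inputs -/
abbrev Inp : Type := (ℕ × ℕ) × ℕ × List Bool × List Bool

/-- the states -/
abbrev Sta : Type := Bool × List Bool × List (List Bool)

/-- the new flag -/
def okN (V : List Bool × List Bool → Bool) (e n : ℕ) (x : Sta) : Bool :=
  (((x.1 && decide ((fstW x.2.1).length ≤ n)) &&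
    decide ((fstW (sndW x.2.1)).length ≤ (fstW x.2.1).length ^ e + e)) &&
    V (fstW x.2.1, fstW (sndW x.2.1))) &&
    (x.2.2.isEmpty || ltB (x.2.2.headD []) (fstW x.2.1))

/-- one step of the reading -/
def stp (V : List Bool × List Bool → Bool) (e n : ℕ) (x : Sta) : Sta :=
  (okN V e n x, sndW (sndW x.2.1), fstW x.2.1 :: x.2.2)

theorem two_fst_add_snd : ∀ x : List Bool, 2 * (fstW x).length + (sndW x).length ≤ x.length
  | [] => by simp [fstW, sndW]
  | [true] => by simp [fstW, sndW]
  | false :: l => by simp [fstW, sndW]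
  | true :: b :: l => by
    have h := two_fst_add_snd l
    simp only [fstW, sndW, List.length_cons]
    omega

theorem sz_stp (V : List Bool × List Bool → Bool) (e n : ℕ) (x : Sta) :
    sz (stp V e n x) ≤ sz x + 1 := by
  obtain ⟨ok, ρ, ys⟩ := x
  have h1 := two_fst_add_snd ρ
  have h2 := length_sndW_le (sndW ρ)
  have h3 := sz_cons_le (fstW ρ) ys
  have h4 : sz (stp V e n (ok, ρ, ys)) =
      2 * 1 + 1 + (2 * (sndW (sndW ρ)).length + 1 + sz (fstW ρ :: ys)) := by
    show sz (okN V e n (ok, ρ, ys), sndW (sndW ρ), fstW ρ :: ys) = _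
    rw [sz_pair, sz_pair, sz_bool, sz_word]
  have h5 : sz ((ok, ρ, ys) : Sta) = 2 * 1 + 1 + (2 * ρ.length + 1 + sz ys) := by
    rw [sz_pair, sz_pair, sz_bool, sz_word]
  rw [sz_word] at h3
  rw [h4, h5]
  omega

/-- the state after `c` steps -/
def run (V : List Bool × List Bool → Bool) (e n c : ℕ) (w : List Bool) : Sta :=
  (stp V e n)^[c] (true, w, [])

/-- the bound for the certificates -/
def bnd (e n c : ℕ) : ℕ := c * (2 * n + 2 * (n ^ e + e) + 2)

/-- the verifier -/
def ver (V : List Bool × List Bool → Bool) (e : ℕ) (ℓ : ℕ → ℕ) (p : Inp × List Bool) : Bool :=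
  ((run V e p.1.1.1 p.1.1.2 p.2).1 && decide (p.2.length ≤ bnd e p.1.1.1 p.1.1.2)) &&
    parity p.1.2.2.2 (res p.1.2.2.1 ((padW (ℓ p.1.1.1)
      (enc (run V e p.1.1.1 p.1.1.2 p.2).2.2.reverse)).take p.1.2.1))

theorem polyF_run {V : List Bool × List Bool → Bool} (hV : PolyF V) (e : ℕ) :
    PolyF (fun p : Inp × List Bool => run V e p.1.1.1 p.1.1.2 p.2) := by
  have hf : PolyF (fun q : (Inp × List Bool) × Sta => stp V e q.1.1.1.1 q.2) := by
    have q : PolyF (fun q : (Inp × List Bool) × Sta => q) := PolyF.id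
    have hρ : PolyF (fun q : (Inp × List Bool) × Sta => q.2.2.1) := q.snd.snd.fst
    have hys : PolyF (fun q : (Inp × List Bool) × Sta => q.2.2.2) := q.snd.snd.snd
    have hok : PolyF (fun q : (Inp × List Bool) × Sta => q.2.1) := q.snd.fst
    have hn : PolyF (fun q : (Inp × List Bool) × Sta => q.1.1.1.1) := q.fst.fst.fst.fst
    have hfst : PolyF fstW := polyF_word.2 pc_fstW
    have hsnd : PolyF sndW := polyF_word.2 pc_sndW
    have hy := hfst.comp hρ
    have hs := hsnd.comp hρ
    have hu := hfst.comp hs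
    have hr := hsnd.comp hs
    have h1 := ((((hok.and (hy.length.le hn)).and
      (hu.length.le ((hy.length.pow e).add (PolyF.const e)))).and
      (hV.comp (hy.pair hu))).and (hys.isEmpty.or (polyF_ltB (hys.headD []) hy)))
    exact h1.pair (hr.pair (hy.cons hys))
  have q : PolyF (fun p : Inp × List Bool => p) := PolyF.id
  have hs : PolyF (fun p : Inp × List Bool => ((true, p.2, []) : Sta)) :=
    (PolyF.const true).pair (q.snd.pair (PolyF.const []))
  exact PolyF.iter_add (n := fun p : Inp × List Bool => p.1.1.2)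
    (s := fun p : Inp × List Bool => ((true, p.2, []) : Sta))
    (f := fun q : (Inp × List Bool) × Sta => stp V e q.1.1.1.1 q.2) q.fst.fst.snd hs hf
    (PolyBd.const 1) (fun a x => sz_stp V e a.1.1.1 x)

theorem polyF_ver {V : List Bool × List Bool → Bool} (hV : PolyF V) (e : ℕ) {ℓ : ℕ → ℕ}
    (hℓ : PolyF ℓ) : PolyF (ver V e ℓ) := by
  have q : PolyF (fun p : Inp × List Bool => p) := PolyF.id
  have hn := q.fst.fst.fst
  have hc := q.fst.fst.snd
  have hrun := polyF_run hV e
  have hb : PolyF (fun p : Inp × List Bool => bnd e p.1.1.1 p.1.1.2) :=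
    hc.mul ((((PolyF.const 2).mul hn).add
      ((PolyF.const 2).mul ((hn.pow e).add (PolyF.const e)))).add (PolyF.const 2))
  exact (hrun.fst.and (q.snd.length.le hb)).and (polyF_parity q.fst.snd.snd.snd
    (polyF_res q.fst.snd.snd.fst (PolyF.take q.fst.snd.fst
      (polyF_padW (hℓ.comp hn) (PolyF.encF hrun.snd.snd.reverse)))))

/-- soundness of the reading -/
theorem run_sound (V : List Bool × List Bool → Bool) (e n : ℕ) (w : List Bool) : ∀ c : ℕ,
    (run V e n c w).1 = true → (run V e n c w).2.2.length = c ∧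
      (run V e n c w).2.2.Pairwise (fun x y => ltB y x = true) ∧
      ∀ y ∈ (run V e n c w).2.2, y.length ≤ n ∧
        ∃ u : List Bool, u.length ≤ y.length ^ e + e ∧ V (y, u) = true := by
  intro c
  induction c with
  | zero =>
    intro _
    refine ⟨rfl, List.Pairwise.nil, ?_⟩
    intro y hy
    exact absurd hy List.not_mem_nil
  | succ c ih =>
    have hrun : run V e n (c + 1) w = stp V e n (run V e n c w) :=
      Function.iterate_succ_apply' _ _ _
    rw [hrun]
    generalize run V e n c w = x at ih
    obtain ⟨ok, ρ, ys⟩ := x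
    intro h
    have h' : okN V e n (ok, ρ, ys) = true := h
    simp only [okN, Bool.and_eq_true, Bool.or_eq_true, decide_eq_true_eq] at h'
    obtain ⟨⟨⟨⟨hok, h1⟩, h2⟩, h3⟩, h4⟩ := h'
    obtain ⟨i1, i2, i3⟩ := ih hok
    have i1' : ys.length = c := i1
    have i2' : ys.Pairwise (fun x y => ltB y x = true) := i2
    refine ⟨?_, ?_, ?_⟩
    · show (fstW ρ :: ys).length = c + 1
      rw [List.length_cons, i1']
    · show (fstW ρ :: ys).Pairwise _
      rw [List.pairwise_cons]
      refine ⟨?_, i2'⟩
      cases ys with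
      | nil =>
        intro z hz
        exact absurd hz List.not_mem_nil
      | cons y' t =>
        rcases h4 with h4 | h4
        · simp at h4
        · have h5 : ltB y' (fstW ρ) = true := h4
          intro z hz
          rcases List.mem_cons.1 hz with rfl | hz
          · exact h5
          · exact ltB_trans ((List.pairwise_cons.1 i2').1 z hz) h5
    · intro y hy
      have hy' : y ∈ fstW ρ :: ys := hy
      rcases List.mem_cons.1 hy' with rfl | hy'
      · exact ⟨h1, _, h2, h3⟩
      · exact i3 y hy'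

/-- the certificate -/
def cert (u : List Bool → List Bool) : List (List Bool) → List Bool
  | [] => []
  | y :: t => pairWord y (pairWord (u y) (cert u t))

theorem length_cert (u : List Bool → List Bool) (e n : ℕ) : ∀ l : List (List Bool),
    (∀ y ∈ l, y.length ≤ n ∧ (u y).length ≤ y.length ^ e + e) →
      (cert u l).length ≤ bnd e n l.length
  | [], _ => by simp [cert]
  | y :: t, h => by
    have h1 := length_cert u e n t fun z hz => h z (List.mem_cons_of_mem _ hz)
    obtain ⟨h2, h3⟩ := h y List.mem_cons_self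
    have h4 : y.length ^ e ≤ n ^ e := Nat.pow_le_pow_left h2 e
    rw [cert, length_pairWord, length_pairWord, List.length_cons]
    unfold bnd at h1 ⊢
    rw [add_one_mul]
    omega

/-- completeness of the reading -/
theorem run_complete (V : List Bool × List Bool → Bool) (e n : ℕ) (u : List Bool → List Bool) :
    ∀ (l ys : List (List Bool)),
      (∀ y ∈ l, y.length ≤ n ∧ (u y).length ≤ y.length ^ e + e ∧ V (y, u y) = true) →
      l.Pairwise (fun x y => ltB x y = true) →
      (∀ y ∈ l, ys.isEmpty = true ∨ ltB (ys.headD []) y = true) →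
      (stp V e n)^[l.length] (true, cert u l, ys) = (true, [], l.reverse ++ ys)
  | [], ys, _, _, _ => rfl
  | y :: t, ys, h1, h2, h3 => by
    rw [List.length_cons, Function.iterate_succ_apply]
    have hs : stp V e n (true, cert u (y :: t), ys) = (true, cert u t, y :: ys) := by
      obtain ⟨a1, a2, a3⟩ := h1 y List.mem_cons_self
      have a4 := h3 y List.mem_cons_self
      have b1 : fstW (cert u (y :: t)) = y := fstW_pairWord _ _
      have b2 : sndW (cert u (y :: t)) = pairWord (u y) (cert u t) := sndW_pairWord _ _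
      have b3 : okN V e n (true, cert u (y :: t), ys) = true := by
        simp only [okN, b1, b2, fstW_pairWord, Bool.and_eq_true, Bool.or_eq_true,
          decide_eq_true_eq]
        exact ⟨⟨⟨⟨trivial, a1⟩, a2⟩, a3⟩, a4⟩
      unfold stp
      simp only [b1, b2, b3, sndW_pairWord]
    rw [hs, run_complete V e n u t (y :: ys)
      (fun z hz => h1 z (List.mem_cons_of_mem _ hz)) (List.pairwise_cons.1 h2).2
      (fun z hz => Or.inr ((List.pairwise_cons.1 h2).1 z hz))]
    simp

end FTestAux

open FTestAux in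
/-- the test language of the set `B` -/
theorem exists_test {B : List Bool → Bool} (hB : InNP B) {ℓ : ℕ → ℕ} (hℓ : PolyF ℓ) :
    ∃ T : List Bool → Bool, InNP T ∧ ∀ (n c k : ℕ) (f v : List Bool),
      T (enc ((n, c), k, f, v)) = true ↔
        ∃ l : List (List Bool), l.Pairwise (fun x y => ltB x y = true) ∧ l.length = c ∧
          (∀ y ∈ l, y.length ≤ n ∧ B y = true) ∧
          parity v (res f ((padW (ℓ n) (enc l)).take k)) = true := by
  obtain ⟨V, e, hV, hVB⟩ := InNP.exists_V hB
  have q : PolyF (fun p : Inp => p) := PolyF.id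
  have hbd : PolyBd (fun a : Inp => bnd e a.1.1 a.1.2) :=
    PolyF.natBd (q.fst.snd.mul ((((PolyF.const 2).mul q.fst.fst).add
      ((PolyF.const 2).mul ((q.fst.fst.pow e).add (PolyF.const e)))).add (PolyF.const 2)))
  obtain ⟨T, hT, hTV⟩ := exists_inNP (polyF_ver hV e hℓ) hbd (by
    intro a w h
    unfold ver at h
    simp only [Bool.and_eq_true, decide_eq_true_eq] at h
    exact h.1.2)
  refine ⟨T, hT, ?_⟩
  intro n c k f v
  rw [hTV]
  constructor
  · rintro ⟨w, hw⟩
    unfold ver at hw
    simp only [Bool.and_eq_true, decide_eq_true_eq] at hw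
    obtain ⟨⟨h1, -⟩, h2⟩ := hw
    obtain ⟨i1, i2, i3⟩ := run_sound V e n w c h1
    refine ⟨(run V e n c w).2.2.reverse, ?_, ?_, ?_, h2⟩
    · rw [List.pairwise_reverse]
      exact i2
    · rw [List.length_reverse, i1]
    · intro y hy
      obtain ⟨j1, j2⟩ := i3 y (List.mem_reverse.1 hy)
      exact ⟨j1, (hVB y).2 j2⟩
  · rintro ⟨l, h1, h2, h3, h4⟩
    have hu : ∀ y, ∃ u : List Bool, y ∈ l → u.length ≤ y.length ^ e + e ∧ V (y, u) = true := by
      intro y
      by_cases hy : y ∈ l
      · obtain ⟨u, hu⟩ := (hVB y).1 (h3 y hy).2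
        exact ⟨u, fun _ => hu⟩
      · exact ⟨[], fun h => absurd h hy⟩
    choose u hu using hu
    have hr : run V e n c (cert u l) = (true, [], l.reverse) := by
      have := run_complete V e n u l [] (fun y hy => ⟨(h3 y hy).1, (hu y hy).1, (hu y hy).2⟩) h1
        (fun y _ => Or.inl rfl)
      rw [h2, List.append_nil] at this
      exact this
    refine ⟨cert u l, ?_⟩
    have hlen := length_cert u e n l fun y hy => ⟨(h3 y hy).1, (hu y hy).1⟩
    rw [h2] at hlen
    unfold ver
    simp only [Bool.and_eq_true, decide_eq_true_eq, hr, List.reverse_reverse]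
    exact ⟨⟨trivial, hlen⟩, h4⟩

end Pool.Agent.SCS
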