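import Pool.Agent.SCS.FCompl
import Pool.Agent.SCS.LemA

/-!
# Module FUP: hard sparse sets for UP

`L` in UP, `V, e` from `InUP.exists_V`, `m x = |x| ^ e + e + 1`.  Test language (`exists_inUP` with `VL = V`, `β = ℕ × List Bool × List Bool`):
`T (enc (x, k, f, v))` iff some `w` with `|w| ≤ |x| ^ e + e`, `V (x, w)` satisfies `parity v (res f ((padW (m x) w).take k))`.  It is in UP, so it reduces to `B`; `lemmaA` with `α = List Bool`,
`ℓ x = m x`, `W = padW (m x) w` for the unique certificate `w` of `x ∈ L`.  Decision: `(Cand x).any fun W => |unpadW W| ≤ |x| ^ e + e && V (x, unpadW W)`.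
-/

set_option autoImplicit false

namespace Pool.Agent.SCS

open Pool.Agent.PolyTime Pool.Agent.NegLim

theorem inP_of_sparse_hard {B : List Bool → Bool} (hB : Sparse B)
    (hred : ∀ A, InUP A → ThrReduces A B) {L : List Bool → Bool} (hL : InUP L) : InP L := by
  obtain ⟨V, e, hV, hLiff, huniq⟩ := hL.exists_V
  -- the length of the padded certificates
  have hm0 : PolyF (fun x : List Bool => x.length ^ e + e) := by
    have h1 : PolyF (fun x : List Bool => x.length) := PolyF.length PolyF.id
    exact (h1.pow e).add (PolyF.const e)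
  have hm : PolyF (fun x : List Bool => x.length ^ e + e + 1) := hm0.succ
  -- the test language
  have hVT : PolyF (fun p : (List Bool × (ℕ × List Bool × List Bool)) × List Bool =>
      parity p.1.2.2.2 (res p.1.2.2.1
        ((padW (p.1.1.length ^ e + e + 1) p.2).take p.1.2.1))) := by
    have hp1 : PolyF (fun p : (List Bool × (ℕ × List Bool × List Bool)) × List Bool => p.1) :=
      PolyF.id.fst
    have hp2 : PolyF (fun p : (List Bool × (ℕ × List Bool × List Bool)) × List Bool => p.2) :=
      PolyF.id.snd
    have hx : PolyF (fun p : (List Bool × (ℕ × List Bool × List Bool)) × List Bool => p.1.1) :=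
      hp1.fst
    have hb : PolyF (fun p : (List Bool × (ℕ × List Bool × List Bool)) × List Bool => p.1.2) :=
      hp1.snd
    exact polyF_parity hb.snd.snd
      (polyF_res hb.snd.fst (PolyF.take hb.fst (polyF_padW (hm.comp hx) hp2)))
  obtain ⟨T, hT, hTiff⟩ := exists_inUP hV e huniq hVT
  obtain ⟨d, R, hR, hRd, hRacc⟩ := (hred T hT).typed
  have hR' : PolyF (fun p : List Bool × ℕ × List Bool × List Bool => R (enc p)) :=
    hR.comp PolyF.id.encF
  obtain ⟨Cand, hCand, hmem⟩ := lemmaA B hB d
    (fun p : List Bool × ℕ × List Bool × List Bool => R (enc p)) hR' (fun p => hRd (enc p))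
    (fun x : List Bool => x.length ^ e + e + 1) hm
  have hdec : ∀ x, ((Cand x).any fun W =>
      decide ((unpadW W).length ≤ x.length ^ e + e) && V (x, unpadW W)) = L x := by
    intro x
    rw [Bool.eq_iff_iff, hLiff x, List.any_eq_true]
    constructor
    · rintro ⟨W, -, hW⟩
      rw [Bool.and_eq_true, decide_eq_true_eq] at hW
      exact ⟨unpadW W, hW.1, hW.2⟩
    · rintro ⟨w, hw, hVw⟩
      refine ⟨padW (x.length ^ e + e + 1) w, ?_, ?_⟩
      · refine hmem x _ (length_padW (Nat.lt_succ_of_le hw)) ?_
        intro k _ f v _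
        have h1 := hRacc (enc (x, (k, f, v)))
        have h2 := hTiff x (k, f, v)
        rw [h1] at h2
        refine h2.trans ?_
        constructor
        · rintro ⟨w', hw', hVw', hpar⟩
          have : w' = w := huniq x w' w hw' hw hVw' hVw
          subst this
          exact hpar
        · intro hpar
          exact ⟨w, hw, hVw, hpar⟩
      · rw [unpadW_padW, Bool.and_eq_true, decide_eq_true_eq]
        exact ⟨hw, hVw⟩
  rw [inP_iff]
  have hp1 : PolyF (fun p : List Bool × List Bool => p.1) := PolyF.id.fst
  have hp2 : PolyF (fun p : List Bool × List Bool => p.2) := PolyF.id.snd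
  have hun : PolyF (fun p : List Bool × List Bool => unpadW p.2) := polyF_unpadW hp2
  have htest : PolyF (fun p : List Bool × List Bool =>
      decide ((unpadW p.2).length ≤ p.1.length ^ e + e) && V (p.1, unpadW p.2)) :=
    ((PolyF.length hun).le (hm0.comp hp1)).and (hV.comp (hp1.pair hun))
  exact (PolyF.any hCand htest).congr hdec

end Pool.Agent.SCS
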