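import Pool.Agent.SCS.MLin

/-!
# Module MCount: the number of relevant lists

`ind B l ^ 2` is `1` if all words of `l` are in `B` and `0` otherwise.  The lists `l` of length at most `d` with all words in a finite set `T` of at most `s` elements: the map
`l ↦ (fun i : Fin d => l[i]?)` to `Fin d → Option T` is injective, so there are at most `(s + 1) ^ d`.
-/

set_option autoImplicit false

namespace Pool.Agent.SCS

theorem sum_ind_le (B : List Bool → Bool) (s q d : ℕ)
    (hs : {x : List Bool | x.length ≤ q ∧ B x = true}.ncard ≤ s)
    (F : Finset (List (List Bool))) (hF : ∀ l ∈ F, l.length ≤ d ∧ ∀ x ∈ l, x.length ≤ q) :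
    ∑ l ∈ F, ind B l ^ 2 ≤ (((s + 1) ^ d : ℕ) : ℤ) := by
  classical
  have hfin : {x : List Bool | x.length ≤ q ∧ B x = true}.Finite :=
    (List.finite_length_le Bool q).subset fun x hx => hx.1
  set T : Finset (List Bool) := hfin.toFinset with hT
  have hTs : T.card ≤ s := by rw [hT, ← Set.ncard_eq_toFinset_card _ hfin]; exact hs
  have hsum : ∑ l ∈ F, ind B l ^ 2 = ((F.filter fun l => l.all B = true).card : ℤ) := by
    rw [Finset.card_filter]
    push_cast
    refine Finset.sum_congr rfl fun l _ => ?_
    by_cases h : l.all B = true <;> simp [ind, h]
  rw [hsum]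
  norm_cast
  have hcard : (insert none (T.image some)).card ≤ s + 1 :=
    (Finset.card_insert_le _ _).trans (by
      have := Finset.card_image_le (s := T) (f := (some : List Bool → Option (List Bool)))
      omega)
  calc (F.filter fun l => l.all B = true).card
      ≤ (Fintype.piFinset fun _ : Fin d => insert none (T.image some)).card := by
        refine Finset.card_le_card_of_injOn (fun l => fun i : Fin d => l[(i : ℕ)]?) ?_ ?_
        · intro l hl
          rw [Finset.mem_coe, Finset.mem_filter] at hl
          rw [Finset.mem_coe, Fintype.mem_piFinset]
          intro i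
          rw [Finset.mem_insert, Finset.mem_image]
          rcases hx : l[(i : ℕ)]? with _ | x
          · exact Or.inl hx
          · refine Or.inr ⟨x, ?_, hx.symm⟩
            have hxl : x ∈ l := List.mem_of_getElem? hx
            rw [hT, Set.Finite.mem_toFinset]
            exact ⟨(hF l hl.1).2 x hxl, List.all_eq_true.mp hl.2 x hxl⟩
        · intro l hl l' hl' h
          rw [Finset.mem_coe, Finset.mem_filter] at hl hl'
          refine List.ext_getElem? fun i => ?_
          by_cases hi : i < d
          · exact congrFun h ⟨i, hi⟩
          · rw [List.getElem?_eq_none (by have := (hF l hl.1).1; omega),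
              List.getElem?_eq_none (by have := (hF l' hl'.1).1; omega)]
    _ = (insert none (T.image some)).card ^ d := by
        rw [Fintype.card_piFinset]
        simp
    _ ≤ (s + 1) ^ d := Nat.pow_le_pow_left hcard d

end Pool.Agent.SCS
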