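import Pool.Agent.SCS.Alg

/-!
# Module MSep: separating words by residues

Let `toPoly w = w.foldl (fun p b => X * p + C (if b then 1 else 0)) 0 : (ZMod 2)[X]` (highest coefficient first).  For words of the same length `toPoly` is injective, its degree is
`< |w|`.  `toPoly (v xorW w) = toPoly v + toPoly w` for equal lengths.  If `f ≠ []` and `g = X ^ |f| + toPoly f`, then `g ∣ toPoly (res f w) - toPoly w` (invariant of the fold; step:
`r = h :: t`, `toPoly (t ++ [b]) = X * toPoly r + b - h X ^ |f|`, and `X ^ |f| ≡ toPoly f` (char 2)) and `|res f w| = |f|`.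
So `res f w = res f w'` implies `g ∣ toPoly w - toPoly w'`.
`exists_sep`: in the field `GaloisField 2 m` (`2 ^ m` elements, `m ≥ 1` since `1 ≤ k N^2 < 2^m`) choose an element `α` which is a root of none of the nonzero polynomials
`toPoly w - toPoly w'`, `w ≠ w' ∈ J`: there are at most `N^2` pairs, each polynomial has at most `k` roots (`Polynomial.card_roots'`).  Let `g = minpoly (ZMod 2) α`: monic of degree
`1 ≤ deg ≤ m` (`minpoly.natDegree_le`, `GaloisField.finrank`), and `g ∣ toPoly w - toPoly w'` would give that `α` is a root.  `f` = the coefficients of `g` below the leading one, highest first, so that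
`X ^ |f| + toPoly f = g`.
-/

set_option autoImplicit false

namespace Pool.Agent.SCS

namespace MSepAux

/-- the bit as an element of a ring -/
def bt (R : Type*) [CommRing R] (b : Bool) : R := if b then 1 else 0

/-- value of a word, highest coefficient first -/
def ev {R : Type*} [CommRing R] (x : R) : List Bool → R
  | [] => 0
  | a :: w => bt R a * x ^ w.length + ev x w

variable {R : Type*} [CommRing R]

theorem ev_snoc (x : R) (w : List Bool) (b : Bool) :
    ev x (w ++ [b]) = x * ev x w + bt R b := by
  induction w with
  | nil => simp [ev]
  | cons a w ih =>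
    simp only [List.cons_append, ev, ih, List.length_append, List.length_cons, List.length_nil]
    ring

theorem ev_replicate (x : R) (n : ℕ) : ev x (List.replicate n false) = 0 := by
  induction n with
  | zero => rfl
  | succ n ih => simp [List.replicate_succ, ev, ih, bt]

theorem length_xorW (u v : List Bool) (h : u.length = v.length) :
    (xorW u v).length = v.length := by
  simp [xorW, h]

theorem ev_xorW [CharP R 2] (x : R) : ∀ u v : List Bool, u.length = v.length →
    ev x (xorW u v) = ev x u + ev x v := by
  intro u
  induction u with
  | nil =>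
    intro v h
    have : v = [] := by
      cases v with
      | nil => rfl
      | cons b v => simp at h
    subst this
    simp [xorW, ev]
  | cons a u ih =>
    intro v h
    cases v with
    | nil => simp at h
    | cons b v =>
      have h' : u.length = v.length := by simpa using h
      have e : xorW (a :: u) (b :: v) = Bool.xor a b :: xorW u v := rfl
      rw [e]
      simp only [ev]
      rw [ih v h', length_xorW u v h', h']
      have hb : bt R (Bool.xor a b) = bt R a + bt R b := by
        cases a <;> cases b <;> simp [bt, CharTwo.add_self_eq_zero]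
      rw [hb]
      ring

theorem length_resStep {f r : List Bool} (hf : f ≠ []) (hr : r.length = f.length) (b : Bool) :
    (resStep f r b).length = f.length := by
  have hpos : 0 < f.length := List.length_pos_iff.2 hf
  have h1 : (r.tail ++ [b]).length = f.length := by
    simp
    omega
  unfold resStep
  split_ifs
  · rw [length_xorW _ _ h1]
  · exact h1

theorem res_snoc (f w : List Bool) (b : Bool) : res f (w ++ [b]) = resStep f (res f w) b := by
  simp [res, List.foldl_append]

end MSepAux

open MSepAux in
theorem length_res {f : List Bool} (hf : f ≠ []) (w : List Bool) :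
    (res f w).length = f.length := by
  induction w using List.reverseRecOn with
  | nil => simp [res]
  | append_singleton w b ih =>
    rw [res_snoc]
    exact length_resStep hf ih b

namespace MSepAux

variable {R : Type*} [CommRing R]

theorem ev_resStep [CharP R 2] (x : R) {f r : List Bool} (hf : f ≠ [])
    (hr : r.length = f.length) (hx : x ^ f.length = ev x f) (b : Bool) :
    ev x (resStep f r b) = x * ev x r + bt R b := by
  cases r with
  | nil =>
    exfalso
    apply hf
    exact List.length_eq_zero_iff.1 (by simpa using hr.symm)
  | cons h t =>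
    have hlen : (t ++ [b]).length = f.length := by simpa using hr
    have hlen2 : f.length = t.length + 1 := by simpa using hr.symm
    cases h with
    | true =>
      have e : resStep f (true :: t) b = xorW (t ++ [b]) f := rfl
      rw [e, ev_xorW x _ _ hlen, ev_snoc, ← hx, hlen2]
      simp only [ev, bt, if_true]
      ring
    | false =>
      have e : resStep f (false :: t) b = t ++ [b] := rfl
      rw [e, ev_snoc]
      simp [ev, bt]

theorem ev_res [CharP R 2] (x : R) {f : List Bool} (hf : f ≠ [])
    (hx : x ^ f.length = ev x f) (w : List Bool) : ev x (res f w) = ev x w := by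
  induction w using List.reverseRecOn with
  | nil => simp [res, ev_replicate, ev]
  | append_singleton w b ih =>
    rw [res_snoc, ev_resStep x hf (length_res hf w) hx, ev_snoc, ih]

open Polynomial in
theorem eval_ev {K : Type*} [Field K] (α : K) (w : List Bool) :
    (ev (X : K[X]) w).eval α = ev α w := by
  induction w with
  | nil => simp [ev]
  | cons a w ih =>
    simp only [ev, eval_add, eval_mul, eval_pow, eval_X, ih]
    congr 2
    cases a <;> simp [bt]

open Polynomial in
theorem natDegree_ev {K : Type*} [Field K] (w : List Bool) :
    (ev (X : K[X]) w).natDegree ≤ w.length := by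
  induction w with
  | nil => simp [ev]
  | cons a w ih =>
    simp only [ev, List.length_cons]
    refine natDegree_add_le_of_degree_le ?_ (ih.trans (Nat.le_succ _))
    cases a with
    | true =>
      simp [bt]
    | false =>
      simp [bt]

open Polynomial in
theorem ev_inj {K : Type*} [Field K] : ∀ w w' : List Bool, w.length = w'.length →
    ev (X : K[X]) w = ev X w' → w = w' := by
  intro w
  induction w using List.reverseRecOn with
  | nil =>
    intro w' h _
    exact (List.length_eq_zero_iff.1 (by simpa using h.symm)).symm
  | append_singleton w b ih =>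
    intro w' h he
    rcases List.eq_nil_or_concat w' with rfl | ⟨v, c, rfl⟩
    · simp at h
    · rw [List.concat_eq_append] at *
      have hl : w.length = v.length := by simpa using h
      rw [ev_snoc, ev_snoc] at he
      have hbt : ∀ b : Bool, bt (K[X]) b = C (bt K b) := by
        intro b
        cases b <;> simp [bt]
      have h0 := congrArg (fun p : K[X] => p.coeff 0) he
      simp only [hbt, coeff_add, mul_coeff_zero, coeff_X_zero, zero_mul, zero_add,
        coeff_C_zero] at h0
      have hbc : b = c := by
        cases b <;> cases c <;> simp [bt] at h0 <;> rfl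
      subst hbc
      have h1 : (X : K[X]) * ev X w = X * ev X v := by
        exact add_right_cancel he
      rw [ih v hl (mul_left_cancel₀ X_ne_zero h1)]

open Polynomial in
theorem exists_word {K : Type*} [Field K] [Algebra (ZMod 2) K] (α : K) :
    ∀ (d : ℕ) (h : (ZMod 2)[X]), h.degree < d →
      ∃ f : List Bool, f.length = d ∧ ev α f = aeval α h := by
  intro d
  induction d with
  | zero =>
    intro h hd
    refine ⟨[], rfl, ?_⟩
    have : h = 0 := by
      rw [← degree_eq_bot]
      have hd' : h.degree < 0 := by exact_mod_cast hd
      by_contra hne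
      exact absurd (zero_le_degree_iff.2 (fun h0 => hne (by rw [h0, degree_zero]))) (not_le.2 hd')
    rw [this]
    simp [ev]
  | succ d ih =>
    intro h hd
    have hdiv : (divX h).degree < d := by
      by_cases h0 : divX h = 0
      · rw [h0, degree_zero]
        exact WithBot.bot_lt_coe _
      · rw [degree_eq_natDegree h0]
        have h1 : (divX h).natDegree = h.natDegree - 1 := natDegree_divX_eq_natDegree_tsub_one
        have hne : h ≠ 0 := by
          rintro rfl
          simp at h0
        have h2 : h.natDegree < d + 1 := by
          rw [degree_eq_natDegree hne] at hd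
          exact_mod_cast hd
        have h3 : h.natDegree ≠ 0 := by
          intro h3
          apply h0
          rw [eq_C_of_natDegree_eq_zero h3]
          simp
        have h4 : (divX h).natDegree < d := by omega
        exact_mod_cast h4
    obtain ⟨f, hf, hev⟩ := ih (divX h) hdiv
    refine ⟨f ++ [decide (h.coeff 0 = 1)], by simp [hf], ?_⟩
    rw [ev_snoc, hev]
    conv_rhs => rw [← divX_mul_X_add h]
    simp only [map_add, map_mul, aeval_X, aeval_C]
    rw [mul_comm]
    congr 1
    have hz : ∀ z : ZMod 2, bt K (decide (z = 1)) = algebraMap (ZMod 2) K z := by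
      intro z
      have hz2 : z = 0 ∨ z = 1 := (by decide : ∀ z : ZMod 2, z = 0 ∨ z = 1) z
      rcases hz2 with rfl | rfl
      · simp [bt]
      · simp [bt]
    exact hz _

end MSepAux

open MSepAux Polynomial in
theorem exists_sep (k m N : ℕ) (hk : 0 < k) (hN : 0 < N) (J : Finset (List Bool))
    (hJ : ∀ w ∈ J, w.length = k) (hc : J.card ≤ N) (hm : k * N ^ 2 < 2 ^ m) :
    ∃ f : List Bool, f ≠ [] ∧ f.length ≤ m ∧
      ∀ w ∈ J, ∀ w' ∈ J, res f w = res f w' → w = w' := by
  classical
  have hm0 : m ≠ 0 := by
    rintro rfl
    have : 0 < k * N ^ 2 := by positivity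
    simp at hm
    omega
  let K := GaloisField 2 m
  haveI : Fintype K := Fintype.ofFinite K
  have hcard : Fintype.card K = 2 ^ m := by
    rw [← Nat.card_eq_fintype_card]
    exact GaloisField.card 2 m hm0
  haveI : CharP K 2 := inferInstance
  let bad : Finset K := ((J ×ˢ J).filter fun p => p.1 ≠ p.2).biUnion fun p =>
    (ev (X : K[X]) p.1 - ev X p.2).roots.toFinset
  have hbad : bad.card < Fintype.card K := by
    rw [hcard]
    refine lt_of_le_of_lt ?_ hm
    calc bad.card ≤ ∑ p ∈ ((J ×ˢ J).filter fun p => p.1 ≠ p.2),
          (ev (X : K[X]) p.1 - ev X p.2).roots.toFinset.card := Finset.card_biUnion_le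
      _ ≤ ∑ p ∈ ((J ×ˢ J).filter fun p => p.1 ≠ p.2), k := by
          refine Finset.sum_le_sum fun p hp => ?_
          rw [Finset.mem_filter, Finset.mem_product] at hp
          refine (Multiset.toFinset_card_le _).trans ((card_roots' _).trans ?_)
          refine (natDegree_sub_le _ _).trans (max_le ?_ ?_)
          · exact (natDegree_ev _).trans (hJ _ hp.1.1).le
          · exact (natDegree_ev _).trans (hJ _ hp.1.2).le
      _ = ((J ×ˢ J).filter fun p => p.1 ≠ p.2).card * k := by
          rw [Finset.sum_const, smul_eq_mul]
      _ ≤ (N * N) * k := by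
          refine Nat.mul_le_mul_right k ?_
          refine (Finset.card_filter_le _ _).trans ?_
          rw [Finset.card_product]
          exact Nat.mul_le_mul hc hc
      _ = k * N ^ 2 := by ring
  obtain ⟨α, hα⟩ : ∃ α : K, α ∉ bad := by
    by_contra hcon
    push Not at hcon
    have : bad = Finset.univ := Finset.eq_univ_iff_forall.2 hcon
    rw [this, Finset.card_univ] at hbad
    exact lt_irrefl _ hbad
  have hint : IsIntegral (ZMod 2) α := Algebra.IsIntegral.isIntegral α
  set g := minpoly (ZMod 2) α with hg
  have hgm : g.Monic := minpoly.monic hint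
  have hgd : 0 < g.natDegree := minpoly.natDegree_pos hint
  have hgle : g.natDegree ≤ m := by
    have h1 := minpoly.natDegree_le (A := ZMod 2) α
    rwa [GaloisField.finrank 2 hm0] at h1
  have hdeg : (g - X ^ g.natDegree).degree < (g.natDegree : WithBot ℕ) := by
    have h1 : g.degree = (X ^ g.natDegree : (ZMod 2)[X]).degree := by
      rw [degree_X_pow, degree_eq_natDegree hgm.ne_zero]
    have h2 := degree_sub_lt_left h1 hgm.ne_zero (by
      rw [hgm.leadingCoeff, leadingCoeff_X_pow])
    rwa [degree_eq_natDegree hgm.ne_zero] at h2
  obtain ⟨f, hfl, hfe⟩ := exists_word α g.natDegree (g - X ^ g.natDegree) hdeg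
  have hf : f ≠ [] := by
    rintro rfl
    simp at hfl
    omega
  have hx : α ^ f.length = ev α f := by
    rw [hfe, hfl]
    simp only [map_sub, map_pow, aeval_X]
    rw [hg, minpoly.aeval, zero_sub, CharTwo.neg_eq]
  refine ⟨f, hf, by omega, ?_⟩
  intro w hw w' hw' hres
  by_contra hne
  apply hα
  have h1 : ev α w = ev α w' := by
    rw [← ev_res α hf hx w, ← ev_res α hf hx w', hres]
  rw [Finset.mem_biUnion]
  refine ⟨(w, w'), ?_, ?_⟩
  · rw [Finset.mem_filter, Finset.mem_product]
    exact ⟨⟨hw, hw'⟩, hne⟩
  · rw [Multiset.mem_toFinset, mem_roots']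
    constructor
    · intro h0
      apply hne
      exact ev_inj w w' ((hJ w hw).trans (hJ w' hw').symm) (sub_eq_zero.1 h0)
    · rw [IsRoot.def, eval_sub, eval_ev, eval_ev, h1, sub_self]

end Pool.Agent.SCS
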