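import Pool.Agent.SCS.MHad
import Pool.Agent.SCS.MSep
import Pool.Agent.SCS.MCount
import Pool.Agent.SCS.MLev

/-!
# Module MAsm: the true word is a candidate

`good_true`: `pgood_of_sep` for `E = examples R Z a k f (res f (W.take k))` and `τ = ind B`: for `v ∈ lev Z |f|`, `|v| = |f| ≤ y`, the example is
`signed (parity v j) (dblT (R (a, k, f, v)))`, `j = res f (W.take k)`; by `hW`, `acc_iff`, `lin_dblT` (`ind B [] = 1`), `lin_signed` its value under `ind B` is `≥ 1`
(`2 x - 1 ≥ 1` if `x > 0`, `-(2 x - 1) ≥ 1` if `x ≤ 0`).  Its length is `2 |R| + 1 ≤ r`.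
`card_good`: suppose that `M + 1` distinct words of length `k ≥ 1` are good; `m = Nat.size (k * (M + 1) ^ 2)`: `k (M+1)^2 < 2^m ≤ 2 k (M+1)^2 ≤ Z ≤ 2 ^ y`, so `m ≤ y`; `exists_sep` (`N = M + 1`) gives
`f ≠ []`, `|f| ≤ m`, with distinct residues (of length `|f|`, `length_res`); `f ∈ lev Z |f|` (`mem_lev`, `2 ^ |f| ≤ 2 ^ m ≤ Z`) is one of the `f` of `goodW`, so all `M + 1` residues are good: contradiction to
`good_card` with `E = lev Z |f|`, `X v = dblT (R (a, k, f, v))`, `r ^ 4 * K ≤ M`.
`cand_spec`: the words of `cand k` have length `k` and are distinct; before `take M` the filtered list has at most `M` elements (`card_good`; it has no repetitions), so `take M` changes nothing.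
`mem_cand`: induction on `k` with `good_true` (for every `f` of the list `(range (y+1)).flatMap (lev Z)`).
-/

set_option autoImplicit false

namespace Pool.Agent.SCS

variable {α : Type} {R : α × ℕ × List Bool × List Bool → List Term} {K M Z y : ℕ} {a : α}

namespace MAsmAux

theorem iter_fst (k : ℕ) : ((candStep R K M Z y a)^[k] (0, [[]])).1 = k := by
  induction k with
  | zero => rfl
  | succ k ih =>
    rw [Function.iterate_succ_apply', candStep]
    exact congrArg (· + 1) ih

/-- the list before `take M` -/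
def pre (R : α × ℕ × List Bool × List Bool → List Term) (K Z y : ℕ) (a : α) (k : ℕ)
    (l : List (List Bool)) : List (List Bool) :=
  (l.flatMap fun w => [w ++ [false], w ++ [true]]).filter fun w => goodW R K Z y a (k + 1) w

theorem cand_zero : cand R K M Z y a 0 = [[]] := rfl

theorem cand_succ (k : ℕ) : cand R K M Z y a (k + 1) =
    (pre R K Z y a k (cand R K M Z y a k)).take M := by
  rw [cand, Function.iterate_succ_apply', candStep, iter_fst]
  rfl

theorem mem_pre {k : ℕ} {l : List (List Bool)} {w : List Bool} :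
    w ∈ pre R K Z y a k l ↔ (∃ u ∈ l, w = u ++ [false] ∨ w = u ++ [true]) ∧
      goodW R K Z y a (k + 1) w = true := by
  rw [pre, List.mem_filter, List.mem_flatMap]
  simp only [List.mem_cons, List.not_mem_nil, or_false]

theorem nodup_pre {k : ℕ} {l : List (List Bool)} (h : l.Nodup) :
    (pre R K Z y a k l).Nodup := by
  refine List.Nodup.filter _ ?_
  rw [List.nodup_flatMap]
  refine ⟨?_, ?_⟩
  · intro w _
    simp
  · refine List.Pairwise.imp ?_ h
    intro u v huv
    simp only [Function.onFun, List.disjoint_cons_left, List.mem_cons, List.not_mem_nil, or_false,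
      List.disjoint_nil_left, and_true]
    have key : ∀ (b c : Bool), u ++ [b] ≠ v ++ [c] := by
      intro b c h
      exact huv (List.append_inj_left' h rfl)
    exact ⟨fun h => h.elim (key _ _) (key _ _), fun h => h.elim (key _ _) (key _ _)⟩

end MAsmAux

open MAsmAux

theorem good_true {B : List Bool → Bool} {r D ℓ : ℕ} {W : List Bool}
    (hr : ∀ k ≤ ℓ, ∀ f v : List Bool, f.length ≤ y → v.length ≤ y →
      2 * (R (a, k, f, v)).length + 1 ≤ r)
    (hD : ∀ F : Finset (List (List Bool)), (∀ l ∈ F, l = [] ∨ ∃ k ≤ ℓ, ∃ f v : List Bool,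
      f.length ≤ y ∧ v.length ≤ y ∧ l ∈ lists (R (a, k, f, v))) →
      ∑ l ∈ F, ind B l ^ 2 ≤ (D : ℤ))
    (hK : r ^ 2 * D ≤ K)
    (hW : ∀ k ≤ ℓ, ∀ f v : List Bool, v.length = f.length → f.length ≤ y →
      (acc B (R (a, k, f, v)) = true ↔ parity v (res f (W.take k)) = true))
    (k : ℕ) (hk : k ≤ ℓ) (f : List Bool) (hf : f.length ≤ y) :
    pgood (examples R Z a k f (res f (W.take k))) K = true := by
  have hex : ∀ X ∈ examples R Z a k f (res f (W.take k)), ∃ v : List Bool,
      v.length = f.length ∧ X = signed (parity v (res f (W.take k))) (dblT (R (a, k, f, v))) := by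
    intro X hX
    rw [examples, List.mem_map] at hX
    obtain ⟨v, hv, rfl⟩ := hX
    exact ⟨v, length_of_mem_lev hv, rfl⟩
  refine pgood_of_sep _ r K D (ind B) ?_ ?_ ?_ hK
  · intro X hX
    obtain ⟨v, hv, rfl⟩ := hex X hX
    rw [length_signed, length_dblT]
    exact hr k hk f v hf (hv.le.trans hf)
  · intro X hX
    obtain ⟨v, hv, rfl⟩ := hex X hX
    have h1 : ind B [] = 1 := by simp [ind]
    rw [lin_signed, lin_dblT, h1]
    have h2 := hW k hk f v hv hf
    rw [acc_iff] at h2
    by_cases hp : parity v (res f (W.take k)) = true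
    · have h3 := h2.2 hp
      rw [hp]
      simp only [sgn, if_true]
      omega
    · have h3 : ¬ 0 < lin (ind B) (R (a, k, f, v)) := fun h => hp (h2.1 h)
      rw [Bool.not_eq_true] at hp
      rw [hp]
      simp only [sgn, Bool.false_eq_true, if_false]
      omega
  · intro F hF
    apply hD F
    intro l hl
    obtain ⟨X, hX, hlX⟩ := hF l hl
    obtain ⟨v, hv, rfl⟩ := hex X hX
    rw [lists_signed, lists_dblT, Finset.mem_insert] at hlX
    rcases hlX with h | h
    · exact Or.inl h
    · exact Or.inr ⟨k, hk, f, v, hf, hv.le.trans hf, h⟩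

theorem card_good {r ℓ : ℕ} (hr : ∀ k ≤ ℓ, ∀ f v : List Bool, f.length ≤ y → v.length ≤ y →
      2 * (R (a, k, f, v)).length + 1 ≤ r)
    (hM : r ^ 4 * K ≤ M) (hZ : 2 * ℓ * (M + 1) ^ 2 ≤ Z) (hy : Z ≤ 2 ^ y)
    (k : ℕ) (hk0 : 0 < k) (hk : k ≤ ℓ) (J : Finset (List Bool))
    (hJ : ∀ w ∈ J, w.length = k ∧ goodW R K Z y a k w = true) : J.card ≤ M := by
  classical
  by_contra hcon
  push Not at hcon
  obtain ⟨J', hJJ, hJc⟩ := Finset.exists_subset_card_eq (show M + 1 ≤ J.card from hcon)
  set m := Nat.size (k * (M + 1) ^ 2) with hm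
  have hm1 : k * (M + 1) ^ 2 < 2 ^ m := Nat.lt_size_self _
  have hpos : 0 < k * (M + 1) ^ 2 := by positivity
  have hm0 : 0 < m := Nat.size_pos.2 hpos
  have hm2 : 2 ^ m ≤ 2 * (k * (M + 1) ^ 2) := by
    have h1 : 2 ^ (m - 1) ≤ k * (M + 1) ^ 2 := Nat.lt_size.1 (by omega)
    have h2 : 2 ^ m = 2 * 2 ^ (m - 1) := by
      rw [← pow_succ']
      congr 1
      omega
    omega
  have hmZ : 2 ^ m ≤ Z := by
    refine hm2.trans (le_trans ?_ hZ)
    rw [mul_assoc]
    exact Nat.mul_le_mul_left _ (Nat.mul_le_mul_right _ hk)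
  have hmy : m ≤ y := (Nat.pow_le_pow_iff_right (by norm_num)).1 (hmZ.trans hy)
  obtain ⟨f, hf0, hfm, hinj⟩ := exists_sep k m (M + 1) hk0 (Nat.succ_pos _) J'
    (fun w hw => (hJ w (hJJ hw)).1) hJc.le hm1
  have hfZ : 2 ^ f.length ≤ Z := (Nat.pow_le_pow_right (by norm_num) hfm).trans hmZ
  have hfy : f.length ≤ y := hfm.trans hmy
  have hgood : ∀ w ∈ J', pgood (examples R Z a k f (res f w)) K = true := by
    intro w hw
    have h1 := (hJ w (hJJ hw)).2
    rw [goodW, List.all_eq_true] at h1
    refine h1 f ?_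
    rw [List.mem_flatMap]
    exact ⟨f.length, List.mem_range.2 (by omega), (mem_lev hfZ).2 rfl⟩
  have h2 := good_card f.length r K (fun v => dblT (R (a, k, f, v))) (lev Z f.length)
    (fun v hv => (mem_lev hfZ).2 hv)
    (fun v hv => by
      rw [length_dblT]
      exact hr k hk f v hfy ((length_of_mem_lev hv).le.trans hfy))
    (J'.image (res f))
    (fun j hj => by
      obtain ⟨w, _, rfl⟩ := Finset.mem_image.1 hj
      exact length_res hf0 w)
    (fun j hj => by
      obtain ⟨w, hw, rfl⟩ := Finset.mem_image.1 hj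
      exact hgood w hw)
  rw [Finset.card_image_of_injOn (fun w hw w' hw' h => hinj w hw w' hw' h), hJc] at h2
  omega

theorem cand_spec (k : ℕ) :
    (∀ w ∈ cand R K M Z y a k, w.length = k) ∧ (cand R K M Z y a k).Nodup := by
  induction k with
  | zero =>
    rw [cand_zero]
    exact ⟨by simp, by simp⟩
  | succ k ih =>
    rw [cand_succ]
    refine ⟨?_, ?_⟩
    · intro w hw
      obtain ⟨⟨u, hu, h | h⟩, _⟩ := mem_pre.1 (List.mem_of_mem_take hw)
      · rw [h, List.length_append, ih.1 u hu]
        rfl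
      · rw [h, List.length_append, ih.1 u hu]
        rfl
    · exact (nodup_pre ih.2).sublist (List.take_sublist _ _)

theorem mem_cand {B : List Bool → Bool} {r D ℓ : ℕ} {W : List Bool}
    (hr : ∀ k ≤ ℓ, ∀ f v : List Bool, f.length ≤ y → v.length ≤ y →
      2 * (R (a, k, f, v)).length + 1 ≤ r)
    (hD : ∀ F : Finset (List (List Bool)), (∀ l ∈ F, l = [] ∨ ∃ k ≤ ℓ, ∃ f v : List Bool,
      f.length ≤ y ∧ v.length ≤ y ∧ l ∈ lists (R (a, k, f, v))) →
      ∑ l ∈ F, ind B l ^ 2 ≤ (D : ℤ))
    (hK : r ^ 2 * D ≤ K)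
    (hM : r ^ 4 * K ≤ M) (hZ : 2 * ℓ * (M + 1) ^ 2 ≤ Z) (hy : Z ≤ 2 ^ y)
    (hW : ∀ k ≤ ℓ, ∀ f v : List Bool, v.length = f.length → f.length ≤ y →
      (acc B (R (a, k, f, v)) = true ↔ parity v (res f (W.take k)) = true))
    (hlen : W.length = ℓ) : W ∈ cand R K M Z y a ℓ := by
  classical
  have key : ∀ k ≤ ℓ, W.take k ∈ cand R K M Z y a k := by
    intro k
    induction k with
    | zero =>
      intro _
      rw [cand_zero, List.take_zero]
      exact List.mem_singleton.2 rfl
    | succ k ih =>
      intro hk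
      have h1 := ih (by omega)
      rw [cand_succ]
      have hs := cand_spec (R := R) (K := K) (M := M) (Z := Z) (y := y) (a := a) k
      have hle : (pre R K Z y a k (cand R K M Z y a k)).length ≤ M := by
        have h2 := card_good (R := R) (K := K) (M := M) (Z := Z) (y := y) (a := a) hr hM hZ hy
          (k + 1) (Nat.succ_pos _) hk (pre R K Z y a k (cand R K M Z y a k)).toFinset
          (fun w hw => by
            obtain ⟨⟨u, hu, h⟩, hg⟩ := mem_pre.1 (List.mem_toFinset.1 hw)
            refine ⟨?_, hg⟩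
            rcases h with h | h
            · rw [h, List.length_append, hs.1 u hu]
              rfl
            · rw [h, List.length_append, hs.1 u hu]
              rfl)
        rwa [List.toFinset_card_of_nodup (nodup_pre hs.2)] at h2
      rw [List.take_of_length_le hle, mem_pre]
      refine ⟨⟨W.take k, h1, ?_⟩, ?_⟩
      · have hkl : k < W.length := by omega
        rw [List.take_succ_eq_append_getElem hkl]
        cases W[k] with
        | false => exact Or.inl rfl
        | true => exact Or.inr rfl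
      · rw [goodW, List.all_eq_true]
        intro f hf
        rw [List.mem_flatMap] at hf
        obtain ⟨i, hi, hfi⟩ := hf
        have h3 := length_of_mem_lev hfi
        have h4 := List.mem_range.1 hi
        exact good_true hr hD hK hW (k + 1) hk f (by omega)
  have h1 := key ℓ le_rfl
  rwa [← hlen, List.take_length, hlen] at h1

end Pool.Agent.SCS
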