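import Pool.Agent.SCS.MPerc

/-!
# Module MHad: few residues are good

`sum_parity`: let `i` be a position where `j` and `j'` differ; changing the bit `i` of `v` changes exactly one of `parity v j`, `parity v j'` (`Finset.sum_involution`).
(`parity v r` is the sum modulo 2 of `v_i r_i` over `i < min |v| |r|`: prove `parity (a :: v) (b :: r) = xor (a && b) (parity v r)` by induction with a general start value.)
`good_card`: for `j ∈ J` let `S j` be the formal sum of `exists_of_pgood`; for every `v` of length `m` : `1 ≤ sgn (parity v j) * ip (S j) (X v)` (`ip_signed`).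
Let `U` be the set of all words of length `m`, `F` a finite set containing all lists of all `S j`, `j ∈ J`.  Then with `a j l = cf (S j) l`, `x v l = cf (X v) l` :
`|U| |J| ≤ ∑_{v ∈ U} ∑_{l ∈ F} (∑_{j ∈ J} sgn (parity v j) a j l) x v l`, by Cauchy-Schwarz (`Finset.sum_mul_sq_le_sq_mul_sq` over `U × F`)
`(|U| |J|)^2 ≤ (∑_v ∑_l (∑_j sgn (parity v j) a j l)^2) (∑_v ∑_l (x v l)^2)`.  The first factor is `∑_l ∑_{j, j'} a j l a j' l ∑_v sgn (parity v j) sgn (parity v j') = |U| ∑_j ip (S j) (S j) ≤
|U| |J| K r^2` by `sum_parity`, the second is `≤ ∑_v ip (X v) (X v) ≤ |U| r^2`.  So `|J|^2 ≤ |J| K r^4`.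
-/

set_option autoImplicit false

namespace Pool.Agent.SCS

namespace MHadAux

/-- the step of `parity` -/
def step (p : Bool × List Bool) (b : Bool) : Bool × List Bool :=
  (Bool.xor p.1 (b && p.2.headD false), p.2.tail)

theorem foldl_step (v : List Bool) (s : Bool) (r : List Bool) :
    (v.foldl step (s, r)).1 = Bool.xor s (v.foldl step (false, r)).1 := by
  induction v generalizing s r with
  | nil => simp
  | cons a v ih =>
    rw [List.foldl_cons, List.foldl_cons]
    unfold step at ih ⊢
    dsimp only at ih ⊢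
    rw [ih (Bool.xor s (a && r.headD false)), ih (Bool.xor false (a && r.headD false))]
    simp

theorem parity_eq (v r : List Bool) : parity v r = (v.foldl step (false, r)).1 := rfl

/-- the words of length `m` -/
def words (m : ℕ) : Finset (List Bool) :=
  Finset.univ.image fun f : Fin m → Bool => List.ofFn f

theorem mem_words {m : ℕ} {v : List Bool} : v ∈ words m ↔ v.length = m := by
  unfold words
  rw [Finset.mem_image]
  constructor
  · rintro ⟨f, -, rfl⟩
    exact List.length_ofFn
  · intro h
    subst h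
    exact ⟨v.get, Finset.mem_univ _, List.ofFn_get v⟩

theorem sgn_sq (a : Bool) : sgn a * sgn a = 1 := by
  cases a <;> simp [sgn]

end MHadAux

open MHadAux

theorem parity_nil (r : List Bool) : parity [] r = false := rfl

theorem parity_cons (a b : Bool) (v r : List Bool) :
    parity (a :: v) (b :: r) = Bool.xor (a && b) (parity v r) := by
  rw [parity_eq, parity_eq, List.foldl_cons]
  have h : step (false, b :: r) a = (a && b, r) := by
    simp [step]
  rw [h, foldl_step]

theorem sum_parity (m : ℕ) (j j' : List Bool) (hj : j.length = m) (hj' : j'.length = m)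
    (hne : j ≠ j') (U : Finset (List Bool)) (hU : ∀ v, v ∈ U ↔ v.length = m) :
    ∑ v ∈ U, sgn (parity v j) * sgn (parity v j') = 0 := by
  classical
  induction m generalizing j j' U with
  | zero =>
    exact absurd ((List.length_eq_zero_iff.1 hj).trans (List.length_eq_zero_iff.1 hj').symm) hne
  | succ m ih =>
    obtain ⟨b, r, rfl⟩ : ∃ b r, j = b :: r := by
      cases j with
      | nil => simp at hj
      | cons b r => exact ⟨b, r, rfl⟩
    obtain ⟨b', r', rfl⟩ : ∃ b r, j' = b :: r := by
      cases j' with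
      | nil => simp at hj'
      | cons b r => exact ⟨b, r, rfl⟩
    have hr : r.length = m := by simpa using hj
    have hr' : r'.length = m := by simpa using hj'
    have hU' : U = (words m).image (fun v => false :: v) ∪ (words m).image (fun v => true :: v) := by
      ext v
      rw [hU v, Finset.mem_union, Finset.mem_image, Finset.mem_image]
      constructor
      · intro h
        cases v with
        | nil => simp at h
        | cons a v =>
          have hv : v.length = m := by simpa using h
          cases a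
          · exact Or.inl ⟨v, mem_words.2 hv, rfl⟩
          · exact Or.inr ⟨v, mem_words.2 hv, rfl⟩
      · rintro (⟨w, hw, rfl⟩ | ⟨w, hw, rfl⟩) <;>
        · rw [List.length_cons, mem_words.1 hw]
    have hdisj : Disjoint ((words m).image (fun v => false :: v))
        ((words m).image (fun v => true :: v)) := by
      rw [Finset.disjoint_left]
      intro x hx hx'
      rw [Finset.mem_image] at hx hx'
      obtain ⟨w, -, rfl⟩ := hx
      obtain ⟨w', -, h⟩ := hx'
      simp at h
    rw [hU', Finset.sum_union hdisj,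
      Finset.sum_image (fun x _ y _ h => (List.cons_injective h)),
      Finset.sum_image (fun x _ y _ h => (List.cons_injective h)), ← Finset.sum_add_distrib]
    simp only [parity_cons, Bool.false_and, Bool.true_and, Bool.false_xor]
    by_cases hb : b = b'
    · subst hb
      have hrr : r ≠ r' := fun h => hne (by rw [h])
      have h1 : ∀ v ∈ words m, (sgn (parity v r) * sgn (parity v r') +
          sgn (Bool.xor b (parity v r)) * sgn (Bool.xor b (parity v r'))) =
          2 * (sgn (parity v r) * sgn (parity v r')) := by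
        intro v _
        cases b <;> cases parity v r <;> cases parity v r' <;> simp [sgn]
      rw [Finset.sum_congr rfl h1, ← Finset.mul_sum,
        ih r r' hr hr' hrr (words m) (fun v => mem_words), mul_zero]
    · refine Finset.sum_eq_zero fun v _ => ?_
      cases b <;> cases b' <;> cases parity v r <;> cases parity v r' <;> simp_all [sgn]

theorem good_card (m r K : ℕ) (X : List Bool → List Term) (E : List (List Bool))
    (hE : ∀ v, v.length = m → v ∈ E) (hX : ∀ v ∈ E, (X v).length ≤ r)
    (J : Finset (List Bool)) (hJ : ∀ j ∈ J, j.length = m)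
    (hgood : ∀ j ∈ J, pgood (E.map fun v => signed (parity v j) (X v)) K = true) :
    J.card ≤ r ^ 4 * K := by
  classical
  -- the formal sums
  have hS : ∀ j ∈ J, ∃ S : List Term, ip S S ≤ (K : ℤ) * (r : ℤ) ^ 2 ∧
      ∀ v ∈ words m, 1 ≤ sgn (parity v j) * ip S (X v) := by
    intro j hj
    obtain ⟨S, hS1, hS2⟩ := exists_of_pgood (E.map fun v => signed (parity v j) (X v)) r K (by
      intro Y hY
      obtain ⟨v, hv, rfl⟩ := List.mem_map.1 hY
      rw [length_signed]
      exact hX v hv) (hgood j hj)
    refine ⟨S, hS1, fun v hv => ?_⟩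
    have h := hS2 (signed (parity v j) (X v)) (List.mem_map.2 ⟨v, hE v (mem_words.1 hv), rfl⟩)
    rwa [ip_signed] at h
  choose! S hS1 hS2 using hS
  have hXr : ∀ v ∈ words m, ip (X v) (X v) ≤ (r : ℤ) ^ 2 := by
    intro v hv
    refine (ip_self_le (X v)).trans ?_
    have h : ((X v).length : ℤ) ≤ r := by exact_mod_cast hX v (hE v (mem_words.1 hv))
    have h0 : (0 : ℤ) ≤ ((X v).length : ℤ) := by positivity
    exact pow_le_pow_left₀ h0 h 2
  set F : Finset (List (List Bool)) :=
    (J.biUnion fun j => lists (S j)) ∪ ((words m).biUnion fun v => lists (X v)) with hF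
  have hFS : ∀ j ∈ J, lists (S j) ⊆ F := fun j hj =>
    (Finset.subset_biUnion_of_mem (fun j => lists (S j)) hj).trans Finset.subset_union_left
  have hFX : ∀ v ∈ words m, lists (X v) ⊆ F := fun v hv =>
    (Finset.subset_biUnion_of_mem (fun v => lists (X v)) hv).trans Finset.subset_union_right
  set N : ℤ := ((words m).card : ℤ) with hN
  have hNpos : 0 < N := by
    have h : (words m).Nonempty := ⟨List.replicate m false, mem_words.2 List.length_replicate⟩
    have h' := Finset.card_pos.2 h
    rw [hN]
    exact_mod_cast h'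
  -- lower bound
  have h1 : N * (J.card : ℤ) ≤ ∑ p ∈ (words m) ×ˢ F,
      (∑ j ∈ J, sgn (parity p.1 j) * cf (S j) p.2) * cf (X p.1) p.2 := by
    rw [Finset.sum_product]
    have h2 : ∀ v ∈ words m, (J.card : ℤ) ≤
        ∑ l ∈ F, (∑ j ∈ J, sgn (parity v j) * cf (S j) l) * cf (X v) l := by
      intro v hv
      have h3 : ∑ l ∈ F, (∑ j ∈ J, sgn (parity v j) * cf (S j) l) * cf (X v) l =
          ∑ j ∈ J, sgn (parity v j) * ip (S j) (X v) := by
        simp_rw [Finset.sum_mul]
        rw [Finset.sum_comm]
        refine Finset.sum_congr rfl fun j hj => ?_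
        rw [ip_eq_sum (S j) (X v) F (hFS j hj), Finset.mul_sum]
        refine Finset.sum_congr rfl fun l _ => ?_
        ring
      rw [h3]
      calc (J.card : ℤ) = ∑ j ∈ J, (1 : ℤ) := by simp
        _ ≤ _ := Finset.sum_le_sum fun j hj => hS2 j hj v hv
    calc N * (J.card : ℤ) = ∑ v ∈ words m, (J.card : ℤ) := by
          rw [Finset.sum_const, nsmul_eq_mul]
      _ ≤ _ := Finset.sum_le_sum h2
  -- Cauchy-Schwarz
  have hcs := Finset.sum_mul_sq_le_sq_mul_sq ((words m) ×ˢ F)
    (fun p => ∑ j ∈ J, sgn (parity p.1 j) * cf (S j) p.2) (fun p => cf (X p.1) p.2)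
  have hf2 : ∑ p ∈ (words m) ×ˢ F, (cf (X p.1) p.2) ^ 2 ≤ N * (r : ℤ) ^ 2 := by
    rw [Finset.sum_product]
    calc ∑ v ∈ words m, ∑ l ∈ F, cf (X v) l ^ 2
        ≤ ∑ v ∈ words m, (r : ℤ) ^ 2 := by
          refine Finset.sum_le_sum fun v hv => ?_
          refine le_trans (le_of_eq ?_) (hXr v hv)
          rw [ip_eq_sum (X v) (X v) F (hFX v hv)]
          exact Finset.sum_congr rfl fun l _ => sq _
      _ = N * (r : ℤ) ^ 2 := by rw [Finset.sum_const, nsmul_eq_mul]
  have hf1 : ∑ p ∈ (words m) ×ˢ F, (∑ j ∈ J, sgn (parity p.1 j) * cf (S j) p.2) ^ 2 ≤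
      N * ((J.card : ℤ) * ((K : ℤ) * (r : ℤ) ^ 2)) := by
    rw [Finset.sum_product, Finset.sum_comm]
    have h4 : ∀ l ∈ F, ∑ v ∈ words m, (∑ j ∈ J, sgn (parity v j) * cf (S j) l) ^ 2 =
        N * ∑ j ∈ J, cf (S j) l ^ 2 := by
      intro l _
      calc ∑ v ∈ words m, (∑ j ∈ J, sgn (parity v j) * cf (S j) l) ^ 2
          = ∑ v ∈ words m, ∑ j ∈ J, ∑ j' ∈ J,
            (cf (S j) l * cf (S j') l) * (sgn (parity v j) * sgn (parity v j')) := by
            refine Finset.sum_congr rfl fun v _ => ?_
            rw [sq, Finset.sum_mul_sum]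
            refine Finset.sum_congr rfl fun j _ => Finset.sum_congr rfl fun j' _ => ?_
            ring
        _ = ∑ j ∈ J, ∑ j' ∈ J, (cf (S j) l * cf (S j') l) *
            ∑ v ∈ words m, (sgn (parity v j) * sgn (parity v j')) := by
            rw [Finset.sum_comm]
            refine Finset.sum_congr rfl fun j _ => ?_
            rw [Finset.sum_comm]
            refine Finset.sum_congr rfl fun j' _ => ?_
            rw [Finset.mul_sum]
        _ = ∑ j ∈ J, N * cf (S j) l ^ 2 := by
            refine Finset.sum_congr rfl fun j hj => ?_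
            rw [Finset.sum_eq_single_of_mem j hj]
            · simp only [sgn_sq, Finset.sum_const, nsmul_eq_mul, mul_one]
              rw [← hN]
              ring
            · intro j' hj' hne
              rw [sum_parity m j j' (hJ j hj) (hJ j' hj') (Ne.symm hne) (words m)
                (fun v => mem_words), mul_zero]
        _ = N * ∑ j ∈ J, cf (S j) l ^ 2 := by rw [Finset.mul_sum]
    rw [Finset.sum_congr rfl h4, ← Finset.mul_sum, Finset.sum_comm]
    refine mul_le_mul_of_nonneg_left ?_ hNpos.le
    calc ∑ j ∈ J, ∑ l ∈ F, cf (S j) l ^ 2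
        ≤ ∑ j ∈ J, (K : ℤ) * (r : ℤ) ^ 2 := by
          refine Finset.sum_le_sum fun j hj => ?_
          refine le_trans (le_of_eq ?_) (hS1 j hj)
          rw [ip_eq_sum (S j) (S j) F (hFS j hj)]
          exact Finset.sum_congr rfl fun l _ => sq _
      _ = (J.card : ℤ) * ((K : ℤ) * (r : ℤ) ^ 2) := by rw [Finset.sum_const, nsmul_eq_mul]
  have hNJ : 0 ≤ N * (J.card : ℤ) := by positivity
  have h5 : (N * (J.card : ℤ)) ^ 2 ≤
      (N * ((J.card : ℤ) * ((K : ℤ) * (r : ℤ) ^ 2))) * (N * (r : ℤ) ^ 2) := by
    calc (N * (J.card : ℤ)) ^ 2 ≤ (∑ p ∈ (words m) ×ˢ F,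
          (∑ j ∈ J, sgn (parity p.1 j) * cf (S j) p.2) * cf (X p.1) p.2) ^ 2 :=
          pow_le_pow_left₀ hNJ h1 2
      _ ≤ _ := hcs
      _ ≤ _ := mul_le_mul hf1 hf2 (Finset.sum_nonneg fun _ _ => sq_nonneg _) (by positivity)
  have h6 : N ^ 2 * (J.card : ℤ) ^ 2 ≤ N ^ 2 * ((J.card : ℤ) * ((r : ℤ) ^ 4 * K)) := by
    calc N ^ 2 * (J.card : ℤ) ^ 2 = (N * (J.card : ℤ)) ^ 2 := by ring
      _ ≤ _ := h5
      _ = _ := by ring
  have h7 : (J.card : ℤ) ^ 2 ≤ (J.card : ℤ) * ((r : ℤ) ^ 4 * K) :=
    le_of_mul_le_mul_left h6 (by positivity)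
  rcases Nat.eq_zero_or_pos J.card with h0 | hpos
  · rw [h0]
    exact Nat.zero_le _
  · have h8 : (0 : ℤ) < (J.card : ℤ) := by exact_mod_cast hpos
    have h9 : (J.card : ℤ) ≤ (r : ℤ) ^ 4 * K := by
      rw [sq] at h7
      exact le_of_mul_le_mul_left h7 h8
    exact_mod_cast h9

end Pool.Agent.SCS
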