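import Pool.Agent.SCS.MLin

/-!
# Module MPerc: the perceptron

Let `S k = (pstep E)^[k] []`.  If no `X ∈ E` has `ip (S k) X ≤ 0` then `S (k + 1) = S k` and `S k' = S k` for all `k' ≥ k`.
Otherwise `S (k + 1) = S k ++ X` with `X ∈ E`, `ip (S k) X ≤ 0`, so
`ip (S (k + 1)) (S (k + 1)) = ip (S k) (S k) + 2 ip (S k) X + ip X X ≤ ip (S k) (S k) + r ^ 2` and `lin τ (S (k + 1)) ≥ lin τ (S k) + 1`.
`exists_of_pgood`: `S = S K`.  `pgood_of_sep`: if `pgood E K` is false, then all the steps `0, ..., K` are updates, so `lin τ (S (K + 1)) ≥ K + 1`, `ip ≤ (K + 1) r ^ 2`, and by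
`sq_lin_le` (the lists of `S (K + 1)` occur in `E`) `(K + 1)^2 ≤ D (K + 1) r ^ 2`, so `K + 1 ≤ D r ^ 2 ≤ K`, a contradiction.
-/

set_option autoImplicit false

namespace Pool.Agent.SCS

namespace MPercAux

theorem step_cases (E : List (List Term)) (S : List Term) :
    ((∀ X ∈ E, ipPos S X = true) ∧ pstep E S = S) ∨
      ∃ X ∈ E, ip S X ≤ 0 ∧ pstep E S = S ++ X := by
  unfold pstep
  cases h : E.find? (fun X => !ipPos S X) with
  | none =>
    left
    rw [List.find?_eq_none] at h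
    refine ⟨fun X hX => ?_, by simp⟩
    have := h X hX
    simpa using this
  | some X =>
    right
    have h1 := List.mem_of_find?_eq_some h
    have h2 := List.find?_some h
    refine ⟨X, h1, ?_, by simp⟩
    simp only [ipPos, Bool.not_eq_true', decide_eq_false_iff_not, not_lt] at h2
    exact h2

theorem ip_le (E : List (List Term)) (r : ℕ) (hr : ∀ X ∈ E, X.length ≤ r) (k : ℕ) :
    ip ((pstep E)^[k] []) ((pstep E)^[k] []) ≤ (k : ℤ) * (r : ℤ) ^ 2 := by
  induction k with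
  | zero => simp [ip_nil]
  | succ k ih =>
    rw [Function.iterate_succ_apply']
    rcases step_cases E ((pstep E)^[k] []) with ⟨-, h⟩ | ⟨X, hX, h0, h⟩
    · rw [h]
      push_cast
      nlinarith [sq_nonneg (r : ℤ)]
    · rw [h, ip_append_left, ip_append_right, ip_append_right, ip_comm X]
      have h1 := ip_self_le X
      have h2 : (X.length : ℤ) ^ 2 ≤ (r : ℤ) ^ 2 := by
        have : (X.length : ℤ) ≤ r := by exact_mod_cast hr X hX
        exact pow_le_pow_left₀ (by positivity) this 2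
      push_cast
      nlinarith

theorem lists_sub (E : List (List Term)) (k : ℕ) :
    ∀ l ∈ lists ((pstep E)^[k] []), ∃ X ∈ E, l ∈ lists X := by
  induction k with
  | zero =>
    intro l hl
    rw [mem_lists] at hl
    obtain ⟨t, ht, -⟩ := hl
    simp at ht
  | succ k ih =>
    intro l hl
    rw [Function.iterate_succ_apply'] at hl
    rcases step_cases E ((pstep E)^[k] []) with ⟨-, h⟩ | ⟨X, hX, h0, h⟩
    · rw [h] at hl
      exact ih l hl
    · rw [h, mem_lists] at hl
      obtain ⟨t, ht, htl⟩ := hl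
      rw [List.mem_append] at ht
      rcases ht with ht | ht
      · exact ih l (mem_lists.2 ⟨t, ht, htl⟩)
      · exact ⟨X, hX, mem_lists.2 ⟨t, ht, htl⟩⟩

theorem stays (E : List (List Term)) (k : ℕ) (h : ∀ X ∈ E, ipPos ((pstep E)^[k] []) X = true)
    (j : ℕ) : (pstep E)^[k + j] [] = (pstep E)^[k] [] := by
  induction j with
  | zero => rfl
  | succ j ih =>
    rw [← add_assoc, Function.iterate_succ_apply', ih]
    rcases step_cases E ((pstep E)^[k] []) with ⟨-, h'⟩ | ⟨X, hX, h0, -⟩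
    · exact h'
    · exfalso
      have := h X hX
      simp only [ipPos, decide_eq_true_eq] at this
      omega

theorem lin_ge (E : List (List Term)) (τ : List (List Bool) → ℤ) (hτ : ∀ X ∈ E, 1 ≤ lin τ X)
    (K : ℕ) (hK : pgood E K = false) (k : ℕ) (hk : k ≤ K + 1) :
    (k : ℤ) ≤ lin τ ((pstep E)^[k] []) := by
  induction k with
  | zero => simp [lin_nil]
  | succ k ih =>
    have ih' := ih (by omega)
    rw [Function.iterate_succ_apply']
    rcases step_cases E ((pstep E)^[k] []) with ⟨hg, -⟩ | ⟨X, hX, h0, h⟩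
    · exfalso
      obtain ⟨j, rfl⟩ := Nat.exists_eq_add_of_le (show k ≤ K by omega)
      have h1 := stays E k hg j
      have h2 : pgood E (k + j) = true := by
        unfold pgood
        rw [h1, List.all_eq_true]
        exact hg
      rw [h2] at hK
      exact absurd hK (by simp)
    · rw [h, lin_append]
      have := hτ X hX
      push_cast
      omega

end MPercAux

open MPercAux

theorem pgood_of_sep (E : List (List Term)) (r K D : ℕ) (τ : List (List Bool) → ℤ)
    (hr : ∀ X ∈ E, X.length ≤ r) (hτ : ∀ X ∈ E, 1 ≤ lin τ X)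
    (hD : ∀ F : Finset (List (List Bool)), (∀ l ∈ F, ∃ X ∈ E, l ∈ lists X) →
      ∑ l ∈ F, τ l ^ 2 ≤ (D : ℤ)) (hK : r ^ 2 * D ≤ K) : pgood E K = true := by
  by_contra hcon
  rw [Bool.not_eq_true] at hcon
  have h1 := lin_ge E τ hτ K hcon (K + 1) le_rfl
  have h2 := ip_le E r hr (K + 1)
  have h3 := sq_lin_le τ ((pstep E)^[K + 1] [])
  have h4 := hD _ (lists_sub E (K + 1))
  have h5 : (((K + 1 : ℕ) : ℤ)) ^ 2 ≤ lin τ ((pstep E)^[K + 1] []) ^ 2 :=
    pow_le_pow_left₀ (by positivity) h1 2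
  have h6 : (∑ l ∈ lists ((pstep E)^[K + 1] []), τ l ^ 2) *
      ip ((pstep E)^[K + 1] []) ((pstep E)^[K + 1] []) ≤ (D : ℤ) * (((K + 1 : ℕ) : ℤ) * (r : ℤ) ^ 2) :=
    mul_le_mul h4 h2 (ip_self_nonneg _) (by positivity)
  have h7 : ((r : ℤ)) ^ 2 * D ≤ K := by exact_mod_cast hK
  have h8 : (((K + 1 : ℕ) : ℤ)) ^ 2 ≤ (((K + 1 : ℕ) : ℤ)) * K := by
    calc (((K + 1 : ℕ) : ℤ)) ^ 2 ≤ (D : ℤ) * (((K + 1 : ℕ) : ℤ) * (r : ℤ) ^ 2) :=
          h5.trans (h3.trans h6)
      _ = (((K + 1 : ℕ) : ℤ)) * ((r : ℤ) ^ 2 * D) := by ring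
      _ ≤ _ := mul_le_mul_of_nonneg_left h7 (by positivity)
  push_cast at h8
  nlinarith

theorem exists_of_pgood (E : List (List Term)) (r K : ℕ) (hr : ∀ X ∈ E, X.length ≤ r)
    (h : pgood E K = true) :
    ∃ S : List Term, ip S S ≤ (K : ℤ) * (r : ℤ) ^ 2 ∧ ∀ X ∈ E, 1 ≤ ip S X := by
  refine ⟨(pstep E)^[K] [], ip_le E r hr K, fun X hX => ?_⟩
  unfold pgood at h
  rw [List.all_eq_true] at h
  have := h X hX
  simp only [ipPos, decide_eq_true_eq] at this
  omega

end Pool.Agent.SCS
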