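import Pool.Agent.SCS.FList
import Pool.Agent.SCS.FSearch
import Pool.Agent.SCS.FEasy
import Pool.Agent.SCS.FUP

/-!
# The two theorems
-/

set_option autoImplicit false

namespace Pool.Agent.SCS

open Pool.Agent.PolyTime Pool.Agent.NegLim

theorem main_complete : (∀ L, InNP L → InP L) ↔
    ∃ B : List Bool → Bool, InNP B ∧ Sparse B ∧ ∀ A, InNP A → ThrReduces A B := by
  constructor
  · exact easy
  · rintro ⟨B, hB, hS, hred⟩ L hL
    obtain ⟨Y, hY, h⟩ := exists_oracles hB hS hred
    exact inP_of_oracles hred hY h hL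

theorem main_hard (B : List Bool → Bool) (hB : Sparse B ∨ Sparse (fun x => !B x))
    (hred : ∀ A, InUP A → ThrReduces A B) (L : List Bool → Bool) (hL : InUP L) : InP L := by
  rcases hB with hB | hB
  · exact inP_of_sparse_hard hB hred hL
  · exact inP_of_sparse_hard hB (fun A hA => (hred A hA).compl) hL

end Pool.Agent.SCS
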