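import Pool.Agent.SCS.Str

/-!
# Module SBasic: basic programs on words

`PC f` (`Lib/PolyTime/Iter.lean`): some stack program (`Lib/PolyTime/Prog.lean`) computes `f` in polynomial time; input on stack `0`, output on stack `1`, all other stacks
empty at the start and at the end (`Prog.inSt`, `Prog.outSt`).  Two ways of proving `PC f`: (1) an explicit program with `Exec.seq`, `Exec.loop_cons`, `moveD_exec`,
`moveK_exec`, ...; (2) `PFBits.pc`: the length and the bits of `f x` are given by expressions (`Lib/PolyTime/PF.lean`: `PF.len`, `PF.inp`, `PD.lt`, `PF.ite`, ...;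
`B x i = ((x.getD (i + 1) false)).toNat` etc.).  (2) is usually the shortest; `pc_cons` needs (1): `.seq P (.push 1 b)`.
-/

set_option autoImplicit false

namespace Pool.Agent.SCS

open Pool.Agent.PolyTime Pool.Agent.NegLim

namespace SBasicAux

theorem pc_of_bits {f : List Bool → List Bool} (L : List Bool → ℕ) (B : List Bool → ℕ → ℕ)
    (hL : PF (fun x (_ : Unit) => L x)) (hB : PF (fun x (p : Unit × ℕ) => B x p.2))
    (h1 : ∀ x, (f x).length = L x)
    (h2 : ∀ x i, i < L x → (f x).getD i false = decide (B x i ≠ 0)) : PC f := by
  refine PFBits.pc ⟨L, B, hL, hB, fun x => ?_⟩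
  refine List.ext_getElem (by simp [h1]) ?_
  intro i hi hi'
  have hiL : i < L x := by rw [← h1 x]; exact hi
  have := h2 x i hiL
  rw [List.getD_eq_getElem _ _ hi] at this
  rw [this]
  simp

theorem getD_flatMap_dbl (x : List Bool) : ∀ i, i < 2 * x.length →
    (x.flatMap (fun b => [true, b])).getD i false =
      decide ((if i % 2 = 0 then 1 else (x.getD (i / 2) false).toNat) ≠ 0) := by
  induction x with
  | nil => intro i hi; simp at hi
  | cons b x ih =>
    intro i hi
    match i with
    | 0 => simp
    | 1 => cases b <;> simp
    | i + 2 =>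
      have hi' : i < 2 * x.length := by simp only [List.length_cons] at hi; omega
      have := ih i hi'
      have e1 : (i + 2) % 2 = i % 2 := by omega
      have e2 : (i + 2) / 2 = i / 2 + 1 := by omega
      rw [e1, e2]
      simpa using this

end SBasicAux

open SBasicAux

theorem pc_id : PC (fun x => x) := by
  refine pc_of_bits (fun x => x.length) (fun x i => (x.getD i false).toNat) PF.len PF.snd.inp
    (fun x => rfl) (fun x i _ => ?_)
  cases x.getD i false <;> simp

theorem pc_const (l : List Bool) : PC (fun _ => l) := by
  refine pc_of_bits (fun _ => l.length) (fun _ i => (l.map Bool.toNat).getD i 0) (PF.const _)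
    (PF.getD _ PF.snd) (fun x => rfl) (fun x i hi => ?_)
  have hi' : i < (l.map Bool.toNat).length := by simpa using hi
  rw [List.getD_eq_getElem _ _ hi, List.getD_eq_getElem _ _ hi', List.getElem_map]
  cases l[i] <;> simp

theorem pc_cons (b : Bool) {f : List Bool → List Bool} (hf : PC f) : PC (fun x => b :: f x) := by
  obtain ⟨P, T, hP⟩ := hf
  refine ⟨.seq P (.push 1 b), T + 1, fun x => ?_⟩
  have e1 := (hP x).seq (Exec.push 1 b (Prog.outSt (f x)))
  refine (e1.of_eq ?_).mono (by simp)
  unfold Prog.outSt
  simp

theorem pc_drop (k : ℕ) : PC (fun x => x.drop k) := by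
  refine pc_of_bits (fun x => x.length - k) (fun x i => (x.getD (k + i) false).toNat)
    (PF.len.sub (PF.const k)) ((PF.const k).add PF.snd).inp
    (fun x => by simp) (fun x i _ => ?_)
  rw [List.getD_eq_getElem?_getD, List.getElem?_drop, ← List.getD_eq_getElem?_getD]
  cases x.getD (k + i) false <;> simp

theorem pc_take (k : ℕ) : PC (fun x => x.take k) := by
  refine pc_of_bits (fun x => if x.length < k then x.length else k)
    (fun x i => (x.getD i false).toNat)
    (PF.ite (PD.lt PF.len (PF.const k)) PF.len (PF.const k)) PF.snd.inp
    (fun x => ?_) (fun x i hi => ?_)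
  · rw [List.length_take]
    split_ifs <;> omega
  · have hik : i < k := by
      split_ifs at hi <;> omega
    rw [List.getD_eq_getElem?_getD, List.getElem?_take_of_lt hik, ← List.getD_eq_getElem?_getD]
    cases x.getD i false <;> simp

/-- the length in unary -/
theorem pc_ones : PC (fun x => List.replicate x.length true) := by
  refine pc_of_bits (fun x => x.length) (fun _ _ => 1) PF.len (PF.const 1)
    (fun x => by simp) (fun x i hi => ?_)
  rw [List.getD_eq_getElem _ _ (by simpa using hi)]
  simp

/-- the first half of the code of a pair: `PFBits` with length `2 * |x|` and bit `i` equal to `true` for even `i` and `x (i / 2)` for odd `i` -/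
theorem pc_dbl : PC (fun x => x.flatMap (fun b => [true, b])) := by
  refine pc_of_bits (fun x => 2 * x.length)
    (fun x i => if i % 2 = 0 then 1 else (x.getD (i / 2) false).toNat)
    ((PF.const 2).mul PF.len)
    (PF.ite (PD.eq (PF.snd.mod (PF.const 2)) (PF.const 0)) (PF.const 1)
      (PF.snd.div (PF.const 2)).inp)
    (fun x => ?_) (fun x i hi => getD_flatMap_dbl x i hi)
  induction x with
  | nil => rfl
  | cons b x ih => simp only [List.flatMap_cons, List.length_append, List.length_cons, ih,
      List.length_nil]; omega

/-- is the word empty? -/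
theorem pc_isNil : PC (fun x => [decide (x = [])]) := by
  refine pc_of_bits (fun _ => 1) (fun x _ => 1 - x.length) (PF.const 1)
    ((PF.const 1).sub PF.len) (fun x => rfl) (fun x i hi => ?_)
  have hi0 : i = 0 := by omega
  subst hi0
  cases x <;> simp

/-- is the word `[true]`? -/
theorem pc_isTrue : PC (fun x => [decide (x = [true])]) := by
  refine pc_of_bits (fun _ => 1)
    (fun x _ => if x.length = 1 ∧ x.getD 0 false = true then 1 else 0) (PF.const 1)
    (PF.ite ((PD.eq PF.len (PF.const 1)).and (PD.bit (PF.const 0))) (PF.const 1) (PF.const 0))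
    (fun x => rfl) (fun x i hi => ?_)
  have hi0 : i = 0 := by omega
  subst hi0
  match x with
  | [] => simp
  | [b] => cases b <;> simp
  | b :: c :: l => simp

end Pool.Agent.SCS
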