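import Pool.Agent.SCS.Str
import Pool.Agent.SCS.SBasic

/-!
# Module SAppend: concatenation of two outputs, pairs

`pc_append`: with the frames of `Lib/PolyTime/Iter.lean` (`glue`, `Run.glue`, `tri`, see the proof of `PC.iterate`).  Let `P`, `Q` compute `f`, `g`, `R ≥ 3` a bound for their
stacks.  Program: copy the input to stack `R + 1` (`moveD 0 2`, `moveDD 2 0 (R + 1)`); run `P` (in the frame); move its output from stack `1` to stack `R` (`moveD 1 R`, reversed);
move stack `R + 1` to stack `0` (`moveK (R + 1) 2 0`); run `Q` (in the frame); now stack `1` holds `g x` and stack `R` holds `(f x).reverse`; move stack `R` on top of stack `1`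
(`moveD R 1`): the result is `f x ++ g x`.
-/

set_option autoImplicit false

namespace Pool.Agent.SCS

open Pool.Agent.PolyTime Pool.Agent.NegLim

namespace SAppendAux

open Function

/-- copy the input to `R + 1` -/
theorem copy_exec {R : ℕ} (hR : 2 < R) (x : List Bool) :
    Exec (.seq (moveD 0 2) (moveDD 2 0 (R + 1))) (Prog.inSt x) (tri R x [] x)
      (9 * x.length + 2) := by
  have e1 := moveD_exec (k := 0) (k' := 2) (by omega) x (Prog.inSt x) (by simp [Prog.inSt])
  have e2 := moveDD_exec (k := 2) (k' := 0) (k'' := R + 1) (by omega) (by omega) (by omega)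
    x.reverse (update (update (Prog.inSt x) 0 []) 2 (x.reverse ++ Prog.inSt x 2)) (by
      rw [update_self]; simp [Prog.inSt])
  refine ((e1.seq e2).of_eq ?_).mono (by rw [List.length_reverse]; omega)
  unfold tri Prog.inSt
  funext j
  by_cases h1 : j = R + 1
  · subst h1
    rw [update_self, update_self, update_of_ne (by omega : R + 1 ≠ 2),
      update_of_ne (by omega : R + 1 ≠ 0), update_of_ne (by omega : R + 1 ≠ 0)]
    simp
  · rw [update_of_ne h1, update_of_ne h1]
    by_cases h2 : j = R
    · subst h2
      simp only [update_self]
      rw [update_of_ne (by omega), update_of_ne (by omega), update_of_ne (by omega),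
        update_of_ne (by omega), update_of_ne (by omega)]
    · rw [update_of_ne h2]
      by_cases h3 : j = 0
      · subst h3; simp
      · rw [update_of_ne h3]
        by_cases h4 : j = 2
        · subst h4; simp
        · rw [update_of_ne h4, update_of_ne h4, update_of_ne h3, update_of_ne h3]

/-- run a program in the frame -/
theorem frame_exec {R : ℕ} (hR : 2 < R) {P : Prog} (hPR : Prog.regsLt R P) {x y : List Bool}
    {T : ℕ} (hP : Exec P (Prog.inSt x) (Prog.outSt y) T) (a b : List Bool) :
    Exec P (tri R x a b) (PolyTime.glue R (Prog.outSt y) (tri R [] a b)) T := by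
  have := hP.glue hPR (tri R [] a b)
  rwa [glue_inSt R hR] at this

/-- store the output on `R`, reversed -/
theorem store_exec {R : ℕ} (hR : 2 < R) (y b : List Bool) :
    Exec (moveD 1 R) (PolyTime.glue R (Prog.outSt y) (tri R [] [] b)) (tri R [] y.reverse b)
      (4 * y.length + 1) := by
  have e := moveD_exec (k := 1) (k' := R) (by omega) y
    (PolyTime.glue R (Prog.outSt y) (tri R [] [] b)) (by
      unfold PolyTime.glue
      rw [if_pos (by omega)]
      simp [Prog.outSt])
  refine e.of_eq ?_
  unfold PolyTime.glue tri Prog.outSt Prog.inSt
  funext j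
  by_cases h1 : j = R + 1
  · subst h1
    rw [update_of_ne (by omega), update_of_ne (by omega), if_neg (by omega), update_self,
      update_self]
  · rw [update_of_ne h1]
    by_cases h2 : j = R
    · subst h2
      rw [update_self, update_self, if_neg (by omega), update_of_ne (by omega), update_self]
      simp
    · rw [update_of_ne h2, update_of_ne h2]
      by_cases h3 : j = 1
      · subst h3
        rw [update_self, update_of_ne (by omega)]
      · rw [update_of_ne h3]
        by_cases h4 : j < R
        · rw [if_pos h4, update_of_ne h3]
          by_cases h5 : j = 0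
          · subst h5; simp
          · rw [update_of_ne h5]
        · rw [if_neg h4, update_of_ne h1, update_of_ne h2]

/-- move the input back -/
theorem back_exec {R : ℕ} (hR : 2 < R) (x a : List Bool) :
    Exec (moveK (R + 1) 2 0) (tri R [] a x) (tri R x a []) (8 * x.length + 2) := by
  have e := moveK_exec (k := R + 1) (c := 2) (k' := 0) (by omega) (by omega) x (tri R [] a x)
    (by unfold tri; rw [update_self]) (by
      unfold tri Prog.inSt
      rw [update_of_ne (by omega), update_of_ne (by omega), update_of_ne (by omega)])
  refine e.of_eq ?_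
  unfold tri Prog.inSt
  funext j
  by_cases h1 : j = R + 1
  · subst h1
    rw [update_of_ne (by omega), update_self, update_self]
  · rw [update_of_ne h1]
    by_cases h2 : j = R
    · subst h2
      rw [update_self, update_of_ne (by omega), update_of_ne h1, update_of_ne h1, update_self]
    · rw [update_of_ne h2]
      by_cases h3 : j = 0
      · subst h3
        rw [update_self, update_self, update_of_ne (by omega), update_of_ne (by omega),
          update_of_ne (by omega), update_self]
        simp
      · rw [update_of_ne h3, update_of_ne h3, update_of_ne h1, update_of_ne h1,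
          update_of_ne h2, update_of_ne h3]

/-- append the stored word -/
theorem fin_exec {R : ℕ} (hR : 2 < R) (a y : List Bool) :
    Exec (moveD R 1) (PolyTime.glue R (Prog.outSt y) (tri R [] a [])) (Prog.outSt (a.reverse ++ y))
      (4 * a.length + 1) := by
  have e := moveD_exec (k := R) (k' := 1) (by omega) a
    (PolyTime.glue R (Prog.outSt y) (tri R [] a [])) (by
      unfold PolyTime.glue tri
      rw [if_neg (by omega), update_of_ne (by omega), update_self])
  refine e.of_eq ?_
  unfold PolyTime.glue tri Prog.outSt Prog.inSt
  funext j
  by_cases h3 : j = 1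
  · subst h3
    rw [update_self, update_self, if_pos (by omega), update_self]
  · rw [update_of_ne h3, update_of_ne h3]
    by_cases h2 : j = R
    · subst h2
      rw [update_self]
    · rw [update_of_ne h2]
      by_cases h4 : j < R
      · rw [if_pos h4, update_of_ne h3]
      · rw [if_neg h4]
        by_cases h1 : j = R + 1
        · subst h1; rw [update_self]
        · rw [update_of_ne h1, update_of_ne h2, update_of_ne (by omega)]

end SAppendAux

theorem pc_append {f g : List Bool → List Bool} (hf : PC f) (hg : PC g) :
    PC (fun x => f x ++ g x) := by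
  obtain ⟨P, T, hP⟩ := hf
  obtain ⟨Q, U, hQ⟩ := hg
  set R := max 3 (max P.maxReg Q.maxReg) with hRdef
  have hR : 2 < R := by omega
  have hPR : Prog.regsLt R P := Prog.regsLt_mono (by omega) (Prog.regsLt_maxReg P)
  have hQR : Prog.regsLt R Q := Prog.regsLt_mono (by omega) (Prog.regsLt_maxReg Q)
  refine ⟨.seq (.seq (moveD 0 2) (moveDD 2 0 (R + 1))) (.seq P (.seq (moveD 1 R)
    (.seq (moveK (R + 1) 2 0) (.seq Q (moveD R 1))))),
    9 * Polynomial.X + 2 + (T + (4 * T + 1 + (8 * Polynomial.X + 2 + (U + (4 * T + 1))))),
    fun x => ?_⟩
  have e1 := SAppendAux.copy_exec hR x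
  have e2 := SAppendAux.frame_exec hR hPR (hP x) [] x
  have e3 := SAppendAux.store_exec hR (f x) x
  have e4 := SAppendAux.back_exec hR x (f x).reverse
  have e5 := SAppendAux.frame_exec hR hQR (hQ x) (f x).reverse []
  have e6 := SAppendAux.fin_exec hR (f x).reverse (g x)
  rw [List.reverse_reverse] at e6
  have hl := PC.length_le hP x
  refine (e1.seq (e2.seq (e3.seq (e4.seq (e5.seq e6))))).mono ?_
  simp only [Polynomial.eval_add, Polynomial.eval_mul, Polynomial.eval_X, Polynomial.eval_one,
    Polynomial.eval_ofNat, List.length_reverse]
  omega

/-- `pairWord` is the concatenation of `pc_dbl` of `f` with `false :: g` -/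
theorem pc_pair {f g : List Bool → List Bool} (hf : PC f) (hg : PC g) :
    PC (fun x => pairWord (f x) (g x)) :=
  pc_append (PC.comp pc_dbl hf) (pc_cons false hg)

end Pool.Agent.SCS
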