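import Pool.Agent.SCS.Str

/-!
# Module SPair: the decoders of pairs

`fstW`, `sndW` by `PFBits.pc`.  Let `e x` be the number of `i < |x|` such that for all `j ≤ i` : `2 j + 1 < |x|` and the bit `2 j` of `x` is `true`
(`PF.count`, `PD.forall_lt`, `PD.bit`, `PD.lt`).  Then `fstW x = (List.range (e x)).map (fun i => x.getD (2 * i + 1) false)` and `sndW x = x.drop (2 * e x + 1)`
(if the word `x.drop (2 * e x)` starts with `false`; otherwise it is `[]` or `[true]` and both sides are `[]`).  Both by induction on `x` (two bits at a time).
-/

set_option autoImplicit false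

namespace Pool.Agent.SCS

open Pool.Agent.PolyTime Pool.Agent.NegLim

namespace SPairAux

theorem pairWord_nil (w : List Bool) : pairWord [] w = false :: w := rfl

theorem pairWord_cons (b : Bool) (x w : List Bool) :
    pairWord (b :: x) w = true :: b :: pairWord x w := rfl

/-- the length of the first component -/
def eN : List Bool → ℕ
  | true :: _ :: l => eN l + 1
  | _ => 0

theorem fst_cons (b : Bool) (l : List Bool) : fstW (true :: b :: l) = b :: fstW l := rfl

theorem snd_cons (b : Bool) (l : List Bool) : sndW (true :: b :: l) = sndW l := rfl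

theorem eN_cons (b : Bool) (l : List Bool) : eN (true :: b :: l) = eN l + 1 := rfl

/-- induction two bits at a time -/
theorem ind {P : List Bool → Prop} (h0 : P []) (h1 : P [true]) (h2 : ∀ l, P (false :: l))
    (h3 : ∀ b l, P l → P (true :: b :: l)) : ∀ x, P x
  | [] => h0
  | [true] => h1
  | false :: l => h2 l
  | true :: b :: l => h3 b l (ind h0 h1 h2 h3 l)

theorem two_mul_eN_le (x : List Bool) : 2 * eN x ≤ x.length := by
  induction x using ind with
  | h0 => exact Nat.le_refl 0
  | h1 => exact Nat.zero_le _
  | h2 l => exact Nat.zero_le _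
  | h3 b l ih =>
    rw [eN_cons, List.length_cons, List.length_cons]
    omega

theorem fstW_eq (x : List Bool) :
    fstW x = (List.range (eN x)).map (fun i => x.getD (2 * i + 1) false) := by
  induction x using ind with
  | h0 => rfl
  | h1 => rfl
  | h2 l => rfl
  | h3 b l ih =>
    rw [fst_cons, eN_cons, List.range_succ_eq_map, List.map_cons, List.map_map, ih]
    rfl

theorem sndW_eq (x : List Bool) : sndW x = x.drop (2 * eN x + 1) := by
  induction x using ind with
  | h0 => rfl
  | h1 => rfl
  | h2 l => rfl
  | h3 b l ih =>
    rw [snd_cons, eN_cons, ih]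
    rfl

theorem lt_eN (x : List Bool) : ∀ i : ℕ,
    (∀ j < i + 1, 2 * j + 1 < x.length ∧ x.getD (2 * j) false = true) ↔ i < eN x := by
  induction x using ind with
  | h0 =>
    intro i
    refine ⟨fun h => ?_, fun h => absurd h (Nat.not_lt_zero _)⟩
    have := (h 0 (Nat.succ_pos _)).1
    exact absurd this (Nat.not_lt_zero _)
  | h1 =>
    intro i
    refine ⟨fun h => ?_, fun h => absurd h (Nat.not_lt_zero _)⟩
    have := (h 0 (Nat.succ_pos _)).1
    rw [List.length_singleton] at this
    omega
  | h2 l =>
    intro i
    refine ⟨fun h => ?_, fun h => absurd h (Nat.not_lt_zero _)⟩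
    have := (h 0 (Nat.succ_pos _)).2
    exact absurd this Bool.false_ne_true
  | h3 b l ih =>
    intro i
    rw [eN_cons]
    cases i with
    | zero =>
      refine ⟨fun _ => Nat.succ_pos _, fun _ j hj => ?_⟩
      obtain rfl : j = 0 := by omega
      refine ⟨?_, rfl⟩
      rw [List.length_cons, List.length_cons]
      omega
    | succ i =>
      rw [Nat.succ_lt_succ_iff, ← ih i]
      constructor
      · intro h j hj
        have h1 := h (j + 1) (by omega)
        rw [List.length_cons, List.length_cons] at h1
        refine ⟨by omega, ?_⟩
        have h2 : (true :: b :: l).getD (2 * (j + 1)) false = l.getD (2 * j) false := rfl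
        rw [← h2]
        exact h1.2
      · intro h j hj
        cases j with
        | zero =>
          refine ⟨?_, rfl⟩
          rw [List.length_cons, List.length_cons]
          omega
        | succ j =>
          have h1 := h j (by omega)
          have h2 : (true :: b :: l).getD (2 * (j + 1)) false = l.getD (2 * j) false := rfl
          rw [List.length_cons, List.length_cons, h2]
          exact ⟨by omega, h1.2⟩

theorem pf_eN : PF (fun x (_ : Unit) => eN x) := by
  classical
  have h1 : PD (fun (x : List Bool) (q : (Unit × ℕ) × ℕ) =>
      2 * q.2 + 1 < x.length ∧ x.getD (2 * q.2) false = true) :=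
    (PD.lt (((PF.const 2).mul PF.snd).add (PF.const 1)) PF.len).and
      (PD.bit ((PF.const 2).mul PF.snd))
  have h2 : PD (fun (x : List Bool) (p : Unit × ℕ) => ∀ j < p.2 + 1,
      2 * j + 1 < x.length ∧ x.getD (2 * j) false = true) :=
    PD.forall_lt (PF.snd.add (PF.const 1)) h1
  refine (PF.count (PF.len (α := Unit)) h2).congr fun x _ => ?_
  have h3 : (Finset.range x.length).filter (fun i => ∀ j < i + 1,
      2 * j + 1 < x.length ∧ x.getD (2 * j) false = true) = Finset.range (eN x) := by
    ext i
    rw [Finset.mem_filter, Finset.mem_range, Finset.mem_range, lt_eN]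
    refine ⟨fun h => h.2, fun h => ⟨?_, h⟩⟩
    have := two_mul_eN_le x
    omega
  show ((Finset.range x.length).filter (fun i => ∀ j < i + 1,
      2 * j + 1 < x.length ∧ x.getD (2 * j) false = true)).card = eN x
  rw [h3, Finset.card_range]

theorem dec_toNat (b : Bool) : decide (b.toNat ≠ 0) = b := by
  cases b <;> rfl

end SPairAux

open SPairAux

theorem fstW_pairWord (x w : List Bool) : fstW (pairWord x w) = x := by
  induction x with
  | nil => rfl
  | cons b x ih => rw [pairWord_cons, fst_cons, ih]

theorem sndW_pairWord (x w : List Bool) : sndW (pairWord x w) = w := by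
  induction x with
  | nil => rfl
  | cons b x ih => rw [pairWord_cons, snd_cons, ih]

theorem pairWord_inj {x x' w w' : List Bool} (h : pairWord x w = pairWord x' w') :
    x = x' ∧ w = w' := by
  refine ⟨?_, ?_⟩
  · rw [← fstW_pairWord x w, h, fstW_pairWord]
  · rw [← sndW_pairWord x w, h, sndW_pairWord]

theorem length_pairWord (x w : List Bool) :
    (pairWord x w).length = 2 * x.length + 1 + w.length := by
  induction x with
  | nil =>
    rw [pairWord_nil, List.length_cons, List.length_nil]
    omega
  | cons b x ih =>
    rw [pairWord_cons, List.length_cons, List.length_cons, ih, List.length_cons]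
    omega

theorem two_mul_length_fstW_le (x : List Bool) : 2 * (fstW x).length ≤ x.length := by
  rw [fstW_eq, List.length_map, List.length_range]
  exact two_mul_eN_le x

theorem length_sndW_le (x : List Bool) : (sndW x).length ≤ x.length := by
  rw [sndW_eq, List.length_drop]
  exact Nat.sub_le _ _

theorem pc_fstW : PC fstW := by
  refine PFBits.pc ⟨eN, fun x i => (x.getD (2 * i + 1) false).toNat, pf_eN, ?_, fun x => ?_⟩
  · exact PF.inp (((PF.const 2).mul PF.snd).add (PF.const 1))
  · rw [fstW_eq]
    refine List.map_congr_left fun i _ => ?_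
    exact (dec_toNat _).symm

theorem pc_sndW : PC sndW := by
  refine PFBits.pc ⟨fun x => x.length - (2 * eN x + 1),
    fun x i => (x.getD (2 * eN x + 1 + i) false).toNat, ?_, ?_, fun x => ?_⟩
  · exact PF.len.sub (((PF.const 2).mul pf_eN).add (PF.const 1))
  · exact PF.inp ((((PF.const 2).mul pf_eN.fst).add (PF.const 1)).add PF.snd)
  · rw [sndW_eq]
    refine List.ext_getElem ?_ fun i h1 h2 => ?_
    · rw [List.length_drop, List.length_map, List.length_range]
    · rw [List.length_drop] at h1
      rw [List.getElem_drop, List.getElem_map, List.getElem_range, dec_toNat,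
        List.getD_eq_getElem _ _ (by omega)]

end Pool.Agent.SCS
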