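import Pool.Agent.SCS.Str
import Pool.Agent.SCS.SPair

/-!
# Module SEq: equality of two words

`PFBits.pc` for the composition: first `PFBits` of the function `x ↦ fstW x` and `x ↦ sndW x` are not needed: `fstW x = sndW x` iff, with `e = |fstW x|`, `r = |sndW x|` (both are
given by expressions, see the proofs in SPair), `e = r` and for all `i < e` the bits `2 i + 1` and `2 e + 1 + i` of `x` are equal (and, for the degenerate `x` which are not codes of
pairs, `sndW x = []`: then the condition is `e = 0`).  If the expressions of SPair are not exported, reprove them here (or export them as `pf_...` in your file).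
-/

set_option autoImplicit false

namespace Pool.Agent.SCS

open Pool.Agent.PolyTime Pool.Agent.NegLim

namespace SEqAux

theorem sndW_eq_drop : ∀ x : List Bool, sndW x = x.drop (2 * (fstW x).length + 1)
  | [] => rfl
  | [true] => rfl
  | false :: l => rfl
  | true :: b :: l => by
    have h := sndW_eq_drop l
    show sndW l = (true :: b :: l).drop (2 * ((fstW l).length + 1) + 1)
    rw [h, show 2 * ((fstW l).length + 1) + 1 = (2 * (fstW l).length + 1) + 1 + 1 by ring,
      List.drop_succ_cons, List.drop_succ_cons]

theorem fstW_len_iff : ∀ (x : List Bool) (i : ℕ), i < (fstW x).length ↔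
    ∀ j < i + 1, 2 * j + 1 < x.length ∧ x.getD (2 * j) false = true
  | [], i => by
    constructor
    · intro h; simp [fstW] at h
    · intro h; have := (h 0 (by omega)).1; simp at this
  | [true], i => by
    constructor
    · intro h; simp [fstW] at h
    · intro h; have := (h 0 (by omega)).1; simp at this
  | false :: l, i => by
    constructor
    · intro h; simp [fstW] at h
    · intro h; have := (h 0 (by omega)).2; simp at this
  | true :: b :: l, 0 => by
    constructor
    · intro _ j hj
      have : j = 0 := by omega
      subst this
      simp
    · intro _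
      show 0 < (b :: fstW l).length
      simp
  | true :: b :: l, i + 1 => by
    have h := fstW_len_iff l i
    have e : (fstW (true :: b :: l)).length = (fstW l).length + 1 := rfl
    rw [e]
    constructor
    · intro hi j hj
      rcases j with _ | j
      · simp
      · have h2 := h.1 (by omega) j (by omega)
        constructor
        · simp only [List.length_cons]
          omega
        · have h3 : 2 * (j + 1) = 2 * j + 1 + 1 := by ring
          rw [h3, List.getD_cons_succ, List.getD_cons_succ]
          exact h2.2
    · intro hi
      have h2 := h.2 (fun j hj => by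
        have h4 := hi (j + 1) (by omega)
        constructor
        · have := h4.1
          simp only [List.length_cons] at this
          omega
        · have h3 : 2 * (j + 1) = 2 * j + 1 + 1 := by ring
          rw [h3, List.getD_cons_succ, List.getD_cons_succ] at h4
          exact h4.2)
      omega

theorem getD_fstW : ∀ (x : List Bool) (i : ℕ), i < (fstW x).length →
    (fstW x).getD i false = x.getD (2 * i + 1) false
  | [], i => by intro h; simp [fstW] at h
  | [true], i => by intro h; simp [fstW] at h
  | false :: l, i => by intro h; simp [fstW] at h
  | true :: b :: l, 0 => by intro _; rfl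
  | true :: b :: l, i + 1 => by
    intro hi
    have e : (fstW (true :: b :: l)).length = (fstW l).length + 1 := rfl
    rw [e] at hi
    have h := getD_fstW l i (by omega)
    show (b :: fstW l).getD (i + 1) false = _
    rw [List.getD_cons_succ, h, show 2 * (i + 1) + 1 = 2 * i + 1 + 1 + 1 by ring,
      List.getD_cons_succ, List.getD_cons_succ]

theorem length_le (x : List Bool) : (fstW x).length ≤ x.length := by
  by_contra h
  push Not at h
  have := ((fstW_len_iff x x.length).1 h x.length (by omega)).1
  omega

theorem pf_len : PF (fun x (_ : Unit) => (fstW x).length) := by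
  classical
  have h1 : PD (fun (x : List Bool) (q : (Unit × ℕ) × ℕ) =>
      2 * q.2 + 1 < x.length ∧ x.getD (2 * q.2) false = true) :=
    (PD.lt (((PF.const 2).mul PF.snd).add (PF.const 1)) PF.len).and
      (PD.bit ((PF.const 2).mul PF.snd))
  have h2 : PD (fun (x : List Bool) (p : Unit × ℕ) =>
      ∀ j < p.2 + 1, 2 * j + 1 < x.length ∧ x.getD (2 * j) false = true) :=
    PD.forall_lt (B := fun _ (p : Unit × ℕ) => p.2 + 1) (PF.snd.add (PF.const 1)) h1
  have h3 := PF.count (B := fun (x : List Bool) (_ : Unit) => x.length) PF.len h2
  refine h3.congr fun x _ => ?_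
  have : (Finset.range x.length).filter (fun i =>
      ∀ j < i + 1, 2 * j + 1 < x.length ∧ x.getD (2 * j) false = true) =
      Finset.range (fstW x).length := by
    ext i
    rw [Finset.mem_filter, Finset.mem_range, Finset.mem_range, ← fstW_len_iff x i]
    constructor
    · exact fun h => h.2
    · exact fun h => ⟨lt_of_lt_of_le h (length_le x), h⟩
  simp only [this, Finset.card_range]

theorem toNat_inj {a b : Bool} (h : a.toNat = b.toNat) : a = b := by
  cases a <;> cases b <;> simp_all

theorem eq_iff (x : List Bool) : fstW x = sndW x ↔
    ((fstW x).length = x.length - (2 * (fstW x).length + 1) ∧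
      ∀ i < (fstW x).length, (x.getD (2 * i + 1) false).toNat =
        (x.getD (2 * (fstW x).length + 1 + i) false).toNat) := by
  have hd : ∀ i, (sndW x).getD i false = x.getD (2 * (fstW x).length + 1 + i) false := by
    intro i
    rw [sndW_eq_drop x, List.getD_eq_getElem?_getD, List.getD_eq_getElem?_getD,
      List.getElem?_drop]
  have hl : (sndW x).length = x.length - (2 * (fstW x).length + 1) := by
    nth_rewrite 1 [sndW_eq_drop x]
    rw [List.length_drop]
  constructor
  · intro h
    refine ⟨?_, fun i hi => ?_⟩
    · nth_rewrite 1 [h]
      exact hl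
    · rw [← getD_fstW x i hi, ← hd i, h]
  · rintro ⟨h1, h2⟩
    apply List.ext_getElem
    · rw [hl]; exact h1
    · intro i hi1 hi2
      rw [← List.getD_eq_getElem (d := false) _ hi1, ← List.getD_eq_getElem (d := false) _ hi2,
        getD_fstW x i hi1, hd i]
      exact toNat_inj (h2 i hi1)

theorem pd_eq : PD (fun x (_ : Unit) => fstW x = sndW x) := by
  have h1 : PD (fun x (p : Unit × ℕ) => (x.getD (2 * p.2 + 1) false).toNat =
        (x.getD (2 * (fstW x).length + 1 + p.2) false).toNat) :=
    PD.eq (PF.inp (((PF.const 2).mul PF.snd).add (PF.const 1)))
      (PF.inp ((((PF.const 2).mul pf_len.fst).add (PF.const 1)).add PF.snd))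
  have h2 : PD (fun x (_ : Unit) => (fstW x).length = x.length - (2 * (fstW x).length + 1)) :=
    PD.eq pf_len (PF.len.sub (((PF.const 2).mul pf_len).add (PF.const 1)))
  exact (h2.and (PD.forall_lt pf_len h1)).congr fun x _ => (eq_iff x).symm

end SEqAux

theorem pc_eqW : PC (fun x => [decide (fstW x = sndW x)]) := by
  classical
  apply PFBits.pc
  refine ⟨fun _ => 1, fun x _ => if fstW x = sndW x then 1 else 0, PF.const 1,
    PF.ite (SEqAux.pd_eq.fst) (PF.const 1) (PF.const 0), fun x => ?_⟩
  by_cases h : fstW x = sndW x
  · simp [h]
  · simp [h]

end Pool.Agent.SCS
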