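import Pool.Agent.SCS.Str
import Pool.Agent.SCS.SBasic

/-!
# Module SIte: case distinction

With the frames of `Lib/PolyTime/Iter.lean` (`glue`, `Run.glue`, `tri`, see the proof of `PC.iterate`).  Let `C`, `P`, `Q` compute `c`, `f`, `g`; by `pc_isTrue` and `PC.comp`
we may assume that `c x` is `[true]` or `[false]`.  Program: copy the input to stack `R + 1`; run `C`; move the bit from stack `1` to stack `R` (`moveD 1 R`); move stack `R + 1`
to stack `0`; `ite R (seq (pop R) P) (seq (pop R) Q) skip`.
-/

set_option autoImplicit false

namespace Pool.Agent.SCS

open Pool.Agent.PolyTime Pool.Agent.NegLim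
open Polynomial (X C)

namespace SIteAux

open Function

theorem tri_nil (R : ℕ) (x : List Bool) (hR : 2 < R) : tri R x [] [] = Prog.inSt x := by
  unfold tri Prog.inSt
  funext j
  by_cases h1 : j = R + 1
  · subst h1
    rw [update_self, update_of_ne (by omega)]
  · rw [update_of_ne h1]
    by_cases h2 : j = R
    · subst h2
      rw [update_self, update_of_ne (by omega)]
    · rw [update_of_ne h2]

/-- the case distinction for a word function with values `[true]`, `[false]` -/
theorem pc_ite_bit {c : List Bool → Bool} {f g : List Bool → List Bool}
    (hc : PC (fun x => [c x])) (hf : PC f) (hg : PC g) :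
    PC (fun x => if c x = true then f x else g x) := by
  obtain ⟨C, U, hC⟩ := hc
  obtain ⟨P, T, hP⟩ := hf
  obtain ⟨Q, W, hQ⟩ := hg
  set R := max 3 C.maxReg with hRdef
  have hR : 2 < R := by omega
  have hCR : Prog.regsLt R C := Prog.regsLt_mono (by omega) (Prog.regsLt_maxReg C)
  -- copy the input to `R + 1`
  have a1 : ∀ x, Exec (.seq (moveD 0 2) (moveDD 2 0 (R + 1))) (Prog.inSt x) (tri R x [] x)
      (9 * x.length + 2) := by
    intro x
    have e1 := moveD_exec (k := 0) (k' := 2) (by omega) x (Prog.inSt x) (by simp [Prog.inSt])
    have e2 := moveDD_exec (k := 2) (k' := 0) (k'' := R + 1) (by omega) (by omega) (by omega)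
      x.reverse (update (update (Prog.inSt x) 0 []) 2 (x.reverse ++ Prog.inSt x 2)) (by
        rw [update_self]; simp [Prog.inSt])
    refine ((e1.seq e2).of_eq ?_).mono (by rw [List.length_reverse]; omega)
    unfold tri Prog.inSt
    funext j
    by_cases h1 : j = R + 1
    · subst h1
      rw [update_self, update_self, update_of_ne (by omega : R + 1 ≠ 2),
        update_of_ne (by omega : R + 1 ≠ 0), update_of_ne (by omega : R + 1 ≠ 0)]
      simp
    · rw [update_of_ne h1, update_of_ne h1]
      by_cases h2 : j = R
      · subst h2
        simp only [update_self]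
        rw [update_of_ne (by omega), update_of_ne (by omega), update_of_ne (by omega),
          update_of_ne (by omega), update_of_ne (by omega)]
      · rw [update_of_ne h2]
        by_cases h3 : j = 0
        · subst h3; simp
        · rw [update_of_ne h3]
          by_cases h4 : j = 2
          · subst h4; simp
          · rw [update_of_ne h4, update_of_ne h4, update_of_ne h3, update_of_ne h3]
  -- compute the bit
  have a2 : ∀ x, Exec C (tri R x [] x) (PolyTime.glue R (Prog.outSt [c x]) (tri R [] [] x))
      (U.eval x.length) := by
    intro x
    have := (hC x).glue hCR (tri R [] [] x)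
    rwa [glue_inSt R hR] at this
  -- move the bit to `R`
  have a3 : ∀ x, Exec (moveD 1 R) (PolyTime.glue R (Prog.outSt [c x]) (tri R [] [] x))
      (tri R [] [c x] x) 5 := by
    intro x
    have e := moveD_exec (k := 1) (k' := R) (by omega) [c x]
      (PolyTime.glue R (Prog.outSt [c x]) (tri R [] [] x)) (by
        unfold PolyTime.glue
        rw [if_pos (by omega)]
        simp [Prog.outSt])
    refine (e.of_eq ?_).mono (by simp)
    unfold PolyTime.glue tri Prog.outSt Prog.inSt
    funext j
    by_cases h1 : j = R + 1
    · subst h1
      rw [update_of_ne (by omega), update_of_ne (by omega), if_neg (by omega), update_self,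
        update_self]
    · rw [update_of_ne h1]
      by_cases h2 : j = R
      · subst h2
        rw [update_self, update_self, if_neg (by omega), update_of_ne (by omega), update_self]
        simp
      · rw [update_of_ne h2, update_of_ne h2]
        by_cases h3 : j = 1
        · subst h3
          rw [update_self, update_of_ne (by omega)]
        · rw [update_of_ne h3]
          by_cases h4 : j < R
          · rw [if_pos h4, update_of_ne h3]
            by_cases h5 : j = 0
            · subst h5; simp
            · rw [update_of_ne h5]
          · rw [if_neg h4, update_of_ne h1, update_of_ne h2]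
  -- move the input back
  have a4 : ∀ x a, Exec (moveK (R + 1) 2 0) (tri R [] a x) (tri R x a [])
      (8 * x.length + 2) := by
    intro x a
    have e := moveK_exec (k := R + 1) (c := 2) (k' := 0) (by omega) (by omega) x (tri R [] a x)
      (by unfold tri; rw [update_self]) (by
        unfold tri Prog.inSt
        rw [update_of_ne (by omega), update_of_ne (by omega), update_of_ne (by omega)])
    refine e.of_eq ?_
    unfold tri Prog.inSt
    funext j
    by_cases h1 : j = R + 1
    · subst h1
      rw [update_of_ne (by omega), update_self, update_self]
    · rw [update_of_ne h1]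
      by_cases h2 : j = R
      · subst h2
        rw [update_self, update_of_ne (by omega), update_of_ne h1, update_of_ne h1, update_self]
      · rw [update_of_ne h2]
        by_cases h3 : j = 0
        · subst h3
          rw [update_self, update_self, update_of_ne (by omega), update_of_ne (by omega),
            update_of_ne (by omega), update_self]
          simp
        · rw [update_of_ne h3, update_of_ne h3, update_of_ne h1, update_of_ne h1,
            update_of_ne h2, update_of_ne h3]
  have a5 : ∀ x a, Exec (.pop R) (tri R x [a] []) (Prog.inSt x) 1 := by
    intro x a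
    refine (Exec.pop R _).of_eq ?_
    rw [← tri_nil R x hR]
    unfold tri
    rw [update_of_ne (by omega : R ≠ R + 1), update_self]
    funext j
    by_cases h1 : j = R + 1
    · subst h1; simp
    · by_cases h2 : j = R
      · subst h2; simp
      · simp [h1, h2]
  have a6 : ∀ x a, (tri R x [a] [] R).head? = some a := by
    intro x a
    unfold tri
    rw [update_of_ne (by omega : R ≠ R + 1), update_self]
    rfl
  refine ⟨.seq (.seq (moveD 0 2) (moveDD 2 0 (R + 1))) (.seq C (.seq (moveD 1 R)
    (.seq (moveK (R + 1) 2 0) (.ite R (.seq (.pop R) P) (.seq (.pop R) Q) .skip)))),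
    9 * X + 2 + (U + (5 + (8 * X + 2 + (1 + (T + W) + 1)))),
    fun x => ?_⟩
  have a7 : Exec (.ite R (.seq (.pop R) P) (.seq (.pop R) Q) .skip) (tri R x [c x] [])
      (Prog.outSt (if c x = true then f x else g x))
      (1 + (T.eval x.length + W.eval x.length) + 1) := by
    cases hcx : c x
    · rw [if_neg (by simp)]
      refine Exec.ite_false (by rw [a6]) (((a5 x false).seq (hQ x)).mono (by omega))
    · rw [if_pos rfl]
      refine Exec.ite_true (by rw [a6]) (((a5 x true).seq (hP x)).mono (by omega))
  refine ((a1 x).seq ((a2 x).seq ((a3 x).seq ((a4 x _).seq a7)))).mono ?_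
  simp only [Polynomial.eval_add, Polynomial.eval_mul, Polynomial.eval_X, Polynomial.eval_one,
      Polynomial.eval_ofNat]
  omega

end SIteAux

theorem pc_ite {c f g : List Bool → List Bool} (hc : PC c) (hf : PC f) (hg : PC g) :
    PC (fun x => if c x = [true] then f x else g x) := by
  have h := SIteAux.pc_ite_bit (c := fun x => decide (c x = [true])) (pc_isTrue.comp hc) hf hg
  exact h.congr fun x => by simp only [decide_eq_true_eq]

end Pool.Agent.SCS
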