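import Pool.Agent.SCS.Str
import Pool.Agent.SCS.SBasic
import Pool.Agent.SCS.SPair
import Pool.Agent.SCS.SAppend
import Pool.Agent.SCS.SIte

/-!
# Module SIter: iteration with a polynomial bound for the lengths

`PC.iterate` needs a function which does not increase the length.  The same proof gives
`pc_iterate_bdd`, where the lengths of all iterates are bounded by a polynomial.  It is applied to
the states `pairWord (un c) (pairWord (un b) y)` and the map which replaces `y` by the first
`b` bits of `f y`; here `b = B.eval |x|` and `c` is the number of iterations.
-/

set_option autoImplicit false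

namespace Pool.Agent.SCS

open Pool.Agent.PolyTime Pool.Agent.NegLim

namespace SIterAux

open Turing Function
open Polynomial (X C)

theorem iterLoop_bdd {f : List Bool → List Bool} {P : Prog} {T : ℕ} {R : ℕ} (hR : 2 < R)
    (hPR : Prog.regsLt R P) {N : ℕ}
    (hP : ∀ x, x.length ≤ N → Exec P (Prog.inSt x) (Prog.outSt (f x)) T) :
    ∀ (m : ℕ) (x : List Bool), (∀ k ≤ m, (f^[k] x).length ≤ N) →
      Exec (.loop R (.seq (.pop R) (.seq P (moveK 1 2 0)))) (tri R x (un m) [])
        (tri R (f^[m] x) [] []) (m * (T + 8 * N + 4) + 1) := by
  intro m
  induction m with
  | zero =>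
    intro x _
    refine (Exec.loop_nil ?_).mono (by omega)
    unfold tri
    rw [update_of_ne (by omega), update_self]
    rfl
  | succ m ih =>
    intro x hx
    have e1 : Exec (.pop R) (tri R x (un (m + 1)) []) (tri R x (un m) []) 1 := by
      refine (Exec.pop R _).of_eq ?_
      unfold tri
      rw [update_of_ne (by omega : R ≠ R + 1), update_self]
      funext j
      by_cases h1 : j = R + 1
      · subst h1; simp
      · by_cases h2 : j = R
        · subst h2; simp [un_succ]
        · simp [h1, h2]
    have hl : (f x).length ≤ N := hx 1 (by omega)
    have h0 : x.length ≤ N := hx 0 (by omega)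
    have e2 := step_exec hR hPR (hP x h0) (un m) []
    have e3 := ih (f x) (fun k hk => by
      have := hx (k + 1) (by omega)
      rwa [Function.iterate_succ_apply] at this)
    have hne : tri R x (un (m + 1)) [] R ≠ [] := by
      unfold tri
      rw [update_of_ne (by omega : R ≠ R + 1), update_self]
      simp
    refine (Exec.loop_cons hne (e1.seq e2) e3).mono ?_
    have : (m + 1) * (T + 8 * N + 4) = m * (T + 8 * N + 4) + (T + 8 * N + 4) := by ring
    rw [this]
    omega

theorem pc_iterate_bdd {f : List Bool → List Bool} {c : List Bool → ℕ} (B : Polynomial ℕ)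
    (hf : PC f) (hlen : ∀ x, ∀ k ≤ c x, (f^[k] x).length ≤ B.eval x.length)
    (hc : PC (fun x => List.replicate (c x) true)) : PC (fun x => f^[c x] x) := by
  obtain ⟨P, T, hP⟩ := hf
  obtain ⟨Q, U, hQ⟩ := hc
  set R := max 3 (max P.maxReg Q.maxReg) with hRdef
  have hR : 2 < R := by omega
  have hPR : Prog.regsLt R P := Prog.regsLt_mono (by omega) (Prog.regsLt_maxReg P)
  have hQR : Prog.regsLt R Q := Prog.regsLt_mono (by omega) (Prog.regsLt_maxReg Q)
  -- copy the input to `R + 1`
  have a1 : ∀ x, Exec (.seq (moveD 0 2) (moveDD 2 0 (R + 1))) (Prog.inSt x) (tri R x [] x)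
      (9 * x.length + 2) := by
    intro x
    have e1 := moveD_exec (k := 0) (k' := 2) (by omega) x (Prog.inSt x) (by simp [Prog.inSt])
    have e2 := moveDD_exec (k := 2) (k' := 0) (k'' := R + 1) (by omega) (by omega) (by omega)
      x.reverse (update (update (Prog.inSt x) 0 []) 2 (x.reverse ++ Prog.inSt x 2)) (by
        rw [update_self]; simp [Prog.inSt])
    refine ((e1.seq e2).of_eq ?_).mono (by rw [List.length_reverse]; omega)
    unfold tri Prog.inSt
    funext j
    by_cases h1 : j = R + 1
    · subst h1
      rw [update_self, update_self, update_of_ne (by omega : R + 1 ≠ 2),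
        update_of_ne (by omega : R + 1 ≠ 0), update_of_ne (by omega : R + 1 ≠ 0)]
      simp
    · rw [update_of_ne h1, update_of_ne h1]
      by_cases h2 : j = R
      · subst h2
        simp only [update_self]
        rw [update_of_ne (by omega), update_of_ne (by omega), update_of_ne (by omega),
          update_of_ne (by omega), update_of_ne (by omega)]
      · rw [update_of_ne h2]
        by_cases h3 : j = 0
        · subst h3; simp
        · rw [update_of_ne h3]
          by_cases h4 : j = 2
          · subst h4; simp
          · rw [update_of_ne h4, update_of_ne h4, update_of_ne h3, update_of_ne h3]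
  -- compute the counter
  have a2 : ∀ x, Exec Q (tri R x [] x) (PolyTime.glue R (Prog.outSt (un (c x))) (tri R [] [] x))
      (U.eval x.length) := by
    intro x
    have := (hQ x).glue hQR (tri R [] [] x)
    rwa [glue_inSt R hR] at this
  -- move the counter to `R`
  have a3 : ∀ x, Exec (moveU 1 R) (PolyTime.glue R (Prog.outSt (un (c x))) (tri R [] [] x))
      (tri R [] (un (c x)) x) (3 * c x + 1) := by
    intro x
    have e := moveU_exec (k := 1) (k' := R) (by omega) (c x)
      (PolyTime.glue R (Prog.outSt (un (c x))) (tri R [] [] x)) (by
        unfold PolyTime.glue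
        rw [if_pos (by omega)]
        simp [Prog.outSt])
    refine e.of_eq ?_
    unfold PolyTime.glue tri Prog.outSt Prog.inSt
    funext j
    by_cases h1 : j = R + 1
    · subst h1
      rw [update_of_ne (by omega), update_of_ne (by omega), if_neg (by omega), update_self,
        update_self]
    · rw [update_of_ne h1]
      by_cases h2 : j = R
      · subst h2
        rw [update_self, update_self, if_neg (by omega), update_of_ne (by omega), update_self]
        simp
      · rw [update_of_ne h2, update_of_ne h2]
        by_cases h3 : j = 1
        · subst h3
          rw [update_self, update_of_ne (by omega)]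
        · rw [update_of_ne h3]
          by_cases h4 : j < R
          · rw [if_pos h4, update_of_ne h3]
            by_cases h5 : j = 0
            · subst h5; simp
            · rw [update_of_ne h5]
          · rw [if_neg h4, update_of_ne h1, update_of_ne h2]
  -- move the input back
  have a4 : ∀ x a, Exec (moveK (R + 1) 2 0) (tri R [] a x) (tri R x a [])
      (8 * x.length + 2) := by
    intro x a
    have e := moveK_exec (k := R + 1) (c := 2) (k' := 0) (by omega) (by omega) x (tri R [] a x)
      (by unfold tri; rw [update_self]) (by
        unfold tri Prog.inSt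
        rw [update_of_ne (by omega), update_of_ne (by omega), update_of_ne (by omega)])
    refine e.of_eq ?_
    unfold tri Prog.inSt
    funext j
    by_cases h1 : j = R + 1
    · subst h1
      rw [update_of_ne (by omega), update_self, update_self]
    · rw [update_of_ne h1]
      by_cases h2 : j = R
      · subst h2
        rw [update_self, update_of_ne (by omega), update_of_ne h1, update_of_ne h1, update_self]
      · rw [update_of_ne h2]
        by_cases h3 : j = 0
        · subst h3
          rw [update_self, update_self, update_of_ne (by omega), update_of_ne (by omega),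
            update_of_ne (by omega), update_self]
          simp
        · rw [update_of_ne h3, update_of_ne h3, update_of_ne h1, update_of_ne h1,
            update_of_ne h2, update_of_ne h3]
  -- final move
  have a5 : ∀ y, Exec (moveK 0 2 1) (tri R y [] []) (Prog.outSt y) (8 * y.length + 2) := by
    intro y
    have e := moveK_exec (k := 0) (c := 2) (k' := 1) (by omega) (by omega) y (tri R y [] [])
      (by
        unfold tri Prog.inSt
        rw [update_of_ne (by omega), update_of_ne (by omega), update_self]) (by
        unfold tri Prog.inSt
        rw [update_of_ne (by omega), update_of_ne (by omega), update_of_ne (by omega)])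
    refine e.of_eq ?_
    unfold tri Prog.inSt Prog.outSt
    funext j
    by_cases h3 : j = 1
    · subst h3
      rw [update_self, update_self, update_of_ne (by omega), update_of_ne (by omega),
        update_of_ne (by omega), update_of_ne (by omega)]
      simp
    · rw [update_of_ne h3, update_of_ne h3]
      by_cases h4 : j = 0
      · subst h4; rw [update_self]
      · rw [update_of_ne h4]
        by_cases h1 : j = R + 1
        · subst h1; rw [update_self]
        · rw [update_of_ne h1]
          by_cases h2 : j = R
          · subst h2; rw [update_self]
          · rw [update_of_ne h2, update_of_ne h4]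
  have hcl : ∀ x, c x ≤ U.eval x.length := by
    intro x
    have := PC.length_le hQ x
    simpa using this
  refine ⟨.seq (.seq (moveD 0 2) (moveDD 2 0 (R + 1))) (.seq Q (.seq (moveU 1 R)
    (.seq (moveK (R + 1) 2 0) (.seq (.loop R (.seq (.pop R) (.seq P (moveK 1 2 0))))
      (moveK 0 2 1))))),
    9 * X + 2 + (U + (3 * U + 1 + (8 * X + 2 + (U * (T.comp B + 8 * B + 4) + 1 + (8 * B + 2))))),
    fun x => ?_⟩
  have a6 := iterLoop_bdd (f := f) (T := T.eval (B.eval x.length)) (N := B.eval x.length) hR hPR
    (fun y hy => (hP y).mono (eval_mono T hy)) (c x) x (hlen x)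
  refine ((a1 x).seq ((a2 x).seq ((a3 x).seq ((a4 x _).seq (a6.seq (a5 _)))))).mono ?_
  have h1 := hcl x
  have h2 := hlen x (c x) le_rfl
  simp only [Polynomial.eval_add, Polynomial.eval_mul, Polynomial.eval_X, Polynomial.eval_one,
      Polynomial.eval_ofNat, Polynomial.eval_comp]
  have h3 : c x * (T.eval (B.eval x.length) + 8 * B.eval x.length + 4) ≤
      U.eval x.length * (T.eval (B.eval x.length) + 8 * B.eval x.length + 4) :=
    Nat.mul_le_mul_right _ h1
  omega


/-! ### Truncation -/

/-- the number of `true`s at the beginning of the word -/
def lead (x : List Bool) : ℕ :=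
  ((Finset.range x.length).filter (fun i => ∀ j < i + 1, x.getD j false = true)).card

/-- the first `b` bits of `y` for the word `un b ++ false :: y` -/
def trunc (x : List Bool) : List Bool :=
  (List.range (min (lead x) (x.length - (lead x + 1)))).map
    (fun i => decide ((x.getD (lead x + 1 + i) false).toNat ≠ 0))

theorem lead_eq (b : ℕ) (y : List Bool) : lead (List.replicate b true ++ false :: y) = b := by
  unfold lead
  have : (Finset.range (List.replicate b true ++ false :: y).length).filter
      (fun i => ∀ j < i + 1, (List.replicate b true ++ false :: y).getD j false = true) =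
      Finset.range b := by
    ext i
    rw [Finset.mem_filter, Finset.mem_range, Finset.mem_range]
    constructor
    · rintro ⟨_, h⟩
      by_contra hi
      have := h b (by omega)
      rw [List.getD_eq_getElem?_getD, List.getElem?_append_right (by simp)] at this
      simp at this
    · intro hi
      refine ⟨by simp; omega, fun j hj => ?_⟩
      rw [List.getD_eq_getElem?_getD, List.getElem?_append_left (by simp; omega),
        List.getElem?_replicate, if_pos (by omega)]
      rfl
  rw [this, Finset.card_range]

theorem trunc_eq (b : ℕ) (y : List Bool) :
    trunc (List.replicate b true ++ false :: y) = y.take b := by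
  unfold trunc
  rw [lead_eq]
  have hlen : (List.replicate b true ++ false :: y).length - (b + 1) = y.length := by
    rw [List.length_append, List.length_replicate, List.length_cons]
    omega
  rw [hlen]
  apply List.ext_getElem
  · simp
  · intro i h1 h2
    have hi : i < b ∧ i < y.length := by
      rw [List.length_take] at h2
      omega
    rw [List.getElem_map, List.getElem_range, List.getElem_take]
    rw [List.getD_eq_getElem?_getD, List.getElem?_append_right (by simp; omega)]
    rw [List.length_replicate, show b + 1 + i - b = i + 1 by omega, List.getElem?_cons_succ,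
      List.getElem?_eq_getElem hi.2]
    cases y[i] <;> simp

theorem pf_lead : PF (fun x (_ : Unit) => lead x) := by
  unfold lead
  exact PF.count (α := Unit) (P := fun x (p : Unit × ℕ) => ∀ j < p.2 + 1, x.getD j false = true)
    PF.len (PD.forall_lt (PF.snd.add (PF.const 1)) (PD.bit PF.snd))

theorem pfBits_trunc : PFBits trunc := by
  refine ⟨fun x => min (lead x) (x.length - (lead x + 1)),
    fun x i => (x.getD (lead x + 1 + i) false).toNat, ?_, ?_, fun x => rfl⟩
  · have h := pf_lead.sub (pf_lead.sub (PF.len.sub (pf_lead.add (PF.const 1))))
    refine h.congr fun x a => ?_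
    show lead x - (lead x - (x.length - (lead x + 1))) = min (lead x) (x.length - (lead x + 1))
    omega
  · have h1 : PF (fun x (p : Unit × ℕ) => lead x) := pf_lead.fst
    exact ((h1.add (PF.const 1)).add PF.snd).inp

theorem length_trunc_le (x : List Bool) : (trunc x).length ≤ lead x := by
  unfold trunc
  simp

theorem pf_poly (B : Polynomial ℕ) : PF (fun x (_ : Unit) => B.eval x.length) := by
  induction B using Polynomial.induction_on' with
  | add p q hp hq => exact (hp.add hq).congr fun x a => by rw [Polynomial.eval_add]
  | monomial n a =>
    exact ((PF.const a).mul (PF.len.pow n)).congr fun x u => by rw [Polynomial.eval_monomial]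

theorem pc_poly (B : Polynomial ℕ) :
    PC (fun x => List.replicate (B.eval x.length) true) := by
  refine PFBits.pc ⟨fun x => B.eval x.length, fun _ _ => 1, pf_poly B, PF.const 1, fun x => ?_⟩
  simp

/-- the step on the states -/
def step (f : List Bool → List Bool) (S : List Bool) : List Bool :=
  pairWord (fstW S) (pairWord (fstW (sndW S))
    (trunc (List.replicate (fstW (sndW S)).length true ++ false :: f (sndW (sndW S)))))

theorem step_pair (f : List Bool → List Bool) (u v y : List Bool) :
    step f (pairWord u (pairWord v y)) = pairWord u (pairWord v ((f y).take v.length)) := by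
  unfold step
  rw [fstW_pairWord, sndW_pairWord, fstW_pairWord, sndW_pairWord, trunc_eq]

theorem fstW_step (f : List Bool → List Bool) (S : List Bool) : fstW (step f S) = fstW S := by
  unfold step
  rw [fstW_pairWord]

theorem fstW_sndW_step (f : List Bool → List Bool) (S : List Bool) :
    fstW (sndW (step f S)) = fstW (sndW S) := by
  unfold step
  rw [sndW_pairWord, fstW_pairWord]

theorem fstW_iter (f : List Bool → List Bool) (k : ℕ) (S : List Bool) :
    fstW (sndW ((step f)^[k] S)) = fstW (sndW S) ∧ fstW ((step f)^[k] S) = fstW S := by
  induction k with
  | zero => exact ⟨rfl, rfl⟩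
  | succ k ih =>
    rw [Function.iterate_succ_apply', fstW_sndW_step, fstW_step]
    exact ih

theorem length_step_le (f : List Bool → List Bool) (S : List Bool) :
    (step f S).length ≤ 2 * (fstW S).length + 3 * (fstW (sndW S)).length + 2 := by
  unfold step
  rw [length_pairWord, length_pairWord, trunc_eq, List.length_take]
  omega

theorem length_iter_le (f : List Bool → List Bool) (k : ℕ) (S : List Bool) :
    ((step f)^[k] S).length ≤ 3 * S.length + 2 := by
  rcases k with _ | k
  · simp only [Function.iterate_zero, id_eq]
    omega
  · rw [Function.iterate_succ_apply']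
    have h1 := length_step_le f ((step f)^[k] S)
    obtain ⟨h2, h3⟩ := fstW_iter f k S
    rw [h2, h3] at h1
    have h4 := two_mul_length_fstW_le S
    have h5 := two_mul_length_fstW_le (sndW S)
    have h6 := length_sndW_le S
    omega

theorem pc_step {f : List Bool → List Bool} (hf : PC f) : PC (step f) :=
  pc_pair pc_fstW (pc_pair (pc_fstW.comp pc_sndW)
    (pfBits_trunc.pc.comp (pc_append (pc_ones.comp (pc_fstW.comp pc_sndW))
      (pc_cons false (hf.comp (pc_sndW.comp pc_sndW))))))

theorem iter_eq (f : List Bool → List Bool) (u v x : List Bool) (m : ℕ) :
    (∀ k ≤ m, (f^[k] x).length ≤ v.length) → ∀ k ≤ m,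
    (step f)^[k] (pairWord u (pairWord v x)) = pairWord u (pairWord v (f^[k] x)) := by
  intro h k
  induction k with
  | zero => intro _; rfl
  | succ k ih =>
    intro hk
    rw [Function.iterate_succ_apply', ih (by omega), step_pair, Function.iterate_succ_apply',
      List.take_of_length_le]
    have := h (k + 1) hk
    rwa [Function.iterate_succ_apply'] at this

end SIterAux

open SIterAux in
theorem exists_iter {f : List Bool → List Bool} {c : List Bool → ℕ} (hf : PC f)
    (hc : PC (fun x => List.replicate (c x) true)) (B : Polynomial ℕ) :
    ∃ g, PC g ∧ ∀ x, (∀ k ≤ c x, (f^[k] x).length ≤ B.eval x.length) → g x = f^[c x] x := by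
  have hF : PC (fun S => (step f)^[(fstW S).length] S) := by
    refine pc_iterate_bdd (3 * Polynomial.X + 2) (pc_step hf) (fun S k _ => ?_)
      (pc_ones.comp pc_fstW)
    have := length_iter_le f k S
    simpa only [Polynomial.eval_add, Polynomial.eval_mul, Polynomial.eval_X,
      Polynomial.eval_ofNat] using this
  have hs : PC (fun x => pairWord (List.replicate (c x) true)
      (pairWord (List.replicate (B.eval x.length) true) x)) :=
    pc_pair hc (pc_pair (pc_poly B) pc_id)
  refine ⟨_, pc_sndW.comp (pc_sndW.comp (hF.comp hs)), fun x hx => ?_⟩
  show sndW (sndW ((step f)^[(fstW (pairWord (List.replicate (c x) true)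
      (pairWord (List.replicate (B.eval x.length) true) x))).length] (pairWord
      (List.replicate (c x) true) (pairWord (List.replicate (B.eval x.length) true) x)))) = _
  rw [fstW_pairWord, List.length_replicate, iter_eq f _ _ x (c x) (by
    intro k hk
    rw [List.length_replicate]
    exact hx k hk) (c x) le_rfl, sndW_pairWord, sndW_pairWord]

end Pool.Agent.SCS
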