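import Pool.Agent.SCS.Str
import Pool.Agent.SCS.SBasic
import Pool.Agent.SCS.SPair
import Pool.Agent.SCS.SAppend

/-!
# Module SLaw: the laws for the codes of lists

`codeL e (a :: l) = pairWord (e a) (codeL e l)`, so `cons` is the identity, `head = fstW`, `tail = sndW`.  For bits: `e b = [b]`, `eL = id`;
`cons`: `pairWord [b] l = true :: b :: false :: l ↦ b :: l` is `x ↦ (x.drop 1).take 1 ++ x.drop 3`; `head`: `take 1`; `tail`: `drop 1`.
-/

set_option autoImplicit false

namespace Pool.Agent.SCS

open Pool.Agent.PolyTime Pool.Agent.NegLim

namespace SLawAux

theorem pairWord_append (x w w' : List Bool) : pairWord x (w ++ w') = pairWord x w ++ w' := by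
  simp [pairWord]

theorem codeL_nil_iff {α : Type} (e : α → List Bool) (l : List α) :
    codeL e l = [] → l = [] := by
  cases l with
  | nil => intro _; rfl
  | cons a l =>
    intro h
    have h1 := congrArg List.length h
    simp only [codeL, length_pairWord, List.length_nil] at h1
    omega

end SLawAux

theorem codeL_law {α : Type} (e : α → List Bool) (he : Function.Injective e) :
    ListLaw e (codeL e) where
  inj := he
  injL := by
    intro l
    induction l with
    | nil =>
      intro l' h
      exact (SLawAux.codeL_nil_iff e l' h.symm).symm
    | cons a l ih =>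
      intro l' h
      cases l' with
      | nil => exact SLawAux.codeL_nil_iff e _ h
      | cons a' l' =>
        obtain ⟨h1, h2⟩ := pairWord_inj h
        rw [he h1, ih h2]
  app := by
    intro l l'
    induction l with
    | nil => rfl
    | cons a l ih =>
      show pairWord (e a) (codeL e (l ++ l')) = pairWord (e a) (codeL e l) ++ codeL e l'
      rw [ih, SLawAux.pairWord_append]
  one_pos := by
    intro a
    simp only [codeL, length_pairWord]
    omega
  head_le := by
    intro a
    simp only [codeL, length_pairWord]
    omega
  le_head := by
    intro a
    simp only [codeL, length_pairWord, List.length_nil]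
    omega
  cons := ⟨fun x => x, pc_id, fun _ _ => rfl⟩
  head := ⟨fstW, pc_fstW, fun a l => fstW_pairWord _ _⟩
  tail := ⟨sndW, pc_sndW, fun a l => sndW_pairWord _ _⟩

theorem bool_law : ListLaw (fun b : Bool => [b]) (fun l => l) where
  inj := by
    intro a b h
    simpa using h
  injL := fun _ _ h => h
  app := fun _ _ => rfl
  one_pos := by intro a; simp
  head_le := by intro a; simp
  le_head := by intro a; simp
  cons := by
    refine ⟨fun x => ((fun y => y.take 1) ((fun z => z.drop 1) x)) ++ x.drop 3,
      pc_append ?_ (pc_drop 3), ?_⟩
    · exact (pc_take 1).comp (pc_drop 1)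
    · intro a l
      simp [pairWord]
  head := ⟨fun x => x.take 1, pc_take 1, fun a l => by simp⟩
  tail := ⟨fun x => x.drop 1, pc_drop 1, fun a l => by simp⟩

theorem un_injective : Function.Injective (fun n : ℕ => List.replicate n true) := by
  intro a b h
  have h1 := congrArg List.length h
  simpa using h1

end Pool.Agent.SCS
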