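import Mathlib
import Pool.Agent.Lib.PolyTime.Iter
import Pool.Agent.NegLim.NPDefs

/-!
# Pairs and lists of words: definitions

`pairWord x w` (`NegLim/NPDefs.lean`): every bit of `x` is preceded by `true`, then come `false` and `w`.
`fstW`, `sndW` are its (total) decoders.  `codeL e` is the code of a list of objects with codes `e a`.
-/

set_option autoImplicit false

namespace Pool.Agent.SCS

open Pool.Agent.PolyTime Pool.Agent.NegLim

/-- the first component of a coded pair -/
def fstW : List Bool → List Bool
  | true :: b :: l => b :: fstW l
  | _ => []

/-- the second component of a coded pair -/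
def sndW : List Bool → List Bool
  | true :: _ :: l => sndW l
  | false :: l => l
  | _ => []

/-- the code of a list -/
def codeL {α : Type} (e : α → List Bool) : List α → List Bool
  | [] => []
  | a :: l => pairWord (e a) (codeL e l)

/-- The laws for the code `eL` of lists of objects with codes `e a`. -/
structure ListLaw {α : Type} (e : α → List Bool) (eL : List α → List Bool) : Prop where
  inj : Function.Injective e
  injL : Function.Injective eL
  app : ∀ l l', eL (l ++ l') = eL l ++ eL l'
  one_pos : ∀ a, 0 < (eL [a]).length
  head_le : ∀ a, (e a).length ≤ (eL [a]).length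
  le_head : ∀ a, (eL [a]).length ≤ 2 * (e a).length + 1
  cons : ∃ g, PC g ∧ ∀ a l, g (pairWord (e a) (eL l)) = eL (a :: l)
  head : ∃ g, PC g ∧ ∀ a l, g (eL (a :: l)) = e a
  tail : ∃ g, PC g ∧ ∀ a l, g (eL (a :: l)) = eL l

end Pool.Agent.SCS
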