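import Pool.Agent.SCS.Enc
import Pool.Agent.SCS.SIte
import Pool.Agent.SCS.SEq

/-!
# Module TBasic: first closure properties of `PolyF`, `PolyBd`

`comp`: `PC.comp`.  `pair`: `pc_pair`.  `ite`: `pc_ite` (the code of a `Bool` is `[b]`, so `g x = [true]` iff it is `true`).  `decEq`: `enc` is injective, `pc_eqW` after `pc_pair`.
`PolyF.szBd`: `PC.length_le`.
-/

set_option autoImplicit false

namespace Pool.Agent.SCS

open Pool.Agent.PolyTime Pool.Agent.NegLim

variable {α β γ δ : Type} [Enc α] [Enc β] [Enc γ] [Enc δ]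

theorem PolyF.id : PolyF (fun a : α => a) := by
  exact ⟨_, pc_id, fun _ => rfl⟩

theorem PolyF.const (b : β) : PolyF (fun _ : α => b) := by
  exact ⟨_, pc_const (enc b), fun _ => rfl⟩

theorem PolyF.comp {g : β → γ} {f : α → β} (hg : PolyF g) (hf : PolyF f) :
    PolyF (fun a => g (f a)) := by
  obtain ⟨g', hg1, hg2⟩ := hg
  obtain ⟨f', hf1, hf2⟩ := hf
  refine ⟨fun x => g' (f' x), PC.comp hg1 hf1, fun a => ?_⟩
  change g' (f' (enc a)) = enc (g (f a))
  rw [hf2, hg2]

theorem PolyF.congr {f g : α → β} (hf : PolyF f) (h : ∀ a, f a = g a) : PolyF g := by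
  obtain ⟨f', hf1, hf2⟩ := hf
  exact ⟨f', hf1, fun a => by rw [hf2, h]⟩

theorem PolyF.pair {f : α → β} {g : α → γ} (hf : PolyF f) (hg : PolyF g) :
    PolyF (fun a => (f a, g a)) := by
  obtain ⟨f', hf1, hf2⟩ := hf
  obtain ⟨g', hg1, hg2⟩ := hg
  exact ⟨_, pc_pair hf1 hg1, fun a => by rw [hf2, hg2]; rfl⟩

theorem PolyF.fst {f : α → β × γ} (hf : PolyF f) : PolyF (fun a => (f a).1) := by
  obtain ⟨f', hf1, hf2⟩ := hf
  refine ⟨_, PC.comp pc_fstW hf1, fun a => ?_⟩
  rw [hf2, show f a = ((f a).1, (f a).2) from rfl, enc_pair, fstW_pairWord]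

theorem PolyF.snd {f : α → β × γ} (hf : PolyF f) : PolyF (fun a => (f a).2) := by
  obtain ⟨f', hf1, hf2⟩ := hf
  refine ⟨_, PC.comp pc_sndW hf1, fun a => ?_⟩
  rw [hf2, show f a = ((f a).1, (f a).2) from rfl, enc_pair, sndW_pairWord]

theorem polyF_word {f : List Bool → List Bool} : PolyF f ↔ PC f := by
  constructor
  · rintro ⟨g, hg, h⟩
    exact PC.congr hg (fun x => h x)
  · intro h
    exact ⟨f, h, fun _ => rfl⟩

theorem PolyF.ite {c : α → Bool} {f g : α → β} (hc : PolyF c) (hf : PolyF f) (hg : PolyF g) :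
    PolyF (fun a => if c a = true then f a else g a) := by
  obtain ⟨c', hc1, hc2⟩ := hc
  obtain ⟨f', hf1, hf2⟩ := hf
  obtain ⟨g', hg1, hg2⟩ := hg
  refine ⟨_, pc_ite hc1 hf1 hg1, fun a => ?_⟩
  have h1 : c' (enc a) = [c a] := hc2 a
  change (if c' (enc a) = [true] then f' (enc a) else g' (enc a))
    = enc (if c a = true then f a else g a)
  rw [h1, hf2, hg2]
  cases c a <;> rfl

theorem PolyF.not {c : α → Bool} (hc : PolyF c) : PolyF (fun a => !c a) := by
  refine (hc.ite (PolyF.const false) (PolyF.const true)).congr fun a => ?_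
  cases c a <;> simp

theorem PolyF.and {c d : α → Bool} (hc : PolyF c) (hd : PolyF d) : PolyF (fun a => c a && d a) := by
  refine (hc.ite hd (PolyF.const false)).congr fun a => ?_
  cases c a <;> simp

theorem PolyF.or {c d : α → Bool} (hc : PolyF c) (hd : PolyF d) : PolyF (fun a => c a || d a) := by
  refine (hc.ite (PolyF.const true) hd).congr fun a => ?_
  cases c a <;> simp

theorem PolyF.xor {c d : α → Bool} (hc : PolyF c) (hd : PolyF d) :
    PolyF (fun a => Bool.xor (c a) (d a)) := by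
  refine (hc.ite hd.not hd).congr fun a => ?_
  cases c a <;> simp

/-- equality of values -/
theorem PolyF.beq {f g : α → β} [DecidableEq β] (hf : PolyF f) (hg : PolyF g) :
    PolyF (fun a => decide (f a = g a)) := by
  obtain ⟨f', hf1, hf2⟩ := hf
  obtain ⟨g', hg1, hg2⟩ := hg
  refine ⟨_, PC.comp pc_eqW (pc_pair hf1 hg1), fun a => ?_⟩
  rw [fstW_pairWord, sndW_pairWord, hf2, hg2]
  have h1 : (enc (f a) = enc (g a)) ↔ f a = g a := enc_injective.eq_iff
  simp only [h1]
  rfl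

/-- the size of a value, as a number -/
theorem PolyF.size {f : α → β} (hf : PolyF f) : PolyF (fun a => sz (f a)) := by
  obtain ⟨f', hf1, hf2⟩ := hf
  refine ⟨_, PC.comp pc_ones hf1, fun a => ?_⟩
  rw [hf2]
  rfl

theorem PolyF.szBd {f : α → β} (hf : PolyF f) : PolyBd (fun a => sz (f a)) := by
  obtain ⟨f', ⟨P, T, hP⟩, hf2⟩ := hf
  refine ⟨T, fun a => ?_⟩
  have h1 := PC.length_le hP (enc a)
  rw [hf2] at h1
  exact h1

/-- the code itself (the code of a word is the word) -/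
theorem PolyF.encF {f : α → β} (hf : PolyF f) : PolyF (fun a => (enc (f a) : List Bool)) := by
  obtain ⟨f', hf1, hf2⟩ := hf
  exact ⟨f', hf1, fun a => hf2 a⟩

/-- a polynomial-time function as a function on words -/
theorem PolyF.exists_word {f : α → List Bool} (hf : PolyF f) :
    ∃ g : List Bool → List Bool, PolyF g ∧ ∀ a, g (enc a) = f a := by
  obtain ⟨f', hf1, hf2⟩ := hf
  exact ⟨f', polyF_word.2 hf1, fun a => hf2 a⟩

theorem PolyBd.mono {h h' : α → ℕ} (hh : PolyBd h) (hle : ∀ a, h' a ≤ h a) : PolyBd h' := by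
  obtain ⟨P, hP⟩ := hh
  exact ⟨P, fun a => (hle a).trans (hP a)⟩

theorem PolyBd.const (c : ℕ) : PolyBd (fun _ : α => c) := by
  exact ⟨Polynomial.C c, fun a => by simp⟩

theorem PolyBd.sz : PolyBd (fun a : α => sz a) := by
  exact ⟨Polynomial.X, fun a => by simp⟩

theorem PolyBd.add {h h' : α → ℕ} (hh : PolyBd h) (hh' : PolyBd h') :
    PolyBd (fun a => h a + h' a) := by
  obtain ⟨P, hP⟩ := hh
  obtain ⟨Q, hQ⟩ := hh'
  exact ⟨P + Q, fun a => by rw [Polynomial.eval_add]; exact add_le_add (hP a) (hQ a)⟩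

theorem PolyBd.mul {h h' : α → ℕ} (hh : PolyBd h) (hh' : PolyBd h') :
    PolyBd (fun a => h a * h' a) := by
  obtain ⟨P, hP⟩ := hh
  obtain ⟨Q, hQ⟩ := hh'
  exact ⟨P * Q, fun a => by rw [Polynomial.eval_mul]; exact Nat.mul_le_mul (hP a) (hQ a)⟩

theorem PolyBd.pow {h : α → ℕ} (hh : PolyBd h) (k : ℕ) : PolyBd (fun a => h a ^ k) := by
  obtain ⟨P, hP⟩ := hh
  exact ⟨P ^ k, fun a => by rw [Polynomial.eval_pow]; exact Nat.pow_le_pow_left (hP a) k⟩

theorem PolyBd.comp {h : β → ℕ} {f : α → β} (hh : PolyBd h) (hf : PolyF f) :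
    PolyBd (fun a => h (f a)) := by
  obtain ⟨P, hP⟩ := hh
  obtain ⟨Q, hQ⟩ := hf.szBd
  exact ⟨P.comp Q, fun a => by
    rw [Polynomial.eval_comp]
    exact (hP (f a)).trans (eval_mono P (hQ a))⟩

/-- a polynomial of a polynomially bounded function -/
theorem PolyBd.eval {h : α → ℕ} (hh : PolyBd h) (P : Polynomial ℕ) :
    PolyBd (fun a => P.eval (h a)) := by
  obtain ⟨Q, hQ⟩ := hh
  exact ⟨P.comp Q, fun a => by
    rw [Polynomial.eval_comp]
    exact eval_mono P (hQ a)⟩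

end Pool.Agent.SCS
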