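import Pool.Agent.SCS.TBasic
import Pool.Agent.SCS.TSize

/-!
# Module TList: constructors and case distinction for lists and numbers

`cons`: `ListLaw.cons` after `pc_pair`; `listCase`: `ListLaw.head`, `ListLaw.tail`, `pc_isNil` (`encL l = []` iff `l = []`, `injL` and `encL_nil`), `pc_ite`.
Numbers are coded in unary: `succ` is `pc_cons true`, `pred` is `pc_drop 1`, `natCase` like `listCase`.  `append`: `ListLaw.app`, `pc_append`.
-/

set_option autoImplicit false

namespace Pool.Agent.SCS

open Pool.Agent.PolyTime Pool.Agent.NegLim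

variable {α β γ : Type} [Enc α] [Enc β] [Enc γ]

namespace TListAux

theorem encL_eq_nil {l : List β} : encL l = [] ↔ l = [] := by
  constructor
  · intro h
    exact Enc.law.injL (h.trans encL_nil.symm)
  · rintro rfl
    exact encL_nil

/-- case distinction on an empty word, on the level of words -/
theorem pc_nilCase {c f g : List Bool → List Bool} (hc : PC c) (hf : PC f) (hg : PC g) :
    PC (fun x => if c x = [] then f x else g x) := by
  have h := pc_ite (pc_isNil.comp hc) hf hg
  have he : (fun x => if c x = [] then f x else g x)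
      = fun x => if [decide (c x = [])] = [true] then f x else g x := by
    funext x
    by_cases hx : c x = []
    · rw [if_pos hx, if_pos (by simp [hx])]
    · rw [if_neg hx, if_neg (by simp [hx])]
  rw [he]
  exact h

end TListAux

open TListAux

theorem PolyF.cons {f : α → β} {l : α → List β} (hf : PolyF f) (hl : PolyF l) :
    PolyF (fun a => f a :: l a) := by
  obtain ⟨g1, h1, e1⟩ := hf
  obtain ⟨g2, h2, e2⟩ := hl
  obtain ⟨g, hg, e⟩ := (Enc.law (α := β)).cons
  refine ⟨fun x => g (pairWord (g1 x) (g2 x)), hg.comp (pc_pair h1 h2), fun a => ?_⟩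
  show g (pairWord (g1 (enc a)) (g2 (enc a))) = _
  rw [e1, e2]
  exact e (f a) (l a)

theorem PolyF.singleton {f : α → β} (hf : PolyF f) : PolyF (fun a => [f a]) :=
  PolyF.cons hf (PolyF.const [])

theorem PolyF.append {l l' : α → List β} (hl : PolyF l) (hl' : PolyF l') :
    PolyF (fun a => l a ++ l' a) := by
  obtain ⟨g1, h1, e1⟩ := hl
  obtain ⟨g2, h2, e2⟩ := hl'
  refine ⟨fun x => g1 x ++ g2 x, pc_append h1 h2, fun a => ?_⟩
  show g1 (enc a) ++ g2 (enc a) = _
  rw [e1, e2]
  exact (Enc.law.app (l a) (l' a)).symm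

theorem PolyF.tail {l : α → List β} (hl : PolyF l) : PolyF (fun a => (l a).tail) := by
  obtain ⟨g1, h1, e1⟩ := hl
  obtain ⟨g, hg, e⟩ := (Enc.law (α := β)).tail
  refine ⟨fun x => if g1 x = [] then [] else g (g1 x), pc_nilCase h1 (pc_const []) (hg.comp h1),
    fun a => ?_⟩
  show (if g1 (enc a) = [] then [] else g (g1 (enc a))) = encL (l a).tail
  rw [e1, enc_list]
  rcases l a with _ | ⟨b, t⟩
  · rw [if_pos encL_nil]
    exact (encL_nil (α := β)).symm
  · rw [if_neg (fun h => by simpa using encL_eq_nil.mp h)]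
    exact e b t

theorem PolyF.headD {l : α → List β} (hl : PolyF l) (d : β) :
    PolyF (fun a => (l a).headD d) := by
  obtain ⟨g1, h1, e1⟩ := hl
  obtain ⟨g, hg, e⟩ := (Enc.law (α := β)).head
  refine ⟨fun x => if g1 x = [] then enc d else g (g1 x),
    pc_nilCase h1 (pc_const (enc d)) (hg.comp h1), fun a => ?_⟩
  show (if g1 (enc a) = [] then enc d else g (g1 (enc a))) = enc ((l a).headD d)
  rw [e1, enc_list]
  rcases l a with _ | ⟨b, t⟩
  · rw [if_pos encL_nil]
    rfl
  · rw [if_neg (fun h => by simpa using encL_eq_nil.mp h)]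
    exact e b t

theorem PolyF.isEmpty {l : α → List β} (hl : PolyF l) : PolyF (fun a => (l a).isEmpty) := by
  obtain ⟨g1, h1, e1⟩ := hl
  refine ⟨fun x => [decide (g1 x = [])], pc_isNil.comp h1, fun a => ?_⟩
  show [decide (g1 (enc a) = [])] = [(l a).isEmpty]
  rw [e1, enc_list]
  rcases l a with _ | ⟨b, t⟩
  · simp [encL_nil]
  · simp [encL_eq_nil]

theorem PolyF.listCase {l : α → List β} {f : α → γ} {g : α × β × List β → γ} (hl : PolyF l)
    (hf : PolyF f) (hg : PolyF g) :
    PolyF (fun a => match l a with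
      | [] => f a
      | b :: t => g (a, b, t)) := by
  obtain ⟨g1, h1, e1⟩ := hl
  obtain ⟨g2, h2, e2⟩ := hf
  obtain ⟨g3, h3, e3⟩ := hg
  obtain ⟨gh, hh, eh⟩ := (Enc.law (α := β)).head
  obtain ⟨gt, ht, et⟩ := (Enc.law (α := β)).tail
  refine ⟨fun x => if g1 x = [] then g2 x else g3 (pairWord x (pairWord (gh (g1 x)) (gt (g1 x)))),
    pc_nilCase h1 h2 (h3.comp (pc_pair pc_id (pc_pair (hh.comp h1) (ht.comp h1)))),
    fun a => ?_⟩
  show (if g1 (enc a) = [] then g2 (enc a)
    else g3 (pairWord (enc a) (pairWord (gh (g1 (enc a))) (gt (g1 (enc a)))))) =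
      enc (match l a with
      | [] => f a
      | b :: t => g (a, b, t))
  rw [e1, enc_list]
  rcases l a with _ | ⟨b, t⟩
  · rw [if_pos encL_nil]
    exact e2 a
  · rw [if_neg (fun h => by simpa using encL_eq_nil.mp h)]
    have h4 : gh (encL (b :: t)) = enc b := eh b t
    have h5 : gt (encL (b :: t)) = encL t := et b t
    rw [h4, h5]
    exact e3 (a, b, t)

theorem PolyF.succ {n : α → ℕ} (hn : PolyF n) : PolyF (fun a => n a + 1) := by
  obtain ⟨g1, h1, e1⟩ := hn
  refine ⟨fun x => true :: g1 x, pc_cons true h1, fun a => ?_⟩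
  show true :: g1 (enc a) = _
  rw [e1, enc_nat, enc_nat, List.replicate_succ]

theorem PolyF.pred {n : α → ℕ} (hn : PolyF n) : PolyF (fun a => n a - 1) := by
  obtain ⟨g1, h1, e1⟩ := hn
  refine ⟨fun x => (g1 x).drop 1, (pc_drop 1).comp h1, fun a => ?_⟩
  show (g1 (enc a)).drop 1 = _
  rw [e1, enc_nat, enc_nat, List.drop_replicate]

theorem PolyF.natCase {n : α → ℕ} {f : α → γ} {g : α × ℕ → γ} (hn : PolyF n)
    (hf : PolyF f) (hg : PolyF g) :
    PolyF (fun a => match n a with
      | 0 => f a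
      | m + 1 => g (a, m)) := by
  obtain ⟨g1, h1, e1⟩ := hn
  obtain ⟨g2, h2, e2⟩ := hf
  obtain ⟨g3, h3, e3⟩ := hg
  refine ⟨fun x => if g1 x = [] then g2 x else g3 (pairWord x ((g1 x).drop 1)),
    pc_nilCase h1 h2 (h3.comp (pc_pair pc_id ((pc_drop 1).comp h1))), fun a => ?_⟩
  show (if g1 (enc a) = [] then g2 (enc a) else g3 (pairWord (enc a) ((g1 (enc a)).drop 1))) =
      enc (match n a with
      | 0 => f a
      | m + 1 => g (a, m))
  rw [e1, enc_nat]
  rcases n a with _ | m
  · rw [if_pos List.replicate_zero]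
    exact e2 a
  · rw [if_neg (by simp [List.replicate_succ]), List.drop_replicate, Nat.add_sub_cancel]
    exact e3 (a, m)

end Pool.Agent.SCS
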