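import Pool.Agent.SCS.TBasic
import Pool.Agent.SCS.TSize
import Pool.Agent.SCS.TList
import Pool.Agent.SCS.SIter

/-!
# Module TIter: iteration and folding

`iter`: let `gn`, `gs`, `gf` be programs for `n`, `s`, `f`.  Apply `exists_iter` to `F X = pairWord (fstW X) (gf X)`, `c X = |gn (fstW X)|` (`PC` by `pc_ones`) and a polynomial bound:
`F^[k] (enc (a, s a)) = enc (a, (fun x => f (a, x))^[k] (s a))`, `sz (a, x) = 2 sz a + 1 + sz x`, `sz a ≤ sz (a, s a)`.  Then take `sndW`.
`iter_add`: the sizes are bounded by `sz (s a) + n a * h a` (and `n a = sz (n a)` is polynomially bounded by `PolyF.szBd`).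
`foldl`: iterate `sz (l a)` times (`PolyF.size`) the step `(a, (t, x)) ↦ match t with | [] => (t, x) | b :: t' => (t', f (a, x, b))` from `(l a, s a)`; after `k` steps the state is
`((l a).drop k, ((l a).take k).foldl ...)`; `length_le_sz`.
-/

set_option autoImplicit false

namespace Pool.Agent.SCS

open Pool.Agent.PolyTime Pool.Agent.NegLim

variable {α β γ σ : Type} [Enc α] [Enc β] [Enc γ] [Enc σ]

theorem PolyF.iter {n : α → ℕ} {s : α → σ} {f : α × σ → σ} (hn : PolyF n) (hs : PolyF s)
    (hf : PolyF f) {B : α → ℕ} (hB : PolyBd B)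
    (h : ∀ a, ∀ k ≤ n a, sz ((fun x => f (a, x))^[k] (s a)) ≤ B a) :
    PolyF (fun a => (fun x => f (a, x))^[n a] (s a)) := by
  obtain ⟨gn, hgn, egn⟩ := hn
  obtain ⟨gs, hgs, egs⟩ := hs
  obtain ⟨gf, hgf, egf⟩ := hf
  obtain ⟨PB, hPB⟩ := hB
  have hF : PC (fun X => pairWord (fstW X) (gf X)) := pc_pair pc_fstW hgf
  have hc : PC (fun X => List.replicate ((gn (fstW X)).length) true) :=
    pc_ones.comp (hgn.comp pc_fstW)
  obtain ⟨g, hg, eg⟩ := exists_iter hF hc (2 * Polynomial.X + 1 + PB)
  refine ⟨fun x => sndW (g (pairWord x (gs x))),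
    pc_sndW.comp (hg.comp (pc_pair pc_id hgs)), fun a => ?_⟩
  have hit : ∀ (k : ℕ) (x : σ), (fun X => pairWord (fstW X) (gf X))^[k]
      (pairWord (enc a) (enc x)) = pairWord (enc a) (enc ((fun x => f (a, x))^[k] x)) := by
    intro k
    induction k with
    | zero => intro x; rfl
    | succ k ih =>
      intro x
      rw [Function.iterate_succ_apply, Function.iterate_succ_apply, ← ih]
      simp only [fstW_pairWord]
      rw [← enc_pair a x, egf]
  have hn' : (gn (fstW (pairWord (enc a) (enc (s a))))).length = n a := by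
    rw [fstW_pairWord, egn]
    exact sz_nat (n a)
  have hx := eg (pairWord (enc a) (enc (s a))) (by
    rw [hn']
    intro k hk
    rw [hit, length_pairWord, length_pairWord]
    have h1 : (enc ((fun x => f (a, x))^[k] (s a))).length ≤ PB.eval (sz a) :=
      (h a k hk).trans (hPB a)
    have h2 : PB.eval (sz a) ≤ PB.eval (2 * (enc a).length + 1 + (enc (s a)).length) := by
      apply eval_mono
      unfold sz
      omega
    simp only [Polynomial.eval_add, Polynomial.eval_mul, Polynomial.eval_X,
      Polynomial.eval_ofNat, Polynomial.eval_one]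
    omega)
  rw [hn', hit] at hx
  change sndW (g (pairWord (enc a) (gs (enc a)))) = _
  rw [egs, hx, sndW_pairWord]

/-- iteration of a step which adds at most `h a` to the size -/
theorem PolyF.iter_add {n : α → ℕ} {s : α → σ} {f : α × σ → σ} (hn : PolyF n) (hs : PolyF s)
    (hf : PolyF f) {h : α → ℕ} (hh : PolyBd h) (hle : ∀ a x, sz (f (a, x)) ≤ sz x + h a) :
    PolyF (fun a => (fun x => f (a, x))^[n a] (s a)) := by
  refine hn.iter hs hf (B := fun a => sz (s a) + n a * h a)
    (hs.szBd.add (PolyBd.mul (hn.szBd.mono fun a => (sz_nat (n a)).ge) hh)) ?_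
  intro a k hk
  have key : ∀ k, sz ((fun x => f (a, x))^[k] (s a)) ≤ sz (s a) + k * h a := by
    intro k
    induction k with
    | zero => simp
    | succ k ih =>
      rw [Function.iterate_succ_apply']
      have := hle a ((fun x => f (a, x))^[k] (s a))
      rw [Nat.succ_mul]
      omega
  exact (key k).trans (Nat.add_le_add_left (Nat.mul_le_mul_right _ hk) _)

theorem PolyF.foldl {l : α → List β} {s : α → σ} {f : α × σ × β → σ} (hl : PolyF l)
    (hs : PolyF s) (hf : PolyF f) {B : α → ℕ} (hB : PolyBd B)
    (h : ∀ a, ∀ t, t <+: l a → sz (t.foldl (fun x b => f (a, x, b)) (s a)) ≤ B a) :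
    PolyF (fun a => (l a).foldl (fun x b => f (a, x, b)) (s a)) := by
  let step : α × (List β × σ) → List β × σ := fun p =>
    match p.2.1 with
    | [] => p.2
    | b :: t => (t, f (p.1, p.2.2, b))
  have hp1 : PolyF (fun p : α × (List β × σ) => p.2.1) := (PolyF.id.snd).fst
  have hp2 : PolyF (fun p : α × (List β × σ) => p.2) := PolyF.id.snd
  have hg : PolyF (fun q : (α × (List β × σ)) × β × List β =>
      ((q.2.2, f (q.1.1, q.1.2.2, q.2.1)) : List β × σ)) :=
    (PolyF.id.snd.snd).pair (hf.comp
      ((PolyF.id.fst.fst).pair ((PolyF.id.fst.snd.snd).pair (PolyF.id.snd.fst))))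
  have hstep : PolyF step := (PolyF.listCase hp1 hp2 hg).congr (fun p => by
    rcases p with ⟨a, l, x⟩
    cases l <;> rfl)
  have hst : ∀ a k, (fun x => step (a, x))^[k] (l a, s a) =
      ((l a).drop k, ((l a).take k).foldl (fun x b => f (a, x, b)) (s a)) := by
    intro a k
    induction k with
    | zero => simp
    | succ k ih =>
      rw [Function.iterate_succ_apply', ih]
      by_cases hk : k < (l a).length
      · have h1 : (l a).drop k = (l a)[k] :: (l a).drop (k + 1) := List.drop_eq_getElem_cons hk
        have h2 : (l a).take (k + 1) = (l a).take k ++ [(l a)[k]] := by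
          rw [List.take_append_getElem]
        simp only [step]
        rw [h1, h2, List.foldl_append]
        rfl
      · have h1 : (l a).drop k = [] := List.drop_eq_nil_of_le (by omega)
        have h2 : (l a).drop (k + 1) = [] := List.drop_eq_nil_of_le (by omega)
        have h3 : (l a).take (k + 1) = (l a).take k := by
          rw [List.take_of_length_le (by omega), List.take_of_length_le (by omega)]
        simp only [step]
        rw [h1, h2, h3]
  have hit : PolyF (fun a => (fun x => step (a, x))^[sz (l a)] ((l a, s a) : List β × σ)) := by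
    refine hl.size.iter (hl.pair hs) hstep (B := fun a => 2 * sz (l a) + 1 + B a)
      ((((PolyBd.const 2).mul hl.szBd).add (PolyBd.const 1)).add hB) ?_
    intro a k _
    rw [hst, sz_pair]
    have h1 : sz ((l a).drop k) ≤ sz (l a) := sz_sublist (List.drop_sublist k (l a))
    have h2 := h a _ (List.take_prefix k (l a))
    omega
  refine hit.snd.congr fun a => ?_
  rw [hst, List.take_of_length_le (length_le_sz (l a))]

/-- folding with a step which adds at most `h a` to the size -/
theorem PolyF.foldl_add {l : α → List β} {s : α → σ} {f : α × σ × β → σ} (hl : PolyF l)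
    (hs : PolyF s) (hf : PolyF f) {h : α → ℕ} (hh : PolyBd h)
    (hle : ∀ a x, ∀ b ∈ l a, sz (f (a, x, b)) ≤ sz x + h a) :
    PolyF (fun a => (l a).foldl (fun x b => f (a, x, b)) (s a)) := by
  refine hl.foldl hs hf (B := fun a => sz (s a) + sz (l a) * h a)
    (hs.szBd.add (PolyBd.mul hl.szBd hh)) ?_
  intro a t ht
  have key : ∀ (t : List β) (x : σ), (∀ b ∈ t, b ∈ l a) →
      sz (t.foldl (fun x b => f (a, x, b)) x) ≤ sz x + t.length * h a := by
    intro t
    induction t with
    | nil => intro x _; simp
    | cons b t ih =>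
      intro x hb
      rw [List.foldl_cons, List.length_cons, Nat.succ_mul]
      have h1 := ih (f (a, x, b)) (fun c hc => hb c (List.mem_cons_of_mem b hc))
      have h2 := hle a x b (hb b List.mem_cons_self)
      omega
  refine (key t (s a) (fun b hb => ht.subset hb)).trans
    (Nat.add_le_add_left (Nat.mul_le_mul_right _ ?_) _)
  exact ht.length_le.trans (length_le_sz (l a))

end Pool.Agent.SCS
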