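import Pool.Agent.SCS.TTab

/-!
# Module TMCode: coded configurations of Turing machines

The stacks are coded by the list of their lists of symbol numbers.  Only finitely many symbols can be pushed; the coding `SCode` has to be right (`Ok`) for those only.
`exists_scode`: for every statement `q` there is a finite set `U k` for every `k` containing all `f v` of its `push` statements (induction on `q`, `σ` is finite); take the union over all labels
and all of `Γ k₀`.  A finite set `U k` gives `code k` (the index in an enumeration, for elements of `U k`, and `0` otherwise), `dec k` (the enumeration as a partial function) and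
`C` = the maximum of the cardinalities (`K` is finite) plus `1`.  (Classical choice; `Set.Finite`, `Finset.equivFin`.)
-/

set_option autoImplicit false

namespace Pool.Agent.SCS

open Pool.Agent.PolyTime Pool.Agent.NegLim Turing

/-- a coding of the stack symbols -/
structure SCode {K : Type} (Γ : K → Type) where
  C : ℕ
  code : ∀ k, Γ k → ℕ
  dec : ∀ k, ℕ → Option (Γ k)

/-- the coding is right for the symbol `g` -/
def SCode.Ok {K : Type} {Γ : K → Type} (c : SCode Γ) (k : K) (g : Γ k) : Prop :=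
  c.code k g < c.C ∧ c.dec k (c.code k g) = some g

/-- the coding is right for all symbols pushed by the statement -/
def Closed {K : Type} {Γ : K → Type} {Λ σ : Type} (c : SCode Γ) : TM2.Stmt Γ Λ σ → Prop
  | .push k f q => (∀ v, c.Ok k (f v)) ∧ Closed c q
  | .peek _ _ q => Closed c q
  | .pop _ _ q => Closed c q
  | .load _ q => Closed c q
  | .branch _ q₁ q₂ => Closed c q₁ ∧ Closed c q₂
  | .goto _ => True
  | .halt => True

/-- the coded stacks -/
def codeStk {K : Type} {Γ : K → Type} {κ : ℕ} (c : SCode Γ) (e : K ≃ Fin κ)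
    (S : ∀ k, List (Γ k)) : List (List ℕ) :=
  List.ofFn fun i : Fin κ => (S (e.symm i)).map (c.code (e.symm i))

/-- the code of the current label -/
def codeLab {Λ : Type} (lab : Λ → ℕ) : Option Λ → ℕ
  | none => 0
  | some l => lab l + 1

/-- the coded configuration -/
def codeCfg {K : Type} {Γ : K → Type} {Λ σ : Type} {κ : ℕ} (c : SCode Γ) (e : K ≃ Fin κ)
    (lab : Λ → ℕ) (st : σ → ℕ) (x : TM2.Cfg Γ Λ σ) : ℕ × ℕ × List (List ℕ) :=
  (codeLab lab x.l, st x.var, codeStk c e x.stk)

/-- all symbols on the stacks are coded rightly -/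
def StkOk {K : Type} {Γ : K → Type} (c : SCode Γ) (S : ∀ k, List (Γ k)) : Prop :=
  ∀ k, ∀ g ∈ S k, c.Ok k g

namespace TMCodeAux

/-- all pushed symbols are in the sets `U k` -/
def PushIn {K : Type} {Γ : K → Type} {Λ σ : Type} (U : ∀ k, Set (Γ k)) :
    TM2.Stmt Γ Λ σ → Prop
  | .push k f q => (∀ v, f v ∈ U k) ∧ PushIn U q
  | .peek _ _ q => PushIn U q
  | .pop _ _ q => PushIn U q
  | .load _ q => PushIn U q
  | .branch _ q₁ q₂ => PushIn U q₁ ∧ PushIn U q₂
  | .goto _ => True
  | .halt => True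

theorem pushIn_mono {K : Type} {Γ : K → Type} {Λ σ : Type} {U U' : ∀ k, Set (Γ k)}
    (h : ∀ k, U k ⊆ U' k) (q : TM2.Stmt Γ Λ σ) (hq : PushIn U q) : PushIn U' q := by
  induction q with
  | push k f q ih => exact ⟨fun v => h k (hq.1 v), ih hq.2⟩
  | peek k f q ih => exact ih hq
  | pop k f q ih => exact ih hq
  | load a q ih => exact ih hq
  | branch f q₁ q₂ ih₁ ih₂ => exact ⟨ih₁ hq.1, ih₂ hq.2⟩
  | goto f => trivial
  | halt => trivial

theorem closed_of_pushIn {K : Type} {Γ : K → Type} {Λ σ : Type} {U : ∀ k, Set (Γ k)}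
    {c : SCode Γ} (h : ∀ k, ∀ g ∈ U k, c.Ok k g) (q : TM2.Stmt Γ Λ σ) (hq : PushIn U q) :
    Closed c q := by
  induction q with
  | push k f q ih => exact ⟨fun v => h k _ (hq.1 v), ih hq.2⟩
  | peek k f q ih => exact ih hq
  | pop k f q ih => exact ih hq
  | load a q ih => exact ih hq
  | branch f q₁ q₂ ih₁ ih₂ => exact ⟨ih₁ hq.1, ih₂ hq.2⟩
  | goto f => trivial
  | halt => trivial

theorem exists_pushIn {K : Type} {Γ : K → Type} {Λ σ : Type} [Fintype σ]
    (q : TM2.Stmt Γ Λ σ) : ∃ U : ∀ k, Set (Γ k), (∀ k, (U k).Finite) ∧ PushIn U q := by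
  classical
  induction q with
  | push k f q ih =>
    obtain ⟨U, hU, hq⟩ := ih
    refine ⟨fun k' => U k' ∪ {g | ∃ (h : k = k') (v : σ), h ▸ f v = g}, fun k' => ?_, ?_, ?_⟩
    · refine (hU k').union ?_
      by_cases h : k = k'
      · subst h
        refine (Set.finite_range f).subset ?_
        rintro g ⟨_, v, hv⟩
        exact ⟨v, hv⟩
      · refine Set.Finite.subset Set.finite_empty ?_
        rintro g ⟨h', _⟩
        exact h h'
    · intro v
      exact Or.inr ⟨rfl, v, rfl⟩
    · exact pushIn_mono (fun k' => Set.subset_union_left) q hq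
  | peek k f q ih => exact ih
  | pop k f q ih => exact ih
  | load a q ih => exact ih
  | branch f q₁ q₂ ih₁ ih₂ =>
    obtain ⟨U₁, h₁, hq₁⟩ := ih₁
    obtain ⟨U₂, h₂, hq₂⟩ := ih₂
    exact ⟨fun k => U₁ k ∪ U₂ k, fun k => (h₁ k).union (h₂ k),
      pushIn_mono (fun k => Set.subset_union_left) q₁ hq₁,
      pushIn_mono (fun k => Set.subset_union_right) q₂ hq₂⟩
  | goto f => exact ⟨fun _ => ∅, fun _ => Set.finite_empty, trivial⟩
  | halt => exact ⟨fun _ => ∅, fun _ => Set.finite_empty, trivial⟩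

theorem exists_code {K : Type} [Fintype K] {Γ : K → Type} (U : ∀ k, Set (Γ k))
    (hU : ∀ k, (U k).Finite) : ∃ c : SCode Γ, ∀ k, ∀ g ∈ U k, c.Ok k g := by
  classical
  have hF : ∀ k, ∃ n : ℕ, Nonempty (U k ≃ Fin n) := fun k => by
    haveI := (hU k).fintype
    exact ⟨_, ⟨Fintype.equivFin (U k)⟩⟩
  choose n hn using hF
  let e : ∀ k, U k ≃ Fin (n k) := fun k => (hn k).some
  refine ⟨⟨(∑ k, n k) + 1, fun k g => if h : g ∈ U k then (e k ⟨g, h⟩ : ℕ) else 0,
    fun k i => if h : i < n k then some ((e k).symm ⟨i, h⟩).1 else none⟩, fun k g hg => ?_⟩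
  have hlt : (e k ⟨g, hg⟩ : ℕ) < n k := (e k ⟨g, hg⟩).2
  constructor
  · show (if h : g ∈ U k then (e k ⟨g, h⟩ : ℕ) else 0) < (∑ k, n k) + 1
    rw [dif_pos hg]
    have : n k ≤ ∑ k, n k := Finset.single_le_sum (f := n) (fun _ _ => Nat.zero_le _)
      (Finset.mem_univ k)
    omega
  · show (if h : (if h : g ∈ U k then (e k ⟨g, h⟩ : ℕ) else 0) < n k then
      some ((e k).symm ⟨_, h⟩).1 else none) = some g
    have h1 : (if h : g ∈ U k then (e k ⟨g, h⟩ : ℕ) else 0) = (e k ⟨g, hg⟩ : ℕ) := dif_pos hg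
    have h2 : (if h : g ∈ U k then (e k ⟨g, h⟩ : ℕ) else 0) < n k := by rw [h1]; exact hlt
    rw [dif_pos h2]
    congr 1
    have h3 : (⟨(if h : g ∈ U k then (e k ⟨g, h⟩ : ℕ) else 0), h2⟩ : Fin (n k)) =
        e k ⟨g, hg⟩ := Fin.ext h1
    rw [h3, Equiv.symm_apply_apply]

end TMCodeAux

/-- Finitely many symbols are pushed by finitely many statements. -/
theorem exists_scode {K : Type} [DecidableEq K] [Fintype K] {Γ : K → Type} {Λ σ : Type}
    [Fintype Λ] [Fintype σ] (m : Λ → TM2.Stmt Γ Λ σ) (k₀ : K) [Fintype (Γ k₀)] :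
    ∃ c : SCode Γ, (∀ l, Closed c (m l)) ∧ ∀ g : Γ k₀, c.Ok k₀ g := by
  classical
  choose U hU hq using fun l => TMCodeAux.exists_pushIn (m l)
  obtain ⟨c, hc⟩ := TMCodeAux.exists_code
    (fun k => (⋃ l, U l k) ∪ {g | k = k₀}) (fun k => by
      refine (Set.finite_iUnion fun l => hU l k).union ?_
      by_cases h : k = k₀
      · subst h
        exact Set.toFinite _
      · refine Set.Finite.subset Set.finite_empty ?_
        intro g hg
        exact h hg)
  exact ⟨c, fun l => TMCodeAux.closed_of_pushIn hc (m l)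
    (TMCodeAux.pushIn_mono (fun k => (Set.subset_iUnion (fun l => U l k) l).trans
      Set.subset_union_left) (m l) (hq l)), fun g => hc k₀ g (Or.inr rfl)⟩

end Pool.Agent.SCS
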