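import Pool.Agent.SCS.TMCode

/-!
# Module TMExec: the statements of a Turing machine act on coded configurations by `PolyF` functions

The stacks are coded by the list of their lists of symbol numbers.  Only finitely many symbols can be pushed; the coding `SCode` has to be right (`Ok`) for those only.
`exec_exists`: induction on the statement.
-/

set_option autoImplicit false

namespace Pool.Agent.SCS

open Pool.Agent.PolyTime Pool.Agent.NegLim Turing

namespace TMExecAux

variable {α γ σ : Type} [Enc α] [Enc γ]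

open Classical in
/-- the function `g` on the numbers of the elements of `σ` -/
noncomputable def tb (st : σ → ℕ) (g : σ → γ) (d : γ) (i : ℕ) : γ :=
  if h : ∃ v, st v = i then g h.choose else d

omit [Enc γ] in
theorem tb_st {st : σ → ℕ} (hst : Function.Injective st) (g : σ → γ) (d : γ) (v : σ) :
    tb st g d (st v) = g v := by
  have h : ∃ v', st v' = st v := ⟨v, rfl⟩
  unfold tb
  rw [dif_pos h, hst h.choose_spec]

omit [Enc γ] in
theorem tb_ge {st : σ → ℕ} {b : ℕ} (hb : ∀ v, st v < b) (g : σ → γ) (d : γ) {i : ℕ}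
    (hi : ¬ i < b) : tb st g d i = d := by
  unfold tb
  rw [dif_neg]
  rintro ⟨v, rfl⟩
  exact hi (hb v)

theorem polyF_tb {st : σ → ℕ} {b : ℕ} (hb : ∀ v, st v < b) (g : σ → γ) (d : γ) {n : α → ℕ}
    (hn : PolyF n) : PolyF (fun a => tb st g d (n a)) := by
  refine (PolyF.table b (tb st g d) d hn).congr fun a => ?_
  by_cases h : n a < b
  · rw [if_pos h]
  · rw [if_neg h, tb_ge hb g d h]

theorem exists_tb_bd {st : σ → ℕ} {b : ℕ} (hb : ∀ v, st v < b) (g : σ → γ) (d : γ) :
    ∃ B : ℕ, ∀ i, sz (tb st g d i) ≤ B := by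
  refine ⟨(∑ i ∈ Finset.range b, sz (tb st g d i)) + sz d, fun i => ?_⟩
  by_cases h : i < b
  · have := Finset.single_le_sum (f := fun i => sz (tb st g d i)) (fun _ _ => Nat.zero_le _)
      (Finset.mem_range.mpr h)
    exact this.trans (Nat.le_add_right _ _)
  · rw [tb_ge hb g d h]
    exact Nat.le_add_left _ _

/-- the number of the head of a row -/
def hc (r : List ℕ) : ℕ := if r.isEmpty = true then 0 else r.headD 0 + 1

theorem sz_rows_cons (a : List ℕ) (l : List (List ℕ)) : sz (a :: l) = 2 * sz a + 1 + sz l :=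
  length_pairWord _ _

theorem sz_row_cons (a : ℕ) (l : List ℕ) : sz (a :: l) = 2 * a + 1 + sz l := by
  have h : sz (a :: l) = 2 * (List.replicate a true).length + 1 + sz l := length_pairWord _ _
  rw [h, List.length_replicate]

theorem sz_set_le (l : List (List ℕ)) (i : ℕ) (x : List ℕ) (c₀ : ℕ)
    (h : sz x ≤ sz (l.getD i []) + c₀) : sz (l.set i x) ≤ sz l + 2 * c₀ := by
  induction l generalizing i with
  | nil => simp
  | cons a l ih =>
    cases i with
    | zero =>
      rw [List.set_cons_zero, sz_rows_cons, sz_rows_cons]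
      have : sz x ≤ sz a + c₀ := h
      omega
    | succ i =>
      rw [List.set_cons_succ, sz_rows_cons, sz_rows_cons]
      have := ih i h
      omega

section

variable {K : Type} {Γ : K → Type} {κ : ℕ} (c : SCode Γ) (e : K ≃ Fin κ)

theorem length_codeStk (S : ∀ k, List (Γ k)) : (codeStk c e S).length = κ := by
  unfold codeStk
  exact List.length_ofFn

theorem codeStk_getElem (S : ∀ k, List (Γ k)) (i : ℕ) (hi : i < (codeStk c e S).length) :
    (codeStk c e S)[i] = (S (e.symm ⟨i, by rwa [length_codeStk] at hi⟩)).map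
      (c.code (e.symm ⟨i, by rwa [length_codeStk] at hi⟩)) := by
  unfold codeStk
  rw [List.getElem_ofFn]

theorem map_congr (S : ∀ k, List (Γ k)) {k k' : K} (h : k = k') :
    (S k).map (c.code k) = (S k').map (c.code k') := by
  subst h
  rfl

theorem codeStk_getD (S : ∀ k, List (Γ k)) (k : K) (d : List ℕ) :
    (codeStk c e S).getD (e k) d = (S k).map (c.code k) := by
  have h : (e k : ℕ) < (codeStk c e S).length := by
    rw [length_codeStk]
    exact (e k).2
  rw [List.getD_eq_getElem _ _ h, codeStk_getElem]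
  exact map_congr c S (e.symm_apply_apply k)

theorem codeStk_update [DecidableEq K] (S : ∀ k, List (Γ k)) (k : K) (l : List (Γ k)) :
    codeStk c e (Function.update S k l) = (codeStk c e S).set (e k) (l.map (c.code k)) := by
  apply List.ext_getElem
  · rw [List.length_set, length_codeStk, length_codeStk]
  · intro i h1 h2
    rw [List.getElem_set, codeStk_getElem, codeStk_getElem]
    have hi : i < κ := by rwa [length_codeStk] at h1
    by_cases h : (e k : ℕ) = i
    · rw [if_pos h]
      have hk : e.symm ⟨i, hi⟩ = k := by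
        rw [Equiv.symm_apply_eq]
        exact Fin.ext h.symm
      rw [map_congr c (Function.update S k l) hk, Function.update_self]
    · rw [if_neg h]
      have hk : e.symm ⟨i, hi⟩ ≠ k := by
        intro h'
        apply h
        rw [← h', Equiv.apply_symm_apply]
      rw [Function.update_of_ne hk]

theorem hc_map {k : K} (l : List (Γ k)) : hc (l.map (c.code k)) =
    match l with
    | [] => 0
    | g :: _ => c.code k g + 1 := by
  cases l <;> simp [hc]

/-- decoding of the head -/
def decO (k : K) : ℕ → Option (Γ k)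
  | 0 => none
  | s + 1 => c.dec k s

theorem decO_hc {S : ∀ k, List (Γ k)} (hS : StkOk c S) (k : K) :
    decO c k (hc ((S k).map (c.code k))) = (S k).head? := by
  have h := hS k
  cases hk : S k with
  | nil => simp [hc, decO]
  | cons g l =>
    have h1 := (h g (by rw [hk]; exact List.mem_cons_self)).2
    simp [hc, decO, h1]

theorem hc_lt {S : ∀ k, List (Γ k)} (hS : StkOk c S) (k : K) :
    hc ((S k).map (c.code k)) < c.C + 1 := by
  have h := hS k
  cases hk : S k with
  | nil => simp [hc]
  | cons g l =>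
    have h1 := (h g (by rw [hk]; exact List.mem_cons_self)).1
    simp [hc, h1]

theorem stkOk_update [DecidableEq K] {S : ∀ k, List (Γ k)} (hS : StkOk c S) (k : K)
    (l : List (Γ k)) (hl : ∀ g ∈ l, c.Ok k g) : StkOk c (Function.update S k l) := by
  intro k' g hg
  by_cases h : k' = k
  · subst h
    rw [Function.update_self] at hg
    exact hl g hg
  · rw [Function.update_of_ne h] at hg
    exact hS k' g hg

end

theorem polyF_hc {r : α → List ℕ} (hr : PolyF r) : PolyF (fun a => hc (r a)) :=
  PolyF.ite hr.isEmpty (PolyF.const 0) (hr.headD 0).succ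

/-- the transition table for `peek` and `pop` -/
noncomputable def tpk {K : Type} {Γ : K → Type} (c : SCode Γ) (st : σ → ℕ) (k : K)
    (f : σ → Option (Γ k) → σ) (b : ℕ) (i j : ℕ) : ℕ :=
  if i < b ∧ j < c.C + 1 then tb st (fun v => st (f v (decO c k j))) 0 i else 0

theorem polyF_tpk {K : Type} {Γ : K → Type} (c : SCode Γ) (st : σ → ℕ) (k : K)
    (f : σ → Option (Γ k) → σ) (b : ℕ) {m n : α → ℕ} (hm : PolyF m) (hn : PolyF n) :
    PolyF (fun a => tpk c st k f b (m a) (n a)) :=
  PolyF.table2 b (c.C + 1) (fun i j => tb st (fun v => st (f v (decO c k j))) 0 i) 0 hm hn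

theorem tpk_eq {K : Type} {Γ : K → Type} {c : SCode Γ} {st : σ → ℕ}
    (hst : Function.Injective st) {k : K} (f : σ → Option (Γ k) → σ) {b : ℕ}
    (hb : ∀ v, st v < b) {S : ∀ k, List (Γ k)} (hS : StkOk c S) (v : σ) :
    tpk c st k f b (st v) (hc ((S k).map (c.code k))) = st (f v (S k).head?) := by
  unfold tpk
  rw [if_pos ⟨hb v, hc_lt c hS k⟩, tb_st hst, decO_hc c hS]

end TMExecAux

open TMExecAux in
theorem exec_exists {K : Type} [DecidableEq K] {Γ : K → Type} {Λ σ : Type} {κ : ℕ}
    (c : SCode Γ) (e : K ≃ Fin κ) (lab : Λ → ℕ) (st : σ → ℕ) (hst : Function.Injective st)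
    (b : ℕ) (hb : ∀ v, st v < b) (L : ℕ) (hL : ∀ l, lab l < L) (q : TM2.Stmt Γ Λ σ)
    (hq : Closed c q) :
    ∃ F : ℕ × List (List ℕ) → ℕ × ℕ × List (List ℕ), PolyF F ∧
      (∃ B : ℕ, ∀ p, sz (F p) ≤ sz p.2 + B) ∧
      ∀ v S, StkOk c S → F (st v, codeStk c e S) = codeCfg c e lab st (TM2.stepAux q v S) ∧
        StkOk c (TM2.stepAux q v S).stk := by
  have p1 : PolyF (fun p : ℕ × List (List ℕ) => p.1) := PolyF.id.fst
  have p2 : PolyF (fun p : ℕ × List (List ℕ) => p.2) := PolyF.id.snd
  induction q with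
  | push k f q ih =>
    obtain ⟨hf, hq⟩ := hq
    obtain ⟨F, hF, ⟨B, hB⟩, hFS⟩ := ih hq
    obtain ⟨C, hC⟩ := exists_tb_bd hb (fun v => c.code k (f v)) 0
    have hrow : PolyF (fun p : ℕ × List (List ℕ) => p.2.getD (e k) []) :=
      PolyF.getD (PolyF.const _) p2 (PolyF.const _)
    have ht := polyF_tb hb (fun v => c.code k (f v)) 0 p1
    refine ⟨fun p => F (p.1, p.2.set (e k) (tb st (fun v => c.code k (f v)) 0 p.1 ::
      p.2.getD (e k) [])), hF.comp (p1.pair (PolyF.set _ p2 (ht.cons hrow))),
      ⟨B + 2 * (2 * C + 1), fun p => ?_⟩, fun v S hS => ?_⟩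
    · refine (hB _).trans ?_
      have h1 := hC p.1
      rw [sz_nat] at h1
      have h2 := sz_set_le p.2 (e k) (tb st (fun v => c.code k (f v)) 0 p.1 ::
        p.2.getD (e k) []) (2 * C + 1) (by rw [sz_row_cons]; omega)
      show sz (p.2.set (e k) _) + B ≤ _
      omega
    · have h1 := hFS v (Function.update S k (f v :: S k)) (stkOk_update c hS k _ (by
        intro g hg
        rcases List.mem_cons.mp hg with rfl | hg
        · exact hf v
        · exact hS k g hg))
      rw [codeStk_update] at h1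
      simp only [TM2.stepAux]
      rw [codeStk_getD, tb_st hst]
      exact h1
  | peek k f q ih =>
    obtain ⟨F, hF, ⟨B, hB⟩, hFS⟩ := ih hq
    have hrow : PolyF (fun p : ℕ × List (List ℕ) => p.2.getD (e k) []) :=
      PolyF.getD (PolyF.const _) p2 (PolyF.const _)
    refine ⟨fun p => F (tpk c st k f b p.1 (hc (p.2.getD (e k) [])), p.2),
      hF.comp ((polyF_tpk c st k f b p1 (polyF_hc hrow)).pair p2), ⟨B, fun p => hB _⟩,
      fun v S hS => ?_⟩
    have h1 := hFS (f v (S k).head?) S hS
    simp only [TM2.stepAux]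
    rw [codeStk_getD, tpk_eq hst f hb hS]
    exact h1
  | pop k f q ih =>
    obtain ⟨F, hF, ⟨B, hB⟩, hFS⟩ := ih hq
    have hrow : PolyF (fun p : ℕ × List (List ℕ) => p.2.getD (e k) []) :=
      PolyF.getD (PolyF.const _) p2 (PolyF.const _)
    refine ⟨fun p => F (tpk c st k f b p.1 (hc (p.2.getD (e k) [])),
      p.2.set (e k) (p.2.getD (e k) []).tail),
      hF.comp ((polyF_tpk c st k f b p1 (polyF_hc hrow)).pair (PolyF.set _ p2 hrow.tail)),
      ⟨B, fun p => ?_⟩, fun v S hS => ?_⟩
    · refine (hB _).trans ?_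
      have h2 := sz_set_le p.2 (e k) (p.2.getD (e k) []).tail 0 (by
        cases p.2.getD (e k) [] with
        | nil => simp
        | cons a l => rw [List.tail_cons]; exact (sz_tail_lt a l).le)
      show sz (p.2.set (e k) _) + B ≤ _
      omega
    · have h1 := hFS (f v (S k).head?) (Function.update S k (S k).tail) (stkOk_update c hS k _
        fun g hg => hS k g (List.mem_of_mem_tail hg))
      rw [codeStk_update] at h1
      simp only [TM2.stepAux]
      rw [codeStk_getD, tpk_eq hst f hb hS, ← List.map_tail]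
      exact h1
  | load a q ih =>
    obtain ⟨F, hF, ⟨B, hB⟩, hFS⟩ := ih hq
    refine ⟨fun p => F (tb st (fun v => st (a v)) 0 p.1, p.2),
      hF.comp ((polyF_tb hb _ 0 p1).pair p2), ⟨B, fun p => hB _⟩, fun v S hS => ?_⟩
    simp only [TM2.stepAux]
    rw [tb_st hst]
    exact hFS (a v) S hS
  | branch f q₁ q₂ ih₁ ih₂ =>
    obtain ⟨F₁, hF₁, ⟨B₁, hB₁⟩, hFS₁⟩ := ih₁ hq.1
    obtain ⟨F₂, hF₂, ⟨B₂, hB₂⟩, hFS₂⟩ := ih₂ hq.2
    refine ⟨fun p => if tb st f false p.1 = true then F₁ p else F₂ p,
      PolyF.ite (polyF_tb hb f false p1) hF₁ hF₂, ⟨B₁ + B₂, fun p => ?_⟩, fun v S hS => ?_⟩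
    · have h1 := hB₁ p
      have h2 := hB₂ p
      simp only
      split_ifs <;> omega
    · simp only [TM2.stepAux]
      rw [tb_st hst]
      cases h : f v with
      | true =>
        rw [if_pos rfl]
        exact hFS₁ v S hS
      | false =>
        rw [if_neg (by simp)]
        exact hFS₂ v S hS
  | goto f =>
    refine ⟨fun p => (tb st (fun v => lab (f v) + 1) 0 p.1, tb st (fun v => st v) 0 p.1, p.2),
      (polyF_tb hb _ 0 p1).pair ((polyF_tb hb _ 0 p1).pair p2), ?_, fun v S hS => ?_⟩
    · obtain ⟨B₁, h₁⟩ := exists_tb_bd hb (fun v => lab (f v) + 1) 0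
      obtain ⟨B₂, h₂⟩ := exists_tb_bd hb (fun v => st v) 0
      refine ⟨2 * B₁ + 1 + (2 * B₂ + 1), fun p => ?_⟩
      rw [sz_pair, sz_pair]
      have := h₁ p.1
      have := h₂ p.1
      omega
    · simp only [TM2.stepAux]
      rw [tb_st hst, tb_st hst]
      exact ⟨rfl, hS⟩
  | halt =>
    refine ⟨fun p => (0, tb st (fun v => st v) 0 p.1, p.2),
      (PolyF.const 0).pair ((polyF_tb hb _ 0 p1).pair p2), ?_, fun v S hS => ?_⟩
    · obtain ⟨B₂, h₂⟩ := exists_tb_bd hb (fun v => st v) 0
      refine ⟨1 + (2 * B₂ + 1), fun p => ?_⟩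
      rw [sz_pair, sz_pair, sz_nat]
      have := h₂ p.1
      omega
    · simp only [TM2.stepAux]
      rw [tb_st hst]
      exact ⟨rfl, hS⟩

end Pool.Agent.SCS
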