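import Pool.Agent.SCS.TMExec

/-!
# Module TMSim: functions computable by Mathlib's polynomial-time Turing machines are in `PC`

Let `tm`, `time` compute `f`.  `exists_scode tm.m tm.k₀`, `e = Fintype.equivFin tm.K`, `lab l = Fintype.equivFin tm.Λ l`, `st v = Fintype.equivFin tm.σ v`, `F l` from `exec_exists` for
`tm.m l` (choose).  `G (j, i, S) = if j = 0 then (j, i, S) else F (lab⁻¹ (j - 1)) (i, S)` is `PolyF` by `PolyF.finCases`, `sz (G p) ≤ sz p + B`.  For `x`:
start `s x = (lab main + 1, st initialState, (List.replicate κ []).set (e k₀) (x.map (code ∘ inputAlphabet.symm)))` is `PolyF` (`PolyF.map`, `PolyF.ofBool`, `PolyF.set`) and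
equals `codeCfg (initList ...)` (`Prog.initList_eq` in Lib/PolyTime/Prog.lean).  `PolyF.iter_add` with `n x = time.eval |x|` (`PolyF.evalPoly`, `PolyF.size`):
`G^[n x] (s x) = codeCfg (haltList ...)`: as long as the label is not `none` the machine step corresponds to `G`; after halting `G` is the identity (`EvalsToInTime`: `steps ≤ time`,
`evals_in_steps : (flip bind step)^[steps] (some init) = some halt`; so the machine does not halt before `steps` steps: `step` of a halted configuration is `none`).
Output: row `e k₁` (`PolyF.getD`), mapped by the table `s ↦ outputAlphabet (dec k₁ s)` (`PolyF.map`, `PolyF.table`): the word `f x` (`StkOk`, `Prog.haltList_eq`).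
-/

set_option autoImplicit false

namespace Pool.Agent.SCS

open Pool.Agent.PolyTime Pool.Agent.NegLim Turing

namespace TMSimAux

/-- the step on coded configurations -/
def GG {Λ : Type} [Fintype Λ] (L : ℕ) (inv : Fin L → Λ)
    (F : Λ → ℕ × List (List ℕ) → ℕ × ℕ × List (List ℕ)) (i : ℕ)
    (a : ℕ × ℕ × List (List ℕ)) : ℕ × ℕ × List (List ℕ) :=
  match i with
  | 0 => a
  | j + 1 => if h : j < L then F (inv ⟨j, h⟩) a.2 else a

/-- the step on coded configurations -/
def G {Λ : Type} [Fintype Λ] (L : ℕ) (inv : Fin L → Λ)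
    (F : Λ → ℕ × List (List ℕ) → ℕ × ℕ × List (List ℕ))
    (a : ℕ × ℕ × List (List ℕ)) : ℕ × ℕ × List (List ℕ) :=
  if a.1 < L + 1 then GG L inv F a.1 a else a

theorem polyF_G {Λ : Type} [Fintype Λ] (L : ℕ) (inv : Fin L → Λ)
    (F : Λ → ℕ × List (List ℕ) → ℕ × ℕ × List (List ℕ)) (hF : ∀ l, PolyF (F l)) :
    PolyF (G L inv F) := by
  refine PolyF.finCases (n := fun a : ℕ × ℕ × List (List ℕ) => a.1) (L + 1)
    (F := GG L inv F) (d := fun a => a) (PolyF.fst PolyF.id) ?_ PolyF.id
  intro i _
  match i with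
  | 0 => exact PolyF.id
  | j + 1 =>
    by_cases h : j < L
    · refine PolyF.congr (PolyF.comp (hF (inv ⟨j, h⟩)) (PolyF.snd PolyF.id)) ?_
      intro a
      simp only [GG, dif_pos h]
    · refine PolyF.congr PolyF.id ?_
      intro a
      simp only [GG, dif_neg h]

theorem sz_G {Λ : Type} [Fintype Λ] (L : ℕ) (inv : Fin L → Λ)
    (F : Λ → ℕ × List (List ℕ) → ℕ × ℕ × List (List ℕ)) (B : Λ → ℕ)
    (hB : ∀ l p, sz (F l p) ≤ sz p.2 + B l) (a : ℕ × ℕ × List (List ℕ)) :
    sz (G L inv F a) ≤ sz a + ∑ l, B l := by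
  unfold G
  split_ifs with h
  · rcases h1 : a.1 with _ | j
    · simp only [GG]
      omega
    · by_cases hj : j < L
      · simp only [GG, dif_pos hj]
        have h2 := hB (inv ⟨j, hj⟩) a.2
        have h3 : B (inv ⟨j, hj⟩) ≤ ∑ l, B l :=
          Finset.single_le_sum (fun _ _ => Nat.zero_le _) (Finset.mem_univ _)
        have h4 : sz a = 2 * sz a.1 + 1 + sz a.2 := sz_pair a.1 a.2
        have h5 : sz a.2 = 2 * sz a.2.1 + 1 + sz a.2.2 := sz_pair a.2.1 a.2.2
        omega
      · simp only [GG, dif_neg hj]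
        omega
  · omega

theorem G_zero {Λ : Type} [Fintype Λ] (L : ℕ) (inv : Fin L → Λ)
    (F : Λ → ℕ × List (List ℕ) → ℕ × ℕ × List (List ℕ)) (a : ℕ × ℕ × List (List ℕ))
    (h : a.1 = 0) : G L inv F a = a := by
  unfold G
  rw [h, if_pos (Nat.succ_pos L)]
  rfl

theorem G_succ {Λ : Type} [Fintype Λ] (L : ℕ) (inv : Fin L → Λ)
    (F : Λ → ℕ × List (List ℕ) → ℕ × ℕ × List (List ℕ)) (j : Fin L)
    (p : ℕ × List (List ℕ)) : G L inv F ((j : ℕ) + 1, p) = F (inv j) p := by
  unfold G
  rw [if_pos (Nat.succ_lt_succ j.2)]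
  simp only [GG, dif_pos j.2]

/-- the simulation -/
theorem sim {K : Type} [DecidableEq K] {Γ : K → Type} {Λ σ : Type} [Fintype Λ] {κ : ℕ}
    (m : Λ → TM2.Stmt Γ Λ σ) (c : SCode Γ) (e : K ≃ Fin κ) (L : ℕ) (el : Λ ≃ Fin L)
    (st : σ → ℕ) (F : Λ → ℕ × List (List ℕ) → ℕ × ℕ × List (List ℕ))
    (hF : ∀ l v S, StkOk c S →
      F l (st v, codeStk c e S) =
        codeCfg c e (fun l => (el l : ℕ)) st (TM2.stepAux (m l) v S) ∧
        StkOk c (TM2.stepAux (m l) v S).stk) :
    ∀ (t : ℕ) (C D : TM2.Cfg Γ Λ σ), StkOk c C.stk →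
      (flip bind (TM2.step m))^[t] (some C) = some D →
      (G L el.symm F)^[t] (codeCfg c e (fun l => (el l : ℕ)) st C) =
        codeCfg c e (fun l => (el l : ℕ)) st D ∧ StkOk c D.stk := by
  have hnone : ∀ t : ℕ, (flip bind (TM2.step m))^[t] (none : Option (TM2.Cfg Γ Λ σ)) = none := by
    intro t
    induction t with
    | zero => rfl
    | succ t ih =>
      rw [Function.iterate_succ_apply]
      exact ih
  intro t
  induction t with
  | zero =>
    intro C D hC h
    rw [Function.iterate_zero, id] at h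
    obtain rfl := Option.some.inj h
    exact ⟨rfl, hC⟩
  | succ t ih =>
    intro C D hC h
    rw [Function.iterate_succ_apply] at h
    have h1 : flip bind (TM2.step m) (some C) = TM2.step m C := rfl
    rw [h1] at h
    rw [Function.iterate_succ_apply]
    obtain ⟨l, v, S⟩ := C
    rcases l with _ | l
    · have h2 : TM2.step m (⟨none, v, S⟩ : TM2.Cfg Γ Λ σ) = none := rfl
      rw [h2, hnone] at h
      exact absurd h (by simp)
    · have h2 : TM2.step m (⟨some l, v, S⟩ : TM2.Cfg Γ Λ σ) =
          some (TM2.stepAux (m l) v S) := rfl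
      rw [h2] at h
      obtain ⟨h3, h4⟩ := hF l v S hC
      have h5 : G L el.symm F (codeCfg c e (fun l => (el l : ℕ)) st ⟨some l, v, S⟩) =
          codeCfg c e (fun l => (el l : ℕ)) st (TM2.stepAux (m l) v S) := by
        rw [← h3]
        have h6 := G_succ L el.symm F (el l) (st v, codeStk c e S)
        rw [el.symm_apply_apply] at h6
        exact h6
      rw [h5]
      exact ih _ _ h4 h

theorem iter_fix {α : Type} (g : α → α) (a : α) (h : g a = a) (n : ℕ) : g^[n] a = a :=
  Function.iterate_fixed h n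

theorem codeStk_single {K : Type} {Γ : K → Type} {κ : ℕ} (c : SCode Γ) (e : K ≃ Fin κ)
    (S : ∀ k, List (Γ k)) (k₀ : K) (h : ∀ k, k ≠ k₀ → S k = []) :
    codeStk c e S = (List.replicate κ []).set (e k₀ : ℕ) ((S k₀).map (c.code k₀)) := by
  apply List.ext_getElem
  · simp [codeStk]
  · intro i h1 h2
    have hi : i < κ := by
      simpa [codeStk] using h1
    have h3 : (codeStk c e S)[i] = (S (e.symm ⟨i, hi⟩)).map (c.code (e.symm ⟨i, hi⟩)) := by
      simp only [codeStk, List.getElem_ofFn]
    rw [h3, List.getElem_set]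
    by_cases hk : (e k₀ : ℕ) = i
    · rw [if_pos hk]
      have h4 : e.symm ⟨i, hi⟩ = k₀ := by
        rw [Equiv.symm_apply_eq]
        exact Fin.ext hk.symm
      rw [h4]
    · rw [if_neg hk]
      have h4 : e.symm ⟨i, hi⟩ ≠ k₀ := by
        intro h5
        apply hk
        rw [Equiv.symm_apply_eq] at h5
        rw [← h5]
      rw [h _ h4, List.getElem_replicate]
      rfl

theorem codeStk_getD {K : Type} {Γ : K → Type} {κ : ℕ} (c : SCode Γ) (e : K ≃ Fin κ)
    (S : ∀ k, List (Γ k)) (k : K) :
    (codeStk c e S).getD (e k : ℕ) [] = (S k).map (c.code k) := by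
  unfold codeStk
  rw [List.getD_eq_getElem _ _ (by simp)]
  rw [List.getElem_ofFn]
  have h : e.symm ⟨(e k : ℕ), (e k).2⟩ = k := by
    rw [Equiv.symm_apply_eq]
  rw [h]

theorem initList_stk_self (tm : FinTM2) (s : List (tm.Γ tm.k₀)) :
    (initList tm s).stk tm.k₀ = s := by
  simp [initList]

theorem initList_stk_ne (tm : FinTM2) (s : List (tm.Γ tm.k₀)) (k : tm.K) (h : k ≠ tm.k₀) :
    (initList tm s).stk k = [] := by
  simp [initList, h]

theorem haltList_stk_self (tm : FinTM2) (s : List (tm.Γ tm.k₁)) :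
    (haltList tm s).stk tm.k₁ = s := by
  simp [haltList]

end TMSimAux

open TMSimAux in
theorem pc_of_tm {f : List Bool → List Bool}
    (h : Nonempty (TM2ComputableInPolyTime (id : List Bool → List Bool)
      (id : List Bool → List Bool) f)) : PC f := by
  obtain ⟨M⟩ := h
  obtain ⟨⟨tm, ia, oa⟩, time, out⟩ := M
  simp only at out
  have := tm.kFin
  have := tm.ΛFin
  have := tm.σFin
  have := tm.Γk₀Fin
  obtain ⟨c, hcl, hk0⟩ := exists_scode tm.m tm.k₀
  let e := Fintype.equivFin tm.K
  let el := Fintype.equivFin tm.Λ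
  let es := Fintype.equivFin tm.σ
  let lab : tm.Λ → ℕ := fun l => (el l : ℕ)
  let st : tm.σ → ℕ := fun v => (es v : ℕ)
  have hst : Function.Injective st := fun a b hab => es.injective (Fin.ext hab)
  choose F hF hBex hcor using fun l => exec_exists c e lab st hst (Fintype.card tm.σ)
    (fun v => (es v).2) (Fintype.card tm.Λ) (fun l => (el l).2) (tm.m l) (hcl l)
  choose B hB using hBex
  -- the start
  let s : List Bool → ℕ × ℕ × List (List ℕ) := fun x =>
    (lab tm.main + 1, st tm.initialState,
      (List.replicate (Fintype.card tm.K) []).set (e tm.k₀ : ℕ)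
        (x.map (fun b => c.code tm.k₀ (ia.symm b))))
  have hs : PolyF s := by
    refine PolyF.pair (PolyF.const _) (PolyF.pair (PolyF.const _) ?_)
    refine PolyF.set _ (PolyF.const _) ?_
    exact PolyF.map (l := fun x : List Bool => x)
      (f := fun p : List Bool × Bool => c.code tm.k₀ (ia.symm p.2)) PolyF.id
      (PolyF.ofBool (fun b => c.code tm.k₀ (ia.symm b)) (PolyF.snd PolyF.id))
  have hn : PolyF (fun x : List Bool => time.eval x.length) :=
    PolyF.congr (PolyF.evalPoly (PolyF.size (PolyF.id (α := List Bool))) time) (fun a => rfl)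
  have hG := polyF_G (Fintype.card tm.Λ) el.symm F hF
  have hiter : PolyF (fun x : List Bool =>
      (G (Fintype.card tm.Λ) el.symm F)^[time.eval x.length] (s x)) := by
    refine PolyF.iter_add (f := fun p : List Bool × (ℕ × ℕ × List (List ℕ)) =>
      G (Fintype.card tm.Λ) el.symm F p.2) hn hs (PolyF.comp hG (PolyF.snd PolyF.id))
      (PolyBd.const (∑ l, B l)) ?_
    intro a x
    exact sz_G _ _ _ _ hB x
  -- the output
  let tab : ℕ → Bool := fun i => match c.dec tm.k₁ i with
    | some g => oa g
    | none => false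
  have hout : PolyF (fun x : List Bool =>
      (((G (Fintype.card tm.Λ) el.symm F)^[time.eval x.length] (s x)).2.2.getD
        (e tm.k₁ : ℕ) []).map (fun i => if i < c.C then tab i else false)) := by
    refine PolyF.map (f := fun p : List Bool × ℕ => if p.2 < c.C then tab p.2 else false)
      (PolyF.getD (PolyF.const _) (PolyF.snd (PolyF.snd hiter)) (PolyF.const _)) ?_
    exact PolyF.table c.C tab false (PolyF.snd PolyF.id)
  refine polyF_word.1 (PolyF.congr hout ?_)
  intro x
  obtain ⟨⟨t, ht⟩, hle⟩ := out x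
  simp only [id] at ht hle
  have h0 : s x = codeCfg c e lab st (initList tm (List.map ia.invFun x)) := by
    have h1 : codeStk c e (initList tm (List.map ia.invFun x)).stk =
        (List.replicate (Fintype.card tm.K) []).set (e tm.k₀ : ℕ)
          (x.map (fun b => c.code tm.k₀ (ia.symm b))) := by
      rw [codeStk_single c e _ tm.k₀ (initList_stk_ne tm _), initList_stk_self, List.map_map]
      rfl
    show (lab tm.main + 1, st tm.initialState, _) = (_, _, _)
    rw [h1]
    rfl
  have hok0 : StkOk c (initList tm (List.map ia.invFun x)).stk := by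
    intro k g hg
    by_cases hk : k = tm.k₀
    · subst hk
      exact hk0 g
    · rw [initList_stk_ne tm _ k hk] at hg
      exact absurd hg (by simp)
  obtain ⟨h1, h2⟩ := sim tm.m c e (Fintype.card tm.Λ) el st F hcor t
    (initList tm (List.map ia.invFun x)) (haltList tm (List.map oa.invFun (f x))) hok0 ht
  have h3 : (G (Fintype.card tm.Λ) el.symm F)^[time.eval x.length] (s x) =
      codeCfg c e lab st (haltList tm (List.map oa.invFun (f x))) := by
    have h4 : time.eval x.length = (time.eval x.length - t) + t := by omega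
    rw [h4, Function.iterate_add_apply, h0]
    have h5 : (G (Fintype.card tm.Λ) el.symm F)^[t]
        (codeCfg c e lab st (initList tm (List.map ia.invFun x))) =
        codeCfg c e lab st (haltList tm (List.map oa.invFun (f x))) := h1
    rw [h5]
    exact iter_fix _ _ (G_zero _ _ _ _ rfl) _
  rw [h3]
  have h6 : (codeCfg c e lab st (haltList tm (List.map oa.invFun (f x)))).2.2.getD
      (e tm.k₁ : ℕ) [] = (List.map oa.invFun (f x)).map (c.code tm.k₁) := by
    show (codeStk c e (haltList tm (List.map oa.invFun (f x))).stk).getD (e tm.k₁ : ℕ) [] = _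
    rw [codeStk_getD, haltList_stk_self]
  rw [h6, List.map_map, List.map_map]
  have h7 : ∀ b ∈ f x, ((fun i => if i < c.C then tab i else false) ∘
      (c.code tm.k₁) ∘ oa.invFun) b = b := by
    intro b hb
    have h8 : c.Ok tm.k₁ (oa.invFun b) := by
      apply h2 tm.k₁
      rw [haltList_stk_self]
      exact List.mem_map_of_mem hb
    obtain ⟨h9, h10⟩ := h8
    simp only [Function.comp_apply]
    rw [if_pos h9]
    show (match c.dec tm.k₁ (c.code tm.k₁ (oa.invFun b)) with
      | some g => oa g
      | none => false) = b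
    rw [h10]
    exact oa.apply_symm_apply b
  calc List.map (((fun i => if i < c.C then tab i else false) ∘ (c.code tm.k₁)) ∘ oa.invFun) (f x)
      = List.map id (f x) := List.map_congr_left h7
    _ = f x := List.map_id _

end Pool.Agent.SCS
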