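import Pool.Agent.SCS.TIter

/-!
# Module TOps: operations on lists

`reverse`: fold of `cons` (`foldl_add` with `h a = 2 sz (l a) + 1`).  `map`: reverse of the fold of `x, b ↦ f (a, b) :: x`; for `b ∈ l a` : `sz (f (a, b)) ≤ P (sz (a, b))`,
`sz b ≤ sz (l a)`.  `flatMap`: fold of `x, b ↦ x ++ f (a, b)`.  `filter`: `flatMap` of `if p (a, b) then [b] else []`.  `length`: fold of `succ`.  `all`, `any`: fold of `and`, `or`.
`find?` with default: fold over `(found, value)` or `headD`/`listCase` of `filter`.
-/

set_option autoImplicit false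

namespace Pool.Agent.SCS

open Pool.Agent.PolyTime Pool.Agent.NegLim

variable {α β γ : Type} [Enc α] [Enc β] [Enc γ]

namespace TOpsAux

theorem foldl_cons {δ ε : Type} (g : δ → ε) (l : List δ) (s : List ε) :
    l.foldl (fun x b => g b :: x) s = (l.map g).reverse ++ s := by
  induction l generalizing s with
  | nil => simp
  | cons b l ih => simp [ih]

theorem foldl_append {δ ε : Type} (g : δ → List ε) (l : List δ) (s : List ε) :
    l.foldl (fun x b => x ++ g b) s = s ++ l.flatMap g := by
  induction l generalizing s with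
  | nil => simp
  | cons b l ih => simp [ih]

theorem foldl_length {δ : Type} (l : List δ) (s : ℕ) :
    l.foldl (fun x _ => x + 1) s = s + l.length := by
  induction l generalizing s with
  | nil => simp
  | cons b l ih => simp only [List.foldl_cons, ih, List.length_cons]; omega

theorem foldl_and {δ : Type} (p : δ → Bool) (l : List δ) (s : Bool) :
    l.foldl (fun x b => x && p b) s = (s && l.all p) := by
  induction l generalizing s with
  | nil => simp
  | cons b l ih => simp [ih, Bool.and_assoc]

theorem foldl_or {δ : Type} (p : δ → Bool) (l : List δ) (s : Bool) :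
    l.foldl (fun x b => x || p b) s = (s || l.any p) := by
  induction l generalizing s with
  | nil => simp
  | cons b l ih => simp [ih, Bool.or_assoc]

theorem flatMap_filter {δ : Type} (p : δ → Bool) (l : List δ) :
    l.flatMap (fun b => if p b = true then [b] else []) = l.filter p := by
  induction l with
  | nil => simp
  | cons b l ih =>
    rw [List.flatMap_cons, ih, List.filter_cons]
    split_ifs <;> simp

theorem eval_mono (P : Polynomial ℕ) {m n : ℕ} (h : m ≤ n) : P.eval m ≤ P.eval n := by
  rw [Polynomial.eval_eq_sum_range, Polynomial.eval_eq_sum_range]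
  exact Finset.sum_le_sum (fun i _ => Nat.mul_le_mul_left _ (Nat.pow_le_pow_left h i))

theorem bd_mem {l : α → List β} {f : α × β → γ} (hl : PolyF l) (hf : PolyF f) :
    ∃ h : α → ℕ, PolyBd h ∧ ∀ a, ∀ b ∈ l a, sz (f (a, b)) ≤ h a := by
  obtain ⟨P, hP⟩ := hf.szBd
  refine ⟨fun a => P.eval (2 * sz a + 1 + sz (l a)), ?_, fun a b hb => ?_⟩
  · exact PolyBd.eval (PolyBd.add (PolyBd.add (PolyBd.mul (PolyBd.const 2) PolyBd.sz)
      (PolyBd.const 1)) hl.szBd) P
  · refine (hP (a, b)).trans (eval_mono P ?_)
    rw [sz_pair]
    have := sz_le_of_mem hb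
    omega

end TOpsAux

open TOpsAux

theorem PolyF.reverse {l : α → List β} (hl : PolyF l) : PolyF (fun a => (l a).reverse) := by
  have h1 : PolyF (fun a => (l a).foldl (fun x b => (fun q : α × List β × β => q.2.2 :: q.2.1)
      (a, x, b)) ((fun _ => []) a)) := by
    refine PolyF.foldl_add hl (PolyF.const []) (PolyF.cons (PolyF.snd (PolyF.snd PolyF.id))
      (PolyF.fst (PolyF.snd PolyF.id))) (h := fun a => 2 * sz (l a) + 1) ?_ ?_
    · exact PolyBd.add (PolyBd.mul (PolyBd.const 2) hl.szBd) (PolyBd.const 1)
    · intro a x b hb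
      have h1 := sz_cons_le b x
      have h2 := sz_le_of_mem hb
      simp only
      omega
  refine h1.congr (fun a => ?_)
  have := foldl_cons (fun b : β => b) (l a) []
  simpa using this

theorem PolyF.length {l : α → List β} (hl : PolyF l) : PolyF (fun a => (l a).length) := by
  have h1 : PolyF (fun a => (l a).foldl (fun x b => (fun q : α × ℕ × β => q.2.1 + 1)
      (a, x, b)) ((fun _ => 0) a)) := by
    refine PolyF.foldl_add hl (PolyF.const 0) (PolyF.succ (PolyF.fst (PolyF.snd PolyF.id)))
      (h := fun _ => 1) (PolyBd.const 1) ?_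
    intro a x b _
    simp only [sz_nat]
    exact le_refl _
  refine h1.congr (fun a => ?_)
  have := foldl_length (l a) 0
  simpa using this

theorem PolyF.map {l : α → List β} {f : α × β → γ} (hl : PolyF l) (hf : PolyF f) :
    PolyF (fun a => (l a).map (fun b => f (a, b))) := by
  obtain ⟨h, hh, hle⟩ := bd_mem hl hf
  have h1 : PolyF (fun a => (l a).foldl (fun x b => (fun q : α × List γ × β =>
      f (q.1, q.2.2) :: q.2.1) (a, x, b)) ((fun _ => []) a)) := by
    refine PolyF.foldl_add hl (PolyF.const []) (PolyF.cons (hf.comp (PolyF.pair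
      (PolyF.fst PolyF.id) (PolyF.snd (PolyF.snd PolyF.id))))
      (PolyF.fst (PolyF.snd PolyF.id))) (h := fun a => 2 * h a + 1) ?_ ?_
    · exact PolyBd.add (PolyBd.mul (PolyBd.const 2) hh) (PolyBd.const 1)
    · intro a x b hb
      have h1 := sz_cons_le (f (a, b)) x
      have h2 := hle a b hb
      simp only
      omega
  refine h1.reverse.congr (fun a => ?_)
  have := foldl_cons (fun b : β => f (a, b)) (l a) []
  simp only at this ⊢
  rw [this]
  simp

theorem PolyF.flatMap {l : α → List β} {f : α × β → List γ} (hl : PolyF l) (hf : PolyF f) :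
    PolyF (fun a => (l a).flatMap (fun b => f (a, b))) := by
  obtain ⟨h, hh, hle⟩ := bd_mem hl hf
  have h1 : PolyF (fun a => (l a).foldl (fun x b => (fun q : α × List γ × β =>
      q.2.1 ++ f (q.1, q.2.2)) (a, x, b)) ((fun _ => []) a)) := by
    refine PolyF.foldl_add hl (PolyF.const []) (PolyF.append (PolyF.fst (PolyF.snd PolyF.id))
      (hf.comp (PolyF.pair (PolyF.fst PolyF.id) (PolyF.snd (PolyF.snd PolyF.id)))))
      (h := h) hh ?_
    intro a x b hb
    simp only [sz_append]
    have := hle a b hb
    omega
  refine h1.congr (fun a => ?_)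
  have := foldl_append (fun b : β => f (a, b)) (l a) []
  simp only at this ⊢
  rw [this]
  simp

theorem PolyF.filter {l : α → List β} {p : α × β → Bool} (hl : PolyF l) (hp : PolyF p) :
    PolyF (fun a => (l a).filter (fun b => p (a, b))) := by
  have h1 := PolyF.flatMap (f := fun q : α × β => if p q = true then [q.2] else []) hl
    (PolyF.ite hp (PolyF.singleton (PolyF.snd PolyF.id)) (PolyF.const []))
  refine h1.congr (fun a => ?_)
  exact flatMap_filter (fun b => p (a, b)) (l a)

theorem PolyF.all {l : α → List β} {p : α × β → Bool} (hl : PolyF l) (hp : PolyF p) :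
    PolyF (fun a => (l a).all (fun b => p (a, b))) := by
  have h1 : PolyF (fun a => (l a).foldl (fun x b => (fun q : α × Bool × β =>
      q.2.1 && p (q.1, q.2.2)) (a, x, b)) ((fun _ => true) a)) := by
    refine PolyF.foldl_add hl (PolyF.const true) (PolyF.and (PolyF.fst (PolyF.snd PolyF.id))
      (hp.comp (PolyF.pair (PolyF.fst PolyF.id) (PolyF.snd (PolyF.snd PolyF.id)))))
      (h := fun _ => 0) (PolyBd.const 0) ?_
    intro a x b _
    simp only [sz_bool]
    omega
  refine h1.congr (fun a => ?_)
  have := foldl_and (fun b : β => p (a, b)) (l a) true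
  simpa using this

theorem PolyF.any {l : α → List β} {p : α × β → Bool} (hl : PolyF l) (hp : PolyF p) :
    PolyF (fun a => (l a).any (fun b => p (a, b))) := by
  have h1 : PolyF (fun a => (l a).foldl (fun x b => (fun q : α × Bool × β =>
      q.2.1 || p (q.1, q.2.2)) (a, x, b)) ((fun _ => false) a)) := by
    refine PolyF.foldl_add hl (PolyF.const false) (PolyF.or (PolyF.fst (PolyF.snd PolyF.id))
      (hp.comp (PolyF.pair (PolyF.fst PolyF.id) (PolyF.snd (PolyF.snd PolyF.id)))))
      (h := fun _ => 0) (PolyBd.const 0) ?_
    intro a x b _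
    simp only [sz_bool]
    omega
  refine h1.congr (fun a => ?_)
  have := foldl_or (fun b : β => p (a, b)) (l a) false
  simpa using this

/-- the first element with the property, or the default value -/
theorem PolyF.findD {l : α → List β} {p : α × β → Bool} {d : α → β} (hl : PolyF l)
    (hp : PolyF p) (hd : PolyF d) :
    PolyF (fun a => ((l a).find? (fun b => p (a, b))).getD (d a)) := by
  have h1 := PolyF.listCase (g := fun q : α × β × List β => q.2.1) (hl.filter hp) hd
    (PolyF.fst (PolyF.snd PolyF.id))
  refine h1.congr (fun a => ?_)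
  simp only
  rw [← List.head?_filter]
  cases (l a).filter (fun b => p (a, b)) with
  | nil => rfl
  | cons b t => rfl

end Pool.Agent.SCS
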