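import Pool.Agent.SCS.TOps

/-!
# Module TOps2: more operations on lists

`drop n` is the `n`-fold iteration of `tail` (`iter_add`), `take n l` is a fold/iteration moving elements (`(l, acc)`).  `range`: iterate `(i, l) ↦ (i + 1, l ++ [i])` with `PolyF.iter`
(after `k ≤ n` steps the state is `(k, List.range k)`, size at most `2 n + 1 + n (2 n + 1)`).  `replicate`: iterate `cons` (`iter_add`).  `zip`: `PolyF.iter` on `(l, l', acc)` (sizes of reachable states).
`getD`: `headD` of `drop` (for a default which depends on `a`: `PolyF.listCase`).  `mem`: `PolyF.any` with `PolyF.beq`.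
`dropWhile`: iterate `sz l` times `l ↦ if l.isEmpty then l else if p (head) then l.tail else l` (on lists the head exists only if the list is nonempty: `PolyF.listCase`).
-/

set_option autoImplicit false

namespace Pool.Agent.SCS

open Pool.Agent.PolyTime Pool.Agent.NegLim

variable {α β γ : Type} [Enc α] [Enc β] [Enc γ]

namespace TOps2Aux

theorem iter_tail {β : Type} (k : ℕ) (l : List β) :
    (fun x : List β => x.tail)^[k] l = l.drop k := by
  induction k generalizing l with
  | zero => rfl
  | succ k ih =>
    rw [Function.iterate_succ_apply, ih]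
    cases l <;> simp

theorem iter_pred (k m : ℕ) : (fun x : ℕ => x - 1)^[k] m = m - k := by
  induction k generalizing m with
  | zero => rfl
  | succ k ih =>
    rw [Function.iterate_succ_apply, ih]
    omega

theorem iter_cons {β : Type} (k : ℕ) (b : β) :
    (fun x : List β => b :: x)^[k] [] = List.replicate k b := by
  induction k with
  | zero => rfl
  | succ k ih => rw [Function.iterate_succ_apply', ih, List.replicate_succ]

theorem iter_range (k : ℕ) :
    (fun x : ℕ × List ℕ => (x.1 + 1, x.2 ++ [x.1]))^[k] (0, []) = (k, List.range k) := by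
  induction k with
  | zero => rfl
  | succ k ih => rw [Function.iterate_succ_apply', ih, List.range_succ]

/-- first elements of two lists -/
def hd2 {β γ : Type} (l : List β) (l' : List γ) : List (β × γ) :=
  match l with
  | [] => []
  | b :: _ => match l' with
    | [] => []
    | c :: _ => [(b, c)]

theorem zip_eq {β γ : Type} (l : List β) (l' : List γ) :
    (List.range l.length).flatMap (fun i => hd2 (l.drop i) (l'.drop i)) = l.zip l' := by
  induction l generalizing l' with
  | nil => rfl
  | cons b t ih =>
    rw [List.length_cons, List.range_succ_eq_map, List.flatMap_cons, List.flatMap_map]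
    cases l' with
    | nil =>
      have h1 : ∀ i, hd2 ((b :: t).drop (i + 1)) (([] : List γ).drop (i + 1)) = [] := by
        intro i
        rw [List.drop_nil]
        unfold hd2
        cases List.drop (i + 1) (b :: t) <;> rfl
      simp only [Nat.succ_eq_add_one, h1, List.zip_nil_right]
      simp [hd2]
    | cons c t' =>
      rw [List.zip_cons_cons, ← ih t']
      rfl

theorem getD_eq {β : Type} (l : List β) (n : ℕ) (d : β) :
    (match l.drop n with
      | [] => d
      | b :: _ => b) = l.getD n d := by
  rw [List.getD_eq_getElem?_getD, ← List.head?_drop]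
  cases l.drop n <;> rfl

/-- one step of `dropWhile` -/
def dw {β : Type} (p : β → Bool) (l : List β) : List β :=
  match l with
  | [] => []
  | b :: t => if p b = true then t else b :: t

theorem dw_iter {β : Type} (p : β → Bool) (l : List β) (k : ℕ) (hk : l.length ≤ k) :
    (fun x => dw p x)^[k] l = l.dropWhile p := by
  induction l generalizing k with
  | nil =>
    clear hk
    induction k with
    | zero => rfl
    | succ k ih =>
      rw [Function.iterate_succ_apply]
      exact ih
  | cons b t ih =>
    by_cases hb : p b = true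
    · obtain ⟨k, rfl⟩ : ∃ j, k = j + 1 := ⟨k - 1, by simp at hk; omega⟩
      rw [Function.iterate_succ_apply, List.dropWhile_cons, if_pos hb]
      have h1 : dw p (b :: t) = t := if_pos hb
      rw [h1]
      exact ih k (by simp at hk; omega)
    · have h1 : dw p (b :: t) = b :: t := if_neg hb
      rw [List.dropWhile_cons, if_neg hb]
      clear hk
      induction k with
      | zero => rfl
      | succ k ih' =>
        rw [Function.iterate_succ_apply, h1]
        exact ih'

theorem dw_sublist {β : Type} (p : β → Bool) (l : List β) : (dw p l).Sublist l := by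
  cases l with
  | nil => exact List.Sublist.refl _
  | cons b t =>
    by_cases hb : p b = true
    · have h1 : dw p (b :: t) = t := if_pos hb
      rw [h1]
      exact List.sublist_cons_self b t
    · have h1 : dw p (b :: t) = b :: t := if_neg hb
      rw [h1]

end TOps2Aux

open TOps2Aux

theorem PolyF.drop {n : α → ℕ} {l : α → List β} (hn : PolyF n) (hl : PolyF l) :
    PolyF (fun a => (l a).drop (n a)) := by
  have h := PolyF.iter_add (f := fun p : α × List β => p.2.tail) hn hl
    (PolyF.tail (PolyF.snd PolyF.id)) (PolyBd.const 0) (fun a x => by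
      simpa using sz_sublist (List.tail_sublist x))
  exact h.congr fun a => iter_tail _ _

theorem PolyF.take {n : α → ℕ} {l : α → List β} (hn : PolyF n) (hl : PolyF l) :
    PolyF (fun a => (l a).take (n a)) := by
  have h := PolyF.iter_add (f := fun p : α × ℕ => p.2 - 1) hn (PolyF.length hl)
    (PolyF.pred (PolyF.snd PolyF.id)) (PolyBd.const 0) (fun a x => by
      simp only [sz_nat]
      omega)
  have h1 : PolyF (fun a => (l a).length - n a) := h.congr fun a => iter_pred _ _
  refine (PolyF.reverse (PolyF.drop h1 (PolyF.reverse hl))).congr fun a => ?_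
  rw [← List.reverse_take, List.reverse_reverse]

theorem PolyF.replicate {n : α → ℕ} {f : α → β} (hn : PolyF n) (hf : PolyF f) :
    PolyF (fun a => List.replicate (n a) (f a)) := by
  have h := PolyF.iter_add (f := fun p : α × List β => f p.1 :: p.2) hn
    (PolyF.const ([] : List β)) (PolyF.cons (hf.comp (PolyF.fst PolyF.id)) (PolyF.snd PolyF.id))
    (((PolyBd.const 2).mul hf.szBd).add (PolyBd.const 1)) (fun a x => by
      have := sz_cons_le (f a) x
      dsimp only
      omega)
  exact h.congr fun a => iter_cons (n a) (f a)

theorem PolyF.range {n : α → ℕ} (hn : PolyF n) : PolyF (fun a => List.range (n a)) := by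
  have hB : PolyBd n := by
    refine hn.szBd.mono fun a => ?_
    rw [sz_nat]
  have hf : PolyF (fun p : α × (ℕ × List ℕ) => (p.2.1 + 1, p.2.2 ++ [p.2.1])) :=
    PolyF.pair (PolyF.succ (PolyF.fst (PolyF.snd PolyF.id)))
      (PolyF.append (PolyF.snd (PolyF.snd PolyF.id))
        (PolyF.singleton (PolyF.fst (PolyF.snd PolyF.id))))
  have h := PolyF.iter hn (PolyF.const ((0, []) : ℕ × List ℕ)) hf
    ((((PolyBd.const 2).mul hB).add (PolyBd.const 1)).add
      (hB.mul (((PolyBd.const 2).mul hB).add (PolyBd.const 1)))) (fun a k hk => by
        have h1 := iter_range k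
        simp only [] at h1 ⊢
        rw [h1, sz_pair, sz_nat]
        have h2 := sz_le_mul (List.range k) (n a) (fun b hb => by
          rw [List.mem_range] at hb
          rw [sz_nat]
          omega)
        rw [List.length_range] at h2
        have h3 : k * (2 * n a + 1) ≤ n a * (2 * n a + 1) := Nat.mul_le_mul_right _ hk
        omega)
  refine (PolyF.snd h).congr fun a => ?_
  have h1 := iter_range (n a)
  simp only [] at h1 ⊢
  rw [h1]

theorem PolyF.zip {l : α → List β} {l' : α → List γ} (hl : PolyF l) (hl' : PolyF l') :
    PolyF (fun a => (l a).zip (l' a)) := by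
  have h1 : PolyF (fun p : α × ℕ => (l p.1).drop p.2) :=
    PolyF.drop (PolyF.snd PolyF.id) (hl.comp (PolyF.fst PolyF.id))
  have h2 : PolyF (fun z : (α × ℕ) × β × List β => (l' z.1.1).drop z.1.2) :=
    PolyF.drop (PolyF.snd (PolyF.fst PolyF.id)) (hl'.comp (PolyF.fst (PolyF.fst PolyF.id)))
  have h3 : PolyF (fun z : (α × ℕ) × β × List β => match (l' z.1.1).drop z.1.2 with
      | [] => ([] : List (β × γ))
      | c :: _ => [(z.2.1, c)]) :=
    PolyF.listCase (f := fun _ => ([] : List (β × γ)))
      (g := fun y : ((α × ℕ) × β × List β) × γ × List γ => [(y.1.2.1, y.2.1)]) h2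
      (PolyF.const _) (PolyF.singleton (PolyF.pair (PolyF.fst (PolyF.snd (PolyF.fst PolyF.id)))
        (PolyF.fst (PolyF.snd PolyF.id))))
  have h4 : PolyF (fun p : α × ℕ => match (l p.1).drop p.2 with
      | [] => ([] : List (β × γ))
      | b :: _ => match (l' p.1).drop p.2 with
        | [] => []
        | c :: _ => [(b, c)]) :=
    PolyF.listCase (f := fun _ => ([] : List (β × γ)))
      (g := fun z : (α × ℕ) × β × List β => match (l' z.1.1).drop z.1.2 with
      | [] => ([] : List (β × γ))
      | c :: _ => [(z.2.1, c)]) h1 (PolyF.const _) h3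
  refine (PolyF.flatMap (PolyF.range (PolyF.length hl)) h4).congr fun a => ?_
  exact zip_eq (l a) (l' a)

theorem PolyF.getD {n : α → ℕ} {l : α → List β} {d : α → β} (hn : PolyF n) (hl : PolyF l)
    (hd : PolyF d) : PolyF (fun a => (l a).getD (n a) (d a)) :=
  (PolyF.listCase (g := fun z : α × β × List β => z.2.1) (PolyF.drop hn hl) hd
    (PolyF.fst (PolyF.snd PolyF.id))).congr fun a => getD_eq (l a) (n a) (d a)

/-- membership in a list -/
theorem PolyF.mem [DecidableEq β] {f : α → β} {l : α → List β} (hf : PolyF f) (hl : PolyF l) :
    PolyF (fun a => decide (f a ∈ l a)) := by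
  have h : PolyF (fun p : α × β => decide (f p.1 = p.2)) :=
    PolyF.beq (hf.comp (PolyF.fst PolyF.id)) (PolyF.snd PolyF.id)
  refine (PolyF.any hl h).congr fun a => ?_
  rw [Bool.eq_iff_iff, List.any_eq_true, decide_eq_true_iff]
  constructor
  · rintro ⟨b, hb, h1⟩
    rw [decide_eq_true_iff] at h1
    simp only at h1
    rw [h1]
    exact hb
  · intro h1
    exact ⟨f a, h1, by simp⟩

/-- removing an initial part -/
theorem PolyF.dropWhile {l : α → List β} {p : β → Bool} (hl : PolyF l) (hp : PolyF p) :
    PolyF (fun a => (l a).dropWhile p) := by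
  have h1 : PolyF (fun z : (α × List β) × β × List β =>
      if p z.2.1 = true then z.2.2 else z.2.1 :: z.2.2) :=
    PolyF.ite (hp.comp (PolyF.fst (PolyF.snd PolyF.id))) (PolyF.snd (PolyF.snd PolyF.id))
      (PolyF.cons (PolyF.fst (PolyF.snd PolyF.id)) (PolyF.snd (PolyF.snd PolyF.id)))
  have h2 : PolyF (fun y : α × List β => dw p y.2) := by
    refine (PolyF.listCase (f := fun _ => ([] : List β)) (PolyF.snd PolyF.id)
      (PolyF.const _) h1).congr fun y => ?_
    unfold dw
    cases y.2 <;> rfl
  have h3 := PolyF.iter_add (PolyF.length hl) hl h2 (PolyBd.const 0) (fun a x => by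
    simpa using sz_sublist (dw_sublist p x))
  exact h3.congr fun a => dw_iter p (l a) _ le_rfl

end Pool.Agent.SCS
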